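import Mathlib.NumberTheory.LSeries.PrimesInAP
import Mathlib.Analysis.PSeries

/-!
# An auxiliary prime `q ≡ 1 (mod N)` with `c(q) ≠ q + 1`
-/

set_option autoImplicit false
set_option linter.unusedSectionVars false

open Filter Topology

namespace Pool.Agent.H503.MG

/-- the inverses of the primes `≡ 1 (mod N)` -/
noncomputable def gInv (N : ℕ) (n : ℕ) : ℝ :=
  if n.Prime ∧ (n : ZMod N) = 1 then 1 / (n : ℝ) else 0

lemma gInv_nonneg (N n : ℕ) : 0 ≤ gInv N n := by
  unfold gInv
  split_ifs <;> positivity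

open ArithmeticFunction vonMangoldt in
/-- the elementary inequality behind the telescoping -/
lemma rc_le (N : ℕ) (n : ℕ) {δ : ℝ} (hδ : 0 < δ) :
    δ * ((if n.Prime then residueClass (1 : ZMod N) n else 0) / (n : ℝ) ^ (1 + δ)) ≤
      2 * (gInv N n * (n : ℝ) ^ (-(δ / 2)) - gInv N n * (n : ℝ) ^ (-δ)) := by
  unfold gInv
  by_cases hn : n.Prime
  · by_cases h1 : (n : ZMod N) = 1
    · rw [if_pos hn, if_pos ⟨hn, h1⟩]
      have h2 : residueClass (1 : ZMod N) n = Real.log n := by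
        rw [residueClass, Set.indicator_of_mem (by exact h1), vonMangoldt_apply_prime hn]
      rw [h2]
      have hn0 : (0 : ℝ) < n := by exact_mod_cast hn.pos
      set t : ℝ := δ * Real.log n with ht
      have hlog : 0 ≤ Real.log n := Real.log_nonneg (by exact_mod_cast hn.one_lt.le)
      have ht0 : 0 ≤ t := mul_nonneg hδ.le hlog
      have e1 : (n : ℝ) ^ (-δ) = Real.exp (-t) := by
        rw [Real.rpow_def_of_pos hn0, ht]
        congr 1
        ring
      have e2 : (n : ℝ) ^ (-(δ / 2)) = Real.exp (-t) * Real.exp (t / 2) := by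
        rw [Real.rpow_def_of_pos hn0, ← Real.exp_add, ht]
        congr 1
        ring
      have e3 : (n : ℝ) ^ (1 + δ) = n * (Real.exp (-t))⁻¹ := by
        rw [Real.rpow_add hn0, Real.rpow_one, ← e1, Real.rpow_neg hn0.le, inv_inv]
      rw [e1, e2, e3]
      have h3 : t / 2 + 1 ≤ Real.exp (t / 2) := Real.add_one_le_exp _
      have h4 : 0 < Real.exp (-t) := Real.exp_pos _
      have h5 : δ * (Real.log n / (n * (Real.exp (-t))⁻¹)) = 1 / n * (t * Real.exp (-t)) := by
        rw [ht]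
        field_simp
      have h6 : 2 * (1 / (n : ℝ) * (Real.exp (-t) * Real.exp (t / 2)) - 1 / n * Real.exp (-t)) =
          1 / n * (2 * (Real.exp (t / 2) - 1) * Real.exp (-t)) := by ring
      rw [h5, h6]
      apply mul_le_mul_of_nonneg_left _ (by positivity)
      apply mul_le_mul_of_nonneg_right _ h4.le
      linarith
    · rw [if_pos hn, if_neg (fun h => h1 h.2)]
      have h2 : residueClass (1 : ZMod N) n = 0 := Set.indicator_of_notMem (by exact h1) _
      rw [h2]
      simp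
  · rw [if_neg hn, if_neg (fun h => hn h.1)]
    simp

open ArithmeticFunction vonMangoldt in
/-- **the sum of the inverses of the primes `≡ 1 (mod N)` diverges** -/
theorem not_summable_gInv (N : ℕ) [NeZero N] : ¬ Summable (gInv N) := by
  intro H
  set G : ℕ → ℝ := fun j => ∑' n, gInv N n * (n : ℝ) ^ (-((1 / 2 : ℝ) ^ j)) with hG
  have hδ : ∀ j : ℕ, (0 : ℝ) < (1 / 2 : ℝ) ^ j := fun j => by positivity
  have hle : ∀ (j n : ℕ), gInv N n * (n : ℝ) ^ (-((1 / 2 : ℝ) ^ j)) ≤ gInv N n := by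
    intro j n
    rcases Nat.eq_zero_or_pos n with rfl | hn
    · unfold gInv
      simp [Nat.not_prime_zero]
    · have h1 : (n : ℝ) ^ (-((1 / 2 : ℝ) ^ j)) ≤ 1 :=
        Real.rpow_le_one_of_one_le_of_nonpos (by exact_mod_cast hn) (by linarith [hδ j])
      calc gInv N n * (n : ℝ) ^ (-((1 / 2 : ℝ) ^ j)) ≤ gInv N n * 1 :=
            mul_le_mul_of_nonneg_left h1 (gInv_nonneg N n)
        _ = gInv N n := mul_one _
  have hnn : ∀ (j n : ℕ), 0 ≤ gInv N n * (n : ℝ) ^ (-((1 / 2 : ℝ) ^ j)) := fun j n =>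
    mul_nonneg (gInv_nonneg N n) (Real.rpow_nonneg (Nat.cast_nonneg n) _)
  have hsum : ∀ j : ℕ, Summable fun n : ℕ => gInv N n * (n : ℝ) ^ (-((1 / 2 : ℝ) ^ j)) :=
    fun j => Summable.of_nonneg_of_le (hnn j) (hle j) H
  have hGle : ∀ j, G j ≤ ∑' n, gInv N n := fun j =>
    Summable.tsum_le_tsum (hle j) (hsum j) H
  -- the lower bound
  obtain ⟨C, hC⟩ := LSeries_residueClass_lower_bound (q := N) (a := 1) isUnit_one
  have hsN := summable_residueClass_non_primes_div (1 : ZMod N)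
  set B : ℝ := ∑' n : ℕ, (if n.Prime then 0 else residueClass (1 : ZMod N) n) / (n : ℝ) with hB
  have hstep : ∀ j : ℕ, (N.totient : ℝ)⁻¹ - (C + B) * (1 / 2 : ℝ) ^ j ≤ 2 * (G (j + 1) - G j) := by
    intro j
    set δ : ℝ := (1 / 2 : ℝ) ^ j with hδd
    have hδ0 : 0 < δ := hδ j
    have hδ1 : δ ≤ 1 := pow_le_one₀ (by norm_num) (by norm_num)
    have hx : (1 + δ) ∈ Set.Ioc (1 : ℝ) 2 := ⟨by linarith, by linarith⟩
    have h1 := hC hx
    have hs1 : Summable fun n : ℕ => residueClass (1 : ZMod N) n / (n : ℝ) ^ (1 + δ) :=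
      LSeries.summable_real_of_abscissaOfAbsConv_lt <|
        (abscissaOfAbsConv_residueClass_le_one (1 : ZMod N)).trans_lt <| mod_cast hx.1
    have hsP : Summable fun n : ℕ =>
        (if n.Prime then residueClass (1 : ZMod N) n else 0) / (n : ℝ) ^ (1 + δ) := by
      refine Summable.of_nonneg_of_le (fun n => ?_) (fun n => ?_) hs1
      · split_ifs
        · exact div_nonneg (residueClass_nonneg _ n) (Real.rpow_nonneg (Nat.cast_nonneg n) _)
        · simp
      · split_ifs
        · exact le_rfl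
        · rw [zero_div]
          exact div_nonneg (residueClass_nonneg _ n) (Real.rpow_nonneg (Nat.cast_nonneg n) _)
    have hsN' : Summable fun n : ℕ =>
        (if n.Prime then 0 else residueClass (1 : ZMod N) n) / (n : ℝ) ^ (1 + δ) := by
      refine Summable.of_nonneg_of_le (fun n => ?_) (fun n => ?_) hs1
      · split_ifs
        · simp
        · exact div_nonneg (residueClass_nonneg _ n) (Real.rpow_nonneg (Nat.cast_nonneg n) _)
      · split_ifs
        · rw [zero_div]
          exact div_nonneg (residueClass_nonneg _ n) (Real.rpow_nonneg (Nat.cast_nonneg n) _)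
        · exact le_rfl
    have h2 : ∑' n, residueClass (1 : ZMod N) n / (n : ℝ) ^ (1 + δ) =
        ∑' n : ℕ, (if n.Prime then residueClass (1 : ZMod N) n else 0) / (n : ℝ) ^ (1 + δ) +
        ∑' n : ℕ, (if n.Prime then 0 else residueClass (1 : ZMod N) n) / (n : ℝ) ^ (1 + δ) := by
      rw [← hsP.tsum_add hsN']
      refine tsum_congr fun n => ?_
      split_ifs <;> ring
    have h3 : ∑' n : ℕ, (if n.Prime then 0 else residueClass (1 : ZMod N) n) / (n : ℝ) ^ (1 + δ) ≤
        B := by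
      refine Summable.tsum_le_tsum (fun n => ?_) hsN' hsN
      split_ifs
      · simp
      · rcases Nat.eq_zero_or_pos n with rfl | hn
        · simp
        · refine div_le_div_of_nonneg_left (residueClass_nonneg _ n) (by exact_mod_cast hn) ?_
          conv_lhs => rw [← Real.rpow_one (n : ℝ)]
          exact Real.rpow_le_rpow_of_exponent_le (by exact_mod_cast hn) (by linarith)
    have h4 : δ * ∑' n : ℕ, (if n.Prime then residueClass (1 : ZMod N) n else 0) /
        (n : ℝ) ^ (1 + δ) ≤ 2 * (G (j + 1) - G j) := by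
      rw [hG]
      simp only
      rw [← (hsum (j + 1)).tsum_sub (hsum j), ← tsum_mul_left, ← tsum_mul_left]
      refine Summable.tsum_le_tsum (fun n => ?_) (hsP.mul_left δ)
        (((hsum (j + 1)).sub (hsum j)).mul_left 2)
      have h5 := rc_le N n hδ0
      have h6 : (1 / 2 : ℝ) ^ (j + 1) = δ / 2 := by
        rw [pow_succ, hδd]
        ring
      rw [h6]
      exact h5
    have h5 : (N.totient : ℝ)⁻¹ / (1 + δ - 1) = (N.totient : ℝ)⁻¹ / δ := by
      congr 1
      ring
    rw [h5, h2] at h1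
    have h6 : (N.totient : ℝ)⁻¹ / δ - C - B ≤
        ∑' n : ℕ, (if n.Prime then residueClass (1 : ZMod N) n else 0) / (n : ℝ) ^ (1 + δ) := by
      linarith
    have h7 := mul_le_mul_of_nonneg_left h6 hδ0.le
    have h8 : δ * ((N.totient : ℝ)⁻¹ / δ - C - B) = (N.totient : ℝ)⁻¹ - (C + B) * δ := by
      field_simp
      ring
    rw [h8] at h7
    exact h7.trans h4
  -- the contradiction
  set c : ℝ := (N.totient : ℝ)⁻¹ with hc
  have hcpos : 0 < c := inv_pos.mpr (mod_cast N.totient.pos_of_neZero)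
  have hlim : Tendsto (fun j : ℕ => (C + B) * (1 / 2 : ℝ) ^ j) atTop (𝓝 ((C + B) * 0)) :=
    (tendsto_pow_atTop_nhds_zero_of_lt_one (by norm_num) (by norm_num)).const_mul _
  rw [mul_zero] at hlim
  obtain ⟨j0, hj0⟩ := (hlim.eventually (gt_mem_nhds (half_pos hcpos))).exists_forall_of_atTop
  have hinc : ∀ k : ℕ, G j0 + k * (c / 4) ≤ G (j0 + k) := by
    intro k
    induction k with
    | zero => simp
    | succ k ih =>
      have h1 := hstep (j0 + k)
      have h2 := hj0 (j0 + k) (Nat.le_add_right _ _)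
      have h3 : j0 + (k + 1) = j0 + k + 1 := by ring
      rw [h3]
      push_cast
      linarith
  obtain ⟨k, hk⟩ := exists_nat_gt ((∑' n, gInv N n - G j0) / (c / 4))
  rw [div_lt_iff₀ (by positivity)] at hk
  have h1 := hinc k
  have h2 := hGle (j0 + k)
  linarith

/-- the product of the factors -/
lemma coef_prod {N : ℕ} {c : ℕ → ℂ} (h1 : c 1 = 1)
    (hH : ∀ l m : ℕ, l.Prime → ¬ l ∣ N →
      c (l * m) + (if l ∣ m then (l : ℂ) * c (m / l) else 0) = c l * c m)
    (hq : ∀ q : ℕ, q.Prime → (q : ZMod N) = 1 → c q = q + 1) (F : Finset ℕ)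
    (hF : ∀ q ∈ F, q.Prime ∧ (q : ZMod N) = 1) :
    c (∏ q ∈ F, q) = ∏ q ∈ F, ((q : ℂ) + 1) := by
  induction F using Finset.induction_on with
  | empty => simpa using h1
  | insert q F hqF ih =>
    rw [Finset.prod_insert hqF, Finset.prod_insert hqF]
    obtain ⟨hqp, hq1⟩ := hF q (Finset.mem_insert_self _ _)
    have hqN : ¬ q ∣ N := by
      intro hd
      have h5 : ((q : ℕ) : ZMod q) = 1 := by
        have h6 := congrArg (ZMod.castHom hd (ZMod q)) hq1
        rw [map_natCast, map_one] at h6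
        exact h6
      rw [ZMod.natCast_self] at h5
      have : Fact (1 < q) := ⟨hqp.one_lt⟩
      exact zero_ne_one h5
    have hnd : ¬ q ∣ ∏ r ∈ F, r := by
      intro hd
      obtain ⟨r, hr, hd'⟩ := (Prime.dvd_finsetProd_iff hqp.prime _).1 hd
      have h5 := (Nat.prime_dvd_prime_iff_eq hqp (hF r (Finset.mem_insert_of_mem hr)).1).1 hd'
      rw [h5] at hqF
      exact hqF hr
    have h2 := hH q (∏ r ∈ F, r) hqp hqN
    rw [if_neg hnd, add_zero] at h2
    rw [h2, ih fun r hr => hF r (Finset.mem_insert_of_mem hr), hq q hqp hq1]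

/-- **the auxiliary prime** -/
theorem exists_aux (N : ℕ) [NeZero N] {c : ℕ → ℂ} (h1 : c 1 = 1)
    (hH : ∀ l m : ℕ, l.Prime → ¬ l ∣ N →
      c (l * m) + (if l ∣ m then (l : ℂ) * c (m / l) else 0) = c l * c m)
    {C : ℝ} (hC : ∀ n : ℕ, ‖c n‖ ≤ C * n) :
    ∃ q : ℕ, q.Prime ∧ (q : ZMod N) = 1 ∧ c q ≠ q + 1 := by
  by_contra hcon
  push Not at hcon
  apply not_summable_gInv N
  refine summable_of_sum_le (c := C) (gInv_nonneg N) fun u => ?_
  set F : Finset ℕ := u.filter (fun n => n.Prime ∧ (n : ZMod N) = 1) with hFd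
  have hF : ∀ q ∈ F, q.Prime ∧ (q : ZMod N) = 1 := fun q hq => (Finset.mem_filter.1 hq).2
  have h2 : ∑ n ∈ u, gInv N n = ∑ q ∈ F, 1 / (q : ℝ) := by
    rw [hFd, Finset.sum_filter]
    rfl
  have h3 := coef_prod h1 hH hcon F hF
  have h4 := hC (∏ q ∈ F, q)
  have h5 : ‖∏ q ∈ F, ((q : ℂ) + 1)‖ = ∏ q ∈ F, ((q : ℝ) + 1) := by
    rw [norm_prod]
    refine Finset.prod_congr rfl fun q _ => ?_
    have : ((q : ℂ) + 1) = ((q + 1 : ℕ) : ℂ) := by push_cast; ring
    rw [this, Complex.norm_natCast]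
    push_cast
    ring
  rw [h3, h5] at h4
  have hpos : (0 : ℝ) < ∏ q ∈ F, (q : ℝ) :=
    Finset.prod_pos fun q hq => by exact_mod_cast (hF q hq).1.pos
  have h6 : ∏ q ∈ F, ((q : ℝ) + 1) = (∏ q ∈ F, (q : ℝ)) * ∏ q ∈ F, (1 + 1 / (q : ℝ)) := by
    rw [← Finset.prod_mul_distrib]
    refine Finset.prod_congr rfl fun q hq => ?_
    have : (q : ℝ) ≠ 0 := by exact_mod_cast (hF q hq).1.ne_zero
    field_simp
  rw [h6] at h4
  push_cast at h4
  have h7 : ∏ q ∈ F, (1 + 1 / (q : ℝ)) ≤ C := by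
    have h8 : (∏ q ∈ F, (q : ℝ)) * ∏ q ∈ F, (1 + 1 / (q : ℝ)) ≤ (∏ q ∈ F, (q : ℝ)) * C := by
      linarith
    exact le_of_mul_le_mul_left h8 hpos
  rw [h2]
  refine le_trans ?_ h7
  have h8 : ∀ T : Finset ℕ, ∑ q ∈ T, 1 / (q : ℝ) + 1 ≤ ∏ q ∈ T, (1 + 1 / (q : ℝ)) := by
    intro T
    induction T using Finset.induction_on with
    | empty => simp
    | insert q T hqT ih =>
      rw [Finset.sum_insert hqT, Finset.prod_insert hqT]
      have h9 : (0 : ℝ) ≤ 1 / q := by positivity
      have h10 : (0 : ℝ) ≤ ∑ q ∈ T, 1 / (q : ℝ) := Finset.sum_nonneg fun i _ => by positivity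
      nlinarith
  linarith [h8 F]

end Pool.Agent.H503.MG
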