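import Pool.Agent.H503.MG.Kfun

/-!
# The main theorem at good ordinary primes
-/

set_option autoImplicit false
set_option linter.unusedSectionVars false

open Complex UpperHalfPlane MatrixGroups CongruenceSubgroup Filter Topology ModularForm

namespace Pool.Agent.H503.MG

open Pool.Agent.H503.TA Pool.Agent.H503.MU Pool.Agent.H503.MB

variable {p N : ℕ} [NeZero N]
variable (f : CuspForm (Gamma0 N : Subgroup (GL (Fin 2) ℝ)) 2)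

/-- if `p` divides all differences of `k`, then the symbol is constant modulo `p D` -/
theorem const_of_k1 (hpN : ¬ p ∣ N) {e w : ℕ} (h : GoodW p e w) (t : ℕ)
    [NeZero (p ^ (t + 1 + e))] {s Ω : ℂ} (hΩ0 : Ω ≠ 0)
    {K : ℚ × ℚ → ℤ} {D : ℤ} (hD : D ≠ 0) (hKs : IsIntSym1 N D K)
    (hK : ∀ z, ((D : ℤ) : ℂ) * PhiC f s z = K z * Ω)
    {k : (ZMod (p ^ (t + 1 + e)))ˣ → ℤ} (hk : IsKf f s Ω p (t + 1 + e) k)
    (hall : ∀ b : (ZMod (p ^ (t + 1 + e)))ˣ, (p : ℤ) ∣ k (b * gW h (t + 1) ^ (p ^ t)) - k b) :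
    ConstD p D K (t + e) := by
  have hpp : Prime (p : ℤ) := Nat.prime_iff_prime_int.1 h.prime
  have hte : t + e + 1 = t + 1 + e := by ring
  have hte' : t + 1 + e - 1 = t + e := by omega
  have hDk : ∀ u v : (ZMod (p ^ (t + 1 + e)))ˣ, ((p : ℤ) ^ (t + e)) ∣
      (((v : ZMod (p ^ (t + 1 + e))).val : ℕ) : ℤ) - (((u : ZMod (p ^ (t + 1 + e))).val : ℕ) : ℤ) →
      D * (k v - k u) =
      K (((v : ZMod (p ^ (t + 1 + e))).val : ℚ), (p : ℚ) ^ (t + e + 1)) -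
        K (((u : ZMod (p ^ (t + 1 + e))).val : ℚ), (p : ℚ) ^ (t + e + 1)) := by
    intro u v huv
    rw [← hte'] at huv
    have h0 := hk.1 u v huv
    unfold Fu at h0
    have h1 : ((D * (k v - k u) : ℤ) : ℂ) * Ω =
        ((K (((v : ZMod (p ^ (t + 1 + e))).val : ℚ), (p : ℚ) ^ (t + e + 1)) -
        K (((u : ZMod (p ^ (t + 1 + e))).val : ℚ), (p : ℚ) ^ (t + e + 1)) : ℤ) : ℂ) * Ω := by
      rw [hte]
      push_cast at h0 ⊢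
      linear_combination (-(D : ℂ)) * h0 +
        hK (((v : ZMod (p ^ (t + 1 + e))).val : ℚ), (p : ℚ) ^ (t + 1 + e)) -
        hK (((u : ZMod (p ^ (t + 1 + e))).val : ℚ), (p : ℚ) ^ (t + 1 + e))
    exact_mod_cast mul_right_cancel₀ hΩ0 h1
  -- the value at an integer
  have hval : ∀ a : ℤ, ¬ (p : ℤ) ∣ a → ∃ u : (ZMod (p ^ (t + 1 + e)))ˣ,
      (((p : ℤ) ^ (t + 1 + e)) ∣ ((u : ZMod (p ^ (t + 1 + e))).val : ℤ) - a) ∧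
      K ((a : ℚ), (p : ℚ) ^ (t + e + 1)) =
        K (((u : ZMod (p ^ (t + 1 + e))).val : ℚ), (p : ℚ) ^ (t + e + 1)) := by
    intro a ha
    have hu : IsUnit ((a : ℤ) : ZMod (p ^ (t + 1 + e))) := by
      rw [ZMod.coe_int_isUnit_iff_isCoprime]
      push_cast
      exact (hpp.coprime_iff_not_dvd.2 ha).pow_left
    obtain ⟨u, hu⟩ := hu
    have hd : ((p : ℤ) ^ (t + 1 + e)) ∣ ((u : ZMod (p ^ (t + 1 + e))).val : ℤ) - a := by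
      have h1 : ((((u : ZMod (p ^ (t + 1 + e))).val : ℤ) - a : ℤ) : ZMod (p ^ (t + 1 + e))) = 0 := by
        push_cast
        rw [ZMod.natCast_zmod_val, hu, sub_self]
      rw [ZMod.intCast_zmod_eq_zero_iff_dvd] at h1
      push_cast at h1
      exact h1
    refine ⟨u, hd, ?_⟩
    have h2 := K_congr1 hKs (p := p) (n := t + e + 1) (a := a)
      (a' := ((u : ZMod (p ^ (t + 1 + e))).val : ℤ)) (by rw [hte]; exact hd)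
    push_cast at h2
    exact h2.symm
  intro a a' ha ha' haa
  obtain ⟨u, hu, hKu⟩ := hval a ha
  obtain ⟨v, hv, hKv⟩ := hval a' ha'
  have hdd : ((p : ℤ) ^ (t + e)) ∣ ((v : ZMod (p ^ (t + 1 + e))).val : ℤ) -
      ((u : ZMod (p ^ (t + 1 + e))).val : ℤ) := by
    have h1 : (p : ℤ) ^ (t + e) ∣ (p : ℤ) ^ (t + 1 + e) := pow_dvd_pow _ (by omega)
    have h2 := dvd_add (dvd_sub (h1.trans hv) (h1.trans hu)) haa
    have h3 : ((v : ZMod (p ^ (t + 1 + e))).val : ℤ) - ((u : ZMod (p ^ (t + 1 + e))).val : ℤ) =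
        ((v : ZMod (p ^ (t + 1 + e))).val : ℤ) - a' - (((u : ZMod (p ^ (t + 1 + e))).val : ℤ) - a) +
        (a' - a) := by ring
    rw [h3]
    exact h2
  have h4 := hDk u v hdd
  obtain ⟨j, hj⟩ := wild_kernel h t hdd
  have h3 := wild_iter h t hall u j
  rw [← hj] at h3
  rw [← hKu, ← hKv] at h4
  -- divisibility by `D`
  obtain ⟨x, hx⟩ := K_cusp1 hKs h.prime hpN ha ha' (t + e + 1)
  rw [hx] at h4 ⊢
  have h7 : k v - k u = x := mul_left_cancel₀ hD h4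
  rw [h7] at h3
  rw [mul_comm (p : ℤ)]
  exact mul_dvd_mul_left _ h3

theorem core1 {e w : ℕ} (h : GoodW p e w)
    (hpN : ¬ p ∣ N) (hreal : ∀ n, (coef f n).im = 0) {s : ℂ} (hs : s = 1 ∨ s = -1) {Ω : ℂ}
    (hΩ0 : Ω ≠ 0)
    (hΩ : ∀ w : ℂ, (∃ c, IsPer1 f c ∧ w = c + s * (starRingEnd ℂ) c) ↔ ∃ k : ℤ, w = k * Ω)
    {cp : ℤ} (hTp : HeckeAt f p cp) (hcp : ¬ (p : ℤ) ∣ cp)
    {q : ℕ} (hq : q.Prime) (hq1 : (N : ℤ) ∣ q - 1) {cq : ℤ} (hTq : HeckeAt f q cq)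
    (hcq : cq ≠ q + 1) :
    ∃ t₀ : ℕ, ∀ t ≥ t₀, ∃ k : (ZMod (p ^ (t + 1 + e)))ˣ → ℤ,
      (∀ [NeZero (p ^ (t + 1 + e))] (χ : DirichletCharacter ℂ (p ^ (t + 1 + e))), χ.IsPrimitive →
        χ (-1) = s → SchiB f χ = Ω * Lh k χ) ∧
      ∀ [NeZero (p ^ (t + 1 + e))] (ζ : ℂ), IsPrimitiveRoot ζ (p ^ (t + 1)) →
        ∃ χ : DirichletCharacter ℂ (p ^ (t + 1 + e)),
          χ (gW h (t + 1) : ZMod (p ^ (t + 1 + e))) * ζ = 1 ∧ χ (-1) = s ∧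
          ∀ y : ℂ, IsIntegral ℤ y → Lh k χ ≠ p * y := by
  have hpf : Fact p.Prime := ⟨h.prime⟩
  obtain ⟨K, hK, hKs⟩ := exists_K1 (s := s) f hΩ0 hΩ hq hq1 hTq
  have hD : (cq - (q + 1) : ℤ) ≠ 0 := by
    intro h0
    apply hcq
    linarith
  have hKp : KHecke K p cp := fun x y => K_hecke f hΩ0 hK h.prime.pos hTp x y
  obtain ⟨n₀, hn₀⟩ := not_constD1 hKs h.prime hpN (NeZero.ne N) hD hKp hcp
  refine ⟨n₀, fun t ht => ?_⟩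
  have hM0 : NeZero (p ^ (t + 1 + e)) := ⟨pow_ne_zero _ h.prime.ne_zero⟩
  obtain ⟨k, hk⟩ := exists_kf f h hpN t hreal hs hΩ0 hΩ
  refine ⟨k, fun χ hχ1 hχ => hk.2.2 χ hχ1 hχ, fun ζ hζ => ?_⟩
  by_contra hcon
  push Not at hcon
  apply hn₀ (t + e) (by omega)
  refine const_of_k1 f hpN h t hΩ0 hD hKs hK hk fun b => ?_
  exact wild_dvd h t hs hk.2.1 hζ (fun χ h1 h2 => hcon χ h1 h2) b

/-- the conclusion -/
def MuZeroC {N : ℕ} (f : CuspForm (Gamma0 N : Subgroup (GL (Fin 2) ℝ)) 2) (p : ℕ) (s Ω : ℂ) :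
    Prop :=
  ∃ n₀ : ℕ, ∀ n ≥ n₀,
      (∃ χ : DirichletCharacter ℂ (p ^ n), χ.IsPrimitive ∧ χ (-1) = s ∧
        ∃ l : integralClosure ℤ ℂ, AlgPart (coef f) Ω χ l ∧ ¬ (p : integralClosure ℤ ℂ) ∣ l) ∧
      (p = 2 ∨ p = 3 → ∀ χ : DirichletCharacter ℂ (p ^ n), χ.IsPrimitive → χ (-1) = s →
        ∃ l : integralClosure ℤ ℂ, AlgPart (coef f) Ω χ l ∧ ¬ (p : integralClosure ℤ ℂ) ∣ l)

theorem final1 (hp : p.Prime) (hpN : ¬ p ∣ N)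
    (hreal : ∀ n, (coef f n).im = 0) {s : ℂ} (hs : s = 1 ∨ s = -1) {Ω : ℂ} (hΩ0 : Ω ≠ 0)
    (hΩ : ∀ w : ℂ, (∃ c, IsPer1 f c ∧ w = c + s * (starRingEnd ℂ) c) ↔ ∃ k : ℤ, w = k * Ω)
    {cp : ℤ} (hTp : HeckeAt f p cp) (hcp : ¬ (p : ℤ) ∣ cp)
    {q : ℕ} (hq : q.Prime) (hq1 : (N : ℤ) ∣ q - 1) {cq : ℤ} (hTq : HeckeAt f q cq)
    (hcq : cq ≠ q + 1) : MuZeroC f p s Ω := by
  have key : ∀ (e w : ℕ) (h : GoodW p e w)
      (hg : p = 2 ∨ p = 3 → Good p e), MuZeroC f p s Ω := by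
    intro e w h hg
    obtain ⟨t₀, ht₀⟩ := core1 f h hpN hreal hs hΩ0 hΩ hTp hcp hq hq1 hTq hcq
    refine ⟨t₀ + 1 + e, fun n hn => ?_⟩
    obtain ⟨t, rfl⟩ : ∃ t, n = t + 1 + e := ⟨n - 1 - e, by omega⟩
    have hM0 : NeZero (p ^ (t + 1 + e)) := ⟨pow_ne_zero _ h.prime.ne_zero⟩
    have hM1 : 1 < p ^ (t + 1 + e) := Nat.one_lt_pow (by omega) h.prime.one_lt
    obtain ⟨k, hk1, hk2⟩ := ht₀ t (by omega)
    have hout : ∀ χ : DirichletCharacter ℂ (p ^ (t + 1 + e)), χ.IsPrimitive → χ (-1) = s →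
        (∀ y : ℂ, IsIntegral ℤ y → Lh k χ ≠ p * y) →
        ∃ l : integralClosure ℤ ℂ, AlgPart (coef f) Ω χ l ∧
          ¬ (p : integralClosure ℤ ℂ) ∣ l := by
      intro χ hχ hχs hnd
      refine ⟨⟨Lh k χ, Lh_integral k χ⟩, algPart_of f hM1 hχ (fun _ => hk1 χ hχ hχs), ?_⟩
      rintro ⟨y, hy⟩
      refine hnd y y.2 ?_
      have := congrArg (fun z : integralClosure ℤ ℂ => (z : ℂ)) hy
      simpa using this
    constructor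
    · have hpos : p ^ (t + 1) ≠ 0 := pow_ne_zero _ h.prime.ne_zero
      have hζ := Complex.isPrimitiveRoot_exp (p ^ (t + 1)) hpos
      obtain ⟨χ, hχ1, hχs, hnd⟩ := hk2 _ hζ
      have hpr := primitive_of_wild h t hζ hχ1
      exact ⟨χ, hpr, hχs, hout χ hpr hχs hnd⟩
    · intro hp23 χ hχ hχs
      have hgood := hg hp23
      have hprim := primitive_g hgood t χ hχ
      have hζ : IsPrimitiveRoot (χ (1 + p ^ e : ZMod (p ^ (t + 1 + e))))⁻¹ (p ^ (t + 1)) := hprim.inv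
      obtain ⟨χ', hχ1, hχs', hnd⟩ := hk2 _ hζ
      have hne : χ (1 + p ^ e : ZMod (p ^ (t + 1 + e))) ≠ 0 :=
        hprim.ne_zero (pow_ne_zero _ h.prime.ne_zero)
      have heq : χ' = χ := by
        refine char_ext hgood h (t + 1) ?_ (hχs'.trans hχs.symm)
        rw [gW_val] at hχ1 ⊢
        field_simp at hχ1
        exact hχ1
      rw [heq] at hnd
      exact hout χ hχ hχs hnd
  rcases hp.eq_two_or_odd with h2 | hodd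
  · subst h2
    exact key 2 1 goodW_two (fun _ => good_two)
  · have hne : p ≠ 2 := by rintro rfl; simp at hodd
    refine key 1 _ (goodW_odd hp hne) ?_
    rintro (h2 | h3)
    · exact absurd h2 hne
    · subst h3
      exact good_three

/-- passing to the periods of `Γ₀(N)` -/
lemma algPart_mul {M : ℕ} {c : ℕ → ℂ} {Ω : ℂ} {m : ℤ} {χ : DirichletCharacter ℂ M}
    {l : integralClosure ℤ ℂ} (h : AlgPart c (m * Ω) χ l) : AlgPart c Ω χ (m • l) := by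
  obtain ⟨h1, L, h2, h3, h4⟩ := h
  refine ⟨?_, L, h2, h3, ?_⟩
  · have e1 : ((m • l : integralClosure ℤ ℂ) : ℂ) = m • (l : ℂ) := rfl
    rw [e1]
    exact Subalgebra.smul_mem _ h1 m
  · rw [h4]
    have e1 : ((m • l : integralClosure ℤ ℂ) : ℂ) = m • (l : ℂ) := rfl
    rw [e1, zsmul_eq_mul]
    ring

lemma not_dvd_smul {p : ℕ} (hp : p.Prime) {m : ℤ} (hm : ¬ (p : ℤ) ∣ m) {l : integralClosure ℤ ℂ}
    (hl : ¬ (p : integralClosure ℤ ℂ) ∣ l) : ¬ (p : integralClosure ℤ ℂ) ∣ m • l := by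
  intro h
  apply hl
  have hpp : Prime (p : ℤ) := Nat.prime_iff_prime_int.1 hp
  obtain ⟨x, y, hxy⟩ := hpp.coprime_iff_not_dvd.2 hm
  have h1 : l = (p : integralClosure ℤ ℂ) * (x • l) + y • (m • l) := by
    have h2 : l = (1 : ℤ) • l := (one_zsmul l).symm
    conv_lhs => rw [h2, ← hxy]
    rw [add_smul, mul_smul, mul_smul, smul_comm x (p : ℤ) l]
    congr 1
    rw [zsmul_eq_mul (x • l) (p : ℤ)]
    push_cast
    rfl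
  rw [h1]
  refine dvd_add (dvd_mul_right _ _) ?_
  rw [zsmul_eq_mul (m • l) y]
  exact h.mul_left _

lemma muZeroC_mul {s Ω : ℂ} (hp : p.Prime) {m : ℤ} (hm : ¬ (p : ℤ) ∣ m)
    (h : MuZeroC f p s (m * Ω)) : MuZeroC f p s Ω := by
  obtain ⟨n₀, hn₀⟩ := h
  refine ⟨n₀, fun n hn => ⟨?_, ?_⟩⟩
  · obtain ⟨χ, h1, h2, l, h3, h4⟩ := (hn₀ n hn).1
    exact ⟨χ, h1, h2, m • l, algPart_mul h3, not_dvd_smul hp hm h4⟩
  · intro h23 χ h1 h2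
    obtain ⟨l, h3, h4⟩ := (hn₀ n hn).2 h23 χ h1 h2
    exact ⟨m • l, algPart_mul h3, not_dvd_smul hp hm h4⟩

/-- the periods for a subgroup -/
def IsPerG {N : ℕ} (f : CuspForm (Gamma0 N : Subgroup (GL (Fin 2) ℝ)) 2) (Γ : Subgroup SL(2, ℤ))
    (c : ℂ) : Prop :=
  ∃ γ ∈ Γ, ∀ τ : ℍ, prim f ((γ • τ : ℍ) : ℂ) = prim f (τ : ℂ) + c

/-- the generator for a subgroup between `Γ₁(N)` and `Γ₀(N)` -/
theorem exists_generatorG {Γ : Subgroup SL(2, ℤ)} (h1 : Gamma1 N ≤ Γ) (h0 : Γ ≤ Gamma0 N) {s : ℂ}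
    {Ω : ℂ} (hΩ0 : Ω ≠ 0)
    (hΩ : ∀ w : ℂ, (∃ c, IsPer f c ∧ w = c + s * (starRingEnd ℂ) c) ↔ ∃ k : ℤ, w = k * Ω)
    {Ω1 : ℂ} (hΩ10 : Ω1 ≠ 0)
    (hΩ1 : ∀ w : ℂ, (∃ c, IsPer1 f c ∧ w = c + s * (starRingEnd ℂ) c) ↔ ∃ k : ℤ, w = k * Ω1) :
    ∃ ΩG : ℂ, ΩG ≠ 0 ∧
      ∀ w : ℂ, (∃ c, IsPerG f Γ c ∧ w = c + s * (starRingEnd ℂ) c) ↔ ∃ k : ℤ, w = k * ΩG := by
  let T : AddSubgroup ℤ :=
    { carrier := {t | ∃ c, IsPerG f Γ c ∧ (t : ℂ) * Ω = c + s * (starRingEnd ℂ) c}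
      zero_mem' := ⟨0, ⟨1, Subgroup.one_mem _, fun τ => by rw [one_smul, add_zero]⟩, by simp⟩
      add_mem' := by
        rintro a b ⟨c, ⟨γ, hγ, hc⟩, h1⟩ ⟨d, ⟨δ, hδ, hd⟩, h2⟩
        refine ⟨c + d, ⟨γ * δ, Subgroup.mul_mem _ hγ hδ, fun τ => ?_⟩, ?_⟩
        · rw [mul_smul, hc, hd]
          ring
        · push_cast
          rw [add_mul, h1, h2, map_add]
          ring
      neg_mem' := by
        rintro a ⟨c, ⟨γ, hγ, hc⟩, h1⟩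
        refine ⟨-c, ⟨γ⁻¹, Subgroup.inv_mem _ hγ, fun τ => ?_⟩, ?_⟩
        · have h2 := hc (γ⁻¹ • τ)
          rw [smul_inv_smul] at h2
          rw [h2]
          ring
        · push_cast
          rw [neg_mul, h1, map_neg]
          ring }
  obtain ⟨t0, ht0⟩ := Int.subgroup_cyclic T
  have hTmem : ∀ t : ℤ, (∃ c, IsPerG f Γ c ∧ (t : ℂ) * Ω = c + s * (starRingEnd ℂ) c) ↔
      ∃ k : ℤ, k * t0 = t := by
    intro t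
    have h1 := AddSubgroup.mem_closure_singleton (x := t0) (y := t)
    simp only [smul_eq_mul] at h1
    rw [← h1, ← ht0]
    exact Iff.rfl
  have ht00 : t0 ≠ 0 := by
    rintro rfl
    obtain ⟨c, hc, hw⟩ := (hΩ1 Ω1).2 ⟨1, by simp⟩
    obtain ⟨m, hm⟩ := (hΩ _).1 ⟨c, hc.isPer, hw⟩
    obtain ⟨γ, hγ, hc'⟩ := hc
    obtain ⟨k, hk⟩ := (hTmem m).1 ⟨c, ⟨γ, h1 hγ, hc'⟩, by rw [← hm, hw]⟩
    rw [mul_zero] at hk
    apply hΩ10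
    rw [hm, ← hk]
    simp
  refine ⟨(t0 : ℂ) * Ω, mul_ne_zero (by exact_mod_cast ht00) hΩ0, fun w => ⟨?_, ?_⟩⟩
  · rintro ⟨c, ⟨γ, hγ, hc⟩, rfl⟩
    obtain ⟨t, ht⟩ := (hΩ _).1 ⟨c, ⟨γ, h0 hγ, hc⟩, rfl⟩
    obtain ⟨k, hk⟩ := (hTmem t).1 ⟨c, ⟨γ, hγ, hc⟩, ht.symm⟩
    refine ⟨k, ?_⟩
    rw [ht, ← hk]
    push_cast
    ring
  · rintro ⟨k, rfl⟩
    obtain ⟨c, hc, h1⟩ := (hTmem (k * t0)).2 ⟨k, rfl⟩
    refine ⟨c, hc, ?_⟩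
    rw [← h1]
    push_cast
    ring

/-- the index of the period lattices is Eisenstein -/
lemma index_dvd {Γ : Subgroup SL(2, ℤ)} (h1 : Gamma1 N ≤ Γ) {s : ℂ} {Ω Ω1 : ℂ} (hΩ0 : Ω ≠ 0)
    (hΩ : ∀ w : ℂ, (∃ c, IsPerG f Γ c ∧ w = c + s * (starRingEnd ℂ) c) ↔ ∃ k : ℤ, w = k * Ω)
    (hΩ1 : ∀ w : ℂ, (∃ c, IsPer1 f c ∧ w = c + s * (starRingEnd ℂ) c) ↔ ∃ k : ℤ, w = k * Ω1)
    {q : ℕ} (hq : q.Prime) (hq1 : (N : ℤ) ∣ q - 1) {cq : ℤ} (hTq : HeckeAt f q cq) :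
    ∃ m : ℤ, Ω1 = m * Ω ∧ m ∣ cq - (q + 1) := by
  obtain ⟨c1, ⟨γ1, hγ1, hc1⟩, hw1⟩ := (hΩ1 Ω1).2 ⟨1, by simp⟩
  obtain ⟨m, hm⟩ := (hΩ _).1 ⟨c1, ⟨γ1, h1 hγ1, hc1⟩, hw1⟩
  refine ⟨m, hm, ?_⟩
  obtain ⟨c0, ⟨γ, hγ, hc0⟩, hw⟩ := (hΩ Ω).2 ⟨1, by simp⟩
  obtain ⟨k, hk⟩ := Phi_int1 (s := s) f hΩ1 hq hq1 hTq (((γ 0 0 : ℤ) : ℚ), ((γ 1 0 : ℤ) : ℚ))
  have h2 : PsiC f (((γ 0 0 : ℤ) : ℚ), ((γ 1 0 : ℤ) : ℚ)) = c0 := by
    have h3 := PsiC_inv f hc0 (x := 1) (y := 0) (by simp)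
    rw [PsiC_inf, zero_add] at h3
    rw [← h3]
    congr 2 <;> ring
  unfold PhiC at hk
  rw [h2, ← hw, hm, ← mul_assoc] at hk
  have h3 := mul_right_cancel₀ hΩ0 hk
  refine ⟨k, ?_⟩
  have h4 : ((cq - (q + 1) : ℤ) : ℂ) = ((m * k : ℤ) : ℂ) := by
    rw [h3]
    push_cast
    ring
  exact_mod_cast h4

end Pool.Agent.H503.MG
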