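import Pool.Agent.H503.MG.Mul

/-!
# All values on the orbit of infinity under `Γ₁(N)` vanish
-/

set_option autoImplicit false
set_option linter.unusedSectionVars false

namespace Pool.Agent.H503.MG

variable {R : Type*} [CommRing R]

section
variable {N p U : ℕ} (hp : p.Prime) {Ψ : ℚ × ℚ → R} (hΨ : IsT N p U Ψ)
variable (hU : ∃ K : ℕ, U = p ^ (K + 1))

include hp hΨ hU in
/-- multiplicativity by the square of a prime -/
theorem mul_sq (hN : N ≠ 0) {μ : ℕ} (hμ : μ.Prime) (hμp : μ ≠ p) (hμN : (N : ℤ) ∣ μ - 1)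
    (hμU : ¬ (μ : ℤ) ∣ (U : ℤ) ^ (2 * N) - 1) {a g g' : ℤ}
    (h : IsCoprime a (N * μ * g)) (h' : IsCoprime a (N * μ * g')) :
    E Ψ a (μ ^ 2 * (N * μ * g')) - E Ψ a (N * μ * g') =
      E Ψ a (μ ^ 2 * (N * μ * g)) - E Ψ a (N * μ * g) := by
  have hμa : IsCoprime a (μ : ℤ) := IsCoprime.of_isCoprime_of_dvd_right h ⟨N * g, by ring⟩
  obtain ⟨d, b', hbd⟩ := hμa.pow_right (n := 2) |>.mul_right h
  set b : ℤ := -b' with hb
  set e : ℤ := N * μ * g' - N * μ * g with he
  have hdet1 : a * d - b * (μ ^ 2 * (N * μ * g)) = 1 := by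
    rw [hb]
    linear_combination hbd
  have hdet2 : a * d - μ ^ 2 * b * (N * μ * g) = 1 := by linear_combination hdet1
  have hN1 : (N : ℤ) ∣ μ ^ 2 * (N * μ * g) := ⟨μ ^ 2 * (μ * g), by ring⟩
  have hN2 : (N : ℤ) ∣ N * μ * g := ⟨μ * g, by ring⟩
  have hx1 : a * (1 - μ ^ 2 * b * e) + μ ^ 2 * b * (a * e) = a := by ring
  have hx2 : N * μ * g * (1 - μ ^ 2 * b * e) + d * (a * e) = N * μ * g' := by
    rw [he]
    linear_combination (N * μ * g' - N * μ * g) * hdet2
  have hcop : IsCoprime (1 - μ ^ 2 * b * e) (a * e) := by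
    obtain ⟨u, v, huv⟩ := h'
    refine ⟨u * a + v * (N * μ * g), u * (μ ^ 2 * b) + v * d, ?_⟩
    linear_combination u * hx1 + v * hx2 + huv
  have hne : 1 - μ ^ 2 * b * e ≠ 0 ∨ a * e ≠ 0 := by
    by_contra hcon
    push Not at hcon
    rw [hcon.1, hcon.2] at hcop
    exact not_isCoprime_zero_zero hcop
  have hne' : 1 - μ ^ 2 * b * e ≠ 0 ∨ a * (μ ^ 2 * e) ≠ 0 := by
    rcases hne with h1 | h1
    · exact Or.inl h1
    · right
      intro h2
      apply h1
      have h3 : (μ : ℤ) ^ 2 * (a * e) = 0 := by linear_combination h2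
      exact (mul_eq_zero.1 h3).resolve_left (pow_ne_zero _ (by exact_mod_cast hμ.ne_zero))
  have e1 := E_mul hΨ hdet1 hN1 hne'
  have e2 := E_mul hΨ hdet2 hN2 hne
  have f1 : a * (1 - μ ^ 2 * b * e) + b * (a * (μ ^ 2 * e)) = a := by ring
  have f2 : μ ^ 2 * (N * μ * g) * (1 - μ ^ 2 * b * e) + d * (a * (μ ^ 2 * e)) =
      μ ^ 2 * (N * μ * g') := by linear_combination (μ : ℤ) ^ 2 * hx2
  rw [f1, f2] at e1
  rw [hx1, hx2] at e2
  have e3 := inv_dg hp hΨ hU hN hμ hμp hμN hμU (a := 1 - μ ^ 2 * b * e) (c2 := a * (g' - g)) (by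
    have : (N * μ * (a * (g' - g)) : ℤ) = a * e := by rw [he]; ring
    rw [this]
    exact hcop) ⟨-(μ * b * e), by ring⟩
  have f3 : (N * μ * (a * (g' - g)) : ℤ) = a * e := by rw [he]; ring
  have f4 : (μ : ℤ) ^ 2 * (a * e) = a * (μ ^ 2 * e) := by ring
  rw [f3, f4] at e3
  linear_combination e1 - e2 + e3

include hp hΨ hU in
/-- multiplicativity by squares -/
theorem F_sq (hN : N ≠ 0) {a : ℕ} (ha : a.Prime) (haN : (N : ℤ) ∣ a - 1) {v y : ℤ}
    (hv : IsCoprime v a) (hy : IsCoprime y a) :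
    E Ψ a (N * (v ^ 2 * y)) = E Ψ a (N * y) + E Ψ a (N * v ^ 2) := by
  have ha0 : (a : ℤ) ≠ 0 := by exact_mod_cast ha.ne_zero
  have hlo : ∀ y t : ℤ, E Ψ a (N * (y + a * t)) = E Ψ a (N * y) := by
    intro y t
    rw [← E_lo hΨ t (a := a) (c := N * y) (Or.inl ha0)]
    congr 1
    ring
  obtain ⟨k, hk⟩ := haN
  have haN' : IsCoprime (a : ℤ) (N : ℤ) := ⟨1, -k, by linear_combination hk⟩
  have h1 : E Ψ a (N * 1) = 0 := by
    have e1 := E_up hΨ k (a := 1) (c := N) (Or.inl one_ne_zero)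
    have e2 := E_lo hΨ 1 (a := 1) (c := 0) (Or.inl one_ne_zero)
    rw [E_inf hΨ one_ne_zero] at e2
    have f1 : (1 : ℤ) + k * N = a := by linear_combination -hk
    have f2 : (0 : ℤ) + N * 1 * 1 = N := by ring
    rw [f1] at e1
    rw [f2] at e2
    rw [mul_one, e1, e2]
  -- the prime
  have hx : IsCoprime (v + a * (1 - v)) ((a * N : ℕ) : ℤ) := by
    push_cast
    refine IsCoprime.mul_right ?_ ?_
    · exact IsCoprime.add_mul_left_left hv _
    · have : v + a * (1 - v) = 1 + N * (k * (1 - v)) := by linear_combination (1 - v) * hk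
      rw [this]
      exact IsCoprime.add_mul_left_left isCoprime_one_left _
  obtain ⟨μ, hμB, hμ, hμmod⟩ := Nat.forall_exists_prime_gt_and_zmodEq (max p (U ^ (2 * N)))
    (q := a * N) (mul_ne_zero ha.ne_zero hN) hx
  obtain ⟨z, hz⟩ := hμmod.symm.dvd
  push_cast at hz
  have hμN : (N : ℤ) ∣ μ - 1 := ⟨k * (1 - v) + a * z, by linear_combination hz + (1 - v) * hk⟩
  have hμa : (a : ℤ) ∣ μ - v := ⟨(1 - v) + N * z, by linear_combination hz⟩
  have hμp : μ ≠ p := by
    have := le_max_left p (U ^ (2 * N))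
    omega
  have hμU : ¬ (μ : ℤ) ∣ (U : ℤ) ^ (2 * N) - 1 := by
    intro h2
    have h3 := le_max_right p (U ^ (2 * N))
    have hU2 : 2 ≤ U := by
      obtain ⟨K, rfl⟩ := hU
      calc 2 ≤ p := hp.two_le
        _ ≤ p ^ (K + 1) := Nat.le_self_pow (Nat.succ_ne_zero K) p
    have h4 : 2 ≤ U ^ (2 * N) := hU2.trans (Nat.le_self_pow (by omega) U)
    have h5 : μ ∣ U ^ (2 * N) - 1 := by
      have h6 : ((U ^ (2 * N) - 1 : ℕ) : ℤ) = (U : ℤ) ^ (2 * N) - 1 := by
        rw [Nat.cast_sub (by omega)]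
        push_cast
        ring
      rw [← h6] at h2
      exact_mod_cast h2
    have := Nat.le_of_dvd (by omega) h5
    omega
  obtain ⟨w, hw⟩ := hμa
  have hcop : IsCoprime (a : ℤ) (μ : ℤ) := by
    have : (μ : ℤ) = v + a * w := by linear_combination hw
    rw [this]
    exact (IsCoprime.add_mul_left_left hv w).symm
  -- multiples of `μ`
  have hmult : ∀ y : ℤ, IsCoprime y a → ∃ t g : ℤ, y + a * t = μ * g ∧
      IsCoprime (a : ℤ) (N * μ * g) := by
    intro y hy
    obtain ⟨u, u', hu⟩ := hcop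
    refine ⟨-(y * u), y * u', by linear_combination (-y) * hu, ?_⟩
    have h2 : IsCoprime (a : ℤ) (μ * (y * u')) := by
      have : (μ : ℤ) * (y * u') = y + a * (-(y * u)) := by linear_combination y * hu
      rw [this]
      exact (IsCoprime.add_mul_left_left hy _).symm
    rw [mul_assoc]
    exact haN'.mul_right h2
  obtain ⟨t', g', hg', hc'⟩ := hmult y hy
  obtain ⟨t, g, hg, hc⟩ := hmult 1 isCoprime_one_left
  have hmain := mul_sq hp hΨ hU hN hμ hμp hμN hμU hc hc'
  have f1 : ∀ (y t g : ℤ), y + a * t = μ * g → E Ψ a (N * μ * g) = E Ψ a (N * y) ∧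
      E Ψ a (μ ^ 2 * (N * μ * g)) = E Ψ a (N * (v ^ 2 * y)) := by
    intro y t g hyg
    constructor
    · rw [← hlo y t, hyg]
      congr 1
      ring
    · rw [← hlo (v ^ 2 * y) ((μ + v) * w * y + μ ^ 2 * t)]
      congr 1
      linear_combination (-(N : ℤ) * μ ^ 2) * hyg + (N : ℤ) * (μ + v) * y * hw
  obtain ⟨i1, i2⟩ := f1 y t' g' hg'
  obtain ⟨j1, j2⟩ := f1 1 t g hg
  rw [i1, i2, j1, j2, h1, mul_one] at hmain
  linear_combination hmain

/-- an auxiliary group argument -/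
lemma zero_of_mul {a : ℕ} [Fact a.Prime] (w : ZMod a → R)
    (hw : ∀ v y : ZMod a, v ≠ 0 → y ≠ 0 → w (v ^ 2 * y) = w y + w (v ^ 2)) (h1 : w 1 = 0)
    {m : ℕ} (hm : 2 * m = a - 1) (hmu : IsUnit (m : R)) {y0 : ZMod a} (hy0 : ¬ IsSquare y0)
    (hwy : w y0 = 0) {x : ZMod a} (hx : x ≠ 0) : w x = 0 := by
  have hsq : ∀ v : ZMod a, v ≠ 0 → w (v ^ 2) = 0 := by
    intro v hv
    have h2 : ∀ k : ℕ, w ((v ^ 2) ^ k) = k * w (v ^ 2) := by
      intro k
      induction k with
      | zero => simp [h1]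
      | succ k ih =>
        rw [pow_succ', hw v _ hv (pow_ne_zero _ (pow_ne_zero _ hv)), ih]
        push_cast
        ring
    have h3 := h2 m
    rw [← pow_mul, hm, ZMod.pow_card_sub_one_eq_one hv, h1] at h3
    exact (hmu.mul_right_eq_zero).1 h3.symm
  by_cases hs : IsSquare x
  · obtain ⟨r, rfl⟩ := hs
    have hr : r ≠ 0 := by
      rintro rfl
      exact hx (mul_zero _)
    rw [← sq]
    exact hsq r hr
  · have hy : y0 ≠ 0 := by
      rintro rfl
      exact hy0 ⟨0, by simp⟩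
    have h2 : IsSquare (x * y0) := by
      rw [← quadraticChar_one_iff_isSquare (mul_ne_zero hx hy), map_mul,
        quadraticChar_neg_one_iff_not_isSquare.2 hs, quadraticChar_neg_one_iff_not_isSquare.2 hy0]
      norm_num
    obtain ⟨r, hr⟩ := h2
    have hr0 : r ≠ 0 := by
      rintro rfl
      rw [mul_zero] at hr
      exact mul_ne_zero hx hy hr
    have h3 : x = (r / y0) ^ 2 * y0 := by
      field_simp
      linear_combination hr
    rw [h3, hw _ _ (div_ne_zero hr0 hy) hy, hwy, hsq _ (div_ne_zero hr0 hy), add_zero]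

lemma isUnit_of_nil {m J : ℕ} (hp : p.Prime) (hnil : (p : R) ^ J = 0) (hm : ¬ p ∣ m) :
    IsUnit (m : R) := by
  have h1 : IsCoprime (m : ℤ) ((p : ℤ) ^ J) :=
    ((Nat.prime_iff_prime_int.1 hp).coprime_iff_not_dvd.2 (by exact_mod_cast hm)).symm.pow_right
  obtain ⟨u, v, huv⟩ := h1
  have h2 := congrArg (Int.cast (R := R)) huv
  push_cast at h2
  rw [hnil, mul_zero, add_zero] at h2
  exact IsUnit.of_mul_eq_one (u : R) (by rw [mul_comm]; exact h2)

include hp hΨ hU in
/-- the vanishing for a good prime `a` -/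
theorem zero_prime (hN : N ≠ 0) {J : ℕ} (hnil : (p : R) ^ J = 0) {β : R}
    (hβ : ∀ a c : ℤ, IsCoprime a c → (N : ℤ) ∣ c → ¬ (p : ℤ) ∣ a → E Ψ a (p * c) = β * E Ψ a c)
    {a : ℕ} (ha : a.Prime) (ha2 : 2 < a) (haN : (N : ℤ) ∣ a - 1) (hpa : a ≠ p)
    (h : (p = 2 ∧ a % 4 = 3) ∨ (p ≠ 2 ∧ ¬ IsSquare ((a : ℕ) : ZMod p))) {y : ℤ}
    (hy : ¬ (a : ℤ) ∣ y) : E Ψ a (N * y) = 0 := by
  have hFa : Fact a.Prime := ⟨ha⟩
  have hFp : Fact p.Prime := ⟨hp⟩
  have haP : Prime (a : ℤ) := Nat.prime_iff_prime_int.1 ha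
  have ha0 : (a : ℤ) ≠ 0 := by exact_mod_cast ha.ne_zero
  have hodd : a % 2 = 1 := by
    rcases ha.eq_two_or_odd with h1 | h1
    · omega
    · exact h1
  obtain ⟨m, hm⟩ : ∃ m, 2 * m = a - 1 := ⟨(a - 1) / 2, by omega⟩
  have hpm : ¬ p ∣ m := by
    intro h1
    rcases h with ⟨h2, h3⟩ | ⟨h2, h3⟩
    · subst h2
      obtain ⟨k, rfl⟩ := h1
      omega
    · apply h3
      obtain ⟨k, rfl⟩ := h1
      have h4 : a = p * (2 * k) + 1 := by
        have : a = 2 * (p * k) + 1 := by omega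
        rw [this]
        ring
      rw [h4]
      push_cast
      rw [ZMod.natCast_self, zero_mul, zero_add]
      exact ⟨1, by ring⟩
  -- the function on residue classes
  set w : ZMod a → R := fun x => E Ψ a (N * (x.val : ℤ)) with hw
  have hlo : ∀ y t : ℤ, E Ψ a (N * (y + a * t)) = E Ψ a (N * y) := by
    intro y t
    rw [← E_lo hΨ t (a := a) (c := N * y) (Or.inl ha0)]
    congr 1
    ring
  have hwF : ∀ y : ℤ, w (y : ZMod a) = E Ψ a (N * y) := by
    intro y
    rw [hw]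
    simp only
    rw [ZMod.val_intCast, ← hlo (y % a) (y / a), Int.emod_add_mul_ediv]
  have hcopw : ∀ x : ZMod a, x ≠ 0 → IsCoprime (x.val : ℤ) a := by
    intro x hx
    rw [isCoprime_comm]
    rw [haP.coprime_iff_not_dvd]
    intro h1
    apply hx
    have h2 : ((x.val : ℤ) : ZMod a) = 0 := (ZMod.intCast_zmod_eq_zero_iff_dvd _ _).2 h1
    push_cast at h2
    rwa [ZMod.natCast_zmod_val] at h2
  have hval : ∀ x : ZMod a, ((x.val : ℤ) : ZMod a) = x := by
    intro x
    push_cast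
    exact ZMod.natCast_zmod_val x
  have hmul : ∀ v y : ZMod a, v ≠ 0 → y ≠ 0 → w (v ^ 2 * y) = w y + w (v ^ 2) := by
    intro v y hv hy
    have h1 := F_sq hp hΨ hU hN ha haN (hcopw v hv) (hcopw y hy)
    have h2 := hwF ((v.val : ℤ) ^ 2 * (y.val : ℤ))
    have h3 := hwF ((v.val : ℤ) ^ 2)
    rw [Int.cast_mul, Int.cast_pow, hval, hval] at h2
    rw [Int.cast_pow, hval] at h3
    rw [h2, h3, h1]
  obtain ⟨k, hk⟩ := haN
  have h1 : E Ψ a (N * 1) = 0 := by
    have e1 := E_up hΨ k (a := 1) (c := N) (Or.inl one_ne_zero)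
    have e2 := E_lo hΨ 1 (a := 1) (c := 0) (Or.inl one_ne_zero)
    rw [E_inf hΨ one_ne_zero] at e2
    have f1 : (1 : ℤ) + k * N = a := by linear_combination -hk
    have f2 : (0 : ℤ) + N * 1 * 1 = N := by ring
    rw [f1] at e1
    rw [f2] at e2
    rw [mul_one, e1, e2]
  have hw1 : w 1 = 0 := by
    have := hwF 1
    rw [Int.cast_one] at this
    rw [this, h1]
  -- the nonsquare
  obtain ⟨y0, hy0, hwy⟩ : ∃ y0 : ZMod a, ¬ IsSquare y0 ∧ w y0 = 0 := by
    by_cases h4 : a % 4 = 3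
    · refine ⟨-1, ?_, ?_⟩
      · rw [ZMod.exists_sq_eq_neg_one_iff]
        exact fun h5 => h5 h4
      · have h5 := hwF (-1)
        rw [Int.cast_neg, Int.cast_one] at h5
        rw [h5]
        have e1 := E_up hΨ (-k) (a := 1) (c := -N) (Or.inl one_ne_zero)
        have e2 := E_lo hΨ (-1) (a := 1) (c := 0) (Or.inl one_ne_zero)
        rw [E_inf hΨ one_ne_zero] at e2
        have f1 : (1 : ℤ) + -k * -N = a := by linear_combination -hk
        have f2 : (0 : ℤ) + N * 1 * (-1) = -N := by ring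
        rw [f1] at e1
        rw [f2] at e2
        rw [mul_neg, mul_one, e1, e2]
    · rcases h with ⟨h5, h6⟩ | ⟨h5, h6⟩
      · exact absurd h6 h4
      · refine ⟨(p : ZMod a), ?_, ?_⟩
        · rw [ZMod.exists_sq_eq_prime_iff_of_mod_four_eq_one (by omega) h5]
          exact h6
        · have h7 := hwF (p : ℤ)
          rw [Int.cast_natCast] at h7
          rw [h7]
          have hcop : IsCoprime (a : ℤ) (N : ℤ) := ⟨1, -k, by linear_combination hk⟩
          have h8 : ¬ (p : ℤ) ∣ a := by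
            intro h9
            have h10 : p ∣ a := by exact_mod_cast h9
            exact hpa ((Nat.prime_dvd_prime_iff_eq hp ha).1 h10).symm
          have h9 := hβ a N hcop dvd_rfl h8
          rw [mul_one] at h1
          rw [mul_comm, h9, h1, mul_zero]
  have hy' : (y : ZMod a) ≠ 0 := by
    intro h2
    exact hy ((ZMod.intCast_zmod_eq_zero_iff_dvd _ _).1 h2)
  rw [← hwF y]
  exact zero_of_mul w hmul hw1 hm (isUnit_of_nil hp hnil hpm) hy0 hwy hy'

include hp hΨ hU in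
/-- **the values on the orbit of infinity under `Γ₁(N)` vanish** -/
theorem zero_of_T (hN : N ≠ 0) (hpN : ¬ p ∣ N) {J : ℕ} (hnil : (p : R) ^ J = 0) {β : R}
    (hβ : ∀ a c : ℤ, IsCoprime a c → (N : ℤ) ∣ c → ¬ (p : ℤ) ∣ a → E Ψ a (p * c) = β * E Ψ a c)
    {a c : ℤ} (hac : IsCoprime a c) (hc : (N : ℤ) ∣ c) (ha : (N : ℤ) ∣ a - 1) : E Ψ a c = 0 := by
  have hFp : Fact p.Prime := ⟨hp⟩
  have hpP : Prime (p : ℤ) := Nat.prime_iff_prime_int.1 hp
  have key : ∀ {a c : ℤ}, a ≠ 0 → IsCoprime a c → (N : ℤ) ∣ c → (N : ℤ) ∣ a - 1 → E Ψ a c = 0 := by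
    intro a c ha0 hac hc ha
    by_cases hc0 : c = 0
    · rw [hc0]
      exact E_inf hΨ ha0
    obtain ⟨c1, rfl⟩ := hc
    -- the first prime
    have hcop1 : IsCoprime c1 ((a.natAbs : ℕ) : ℤ) := by
      have h1 : IsCoprime a c1 := IsCoprime.of_isCoprime_of_dvd_right hac (dvd_mul_left _ _)
      rw [Int.natCast_natAbs]
      rcases abs_choice a with h2 | h2 <;> rw [h2]
      · exact h1.symm
      · exact h1.symm.neg_right
    obtain ⟨π, hπl, hπ, hπmod⟩ := Nat.forall_exists_prime_gt_and_zmodEq (max 2 p)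
      (q := a.natAbs) (Int.natAbs_ne_zero.2 ha0) hcop1
    obtain ⟨t, ht⟩ : ∃ t : ℤ, (π : ℤ) = c1 + a * t := by
      have h1 := hπmod.symm.dvd
      rw [Int.natCast_natAbs, abs_dvd] at h1
      obtain ⟨t, ht⟩ := h1
      exact ⟨t, by linear_combination ht⟩
    have hcop2 : IsCoprime a (N * π) := by
      refine IsCoprime.mul_right (IsCoprime.of_isCoprime_of_dvd_right hac (dvd_mul_right _ _)) ?_
      rw [ht]
      exact IsCoprime.add_mul_left_right
        (IsCoprime.of_isCoprime_of_dvd_right hac (dvd_mul_left _ _)) t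
    have h1 : E Ψ a (N * c1) = E Ψ a (N * π) := by
      rw [← E_lo hΨ t (a := a) (c := N * c1) (Or.inl ha0), ht]
      congr 1
      ring
    rw [h1]
    have hpπ : ¬ p ∣ π := by
      intro h2
      have h3 := (Nat.prime_dvd_prime_iff_eq hp hπ).1 h2
      have := le_max_right 2 p
      omega
    have hpNπ : ¬ p ∣ N * π := fun h2 => (hp.dvd_mul.1 h2).elim hpN hpπ
    -- the modulus
    obtain ⟨M, r, hMr, hM0, hcopM, hM⟩ : ∃ (M : ℕ) (r : ℤ), IsCoprime r M ∧ M ≠ 0 ∧
        IsCoprime ((N * π : ℕ) : ℤ) (M : ℤ) ∧ ∀ a' : ℕ, (a' : ℤ) ≡ r [ZMOD M] →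
          (p = 2 ∧ a' % 4 = 3) ∨ (p ≠ 2 ∧ ¬ IsSquare ((a' : ℕ) : ZMod p)) := by
      by_cases hp2 : p = 2
      · refine ⟨4, 3, ⟨-1, 1, by norm_num⟩, by norm_num, ?_, fun a' h2 => Or.inl ⟨hp2, ?_⟩⟩
        · rw [Nat.isCoprime_iff_coprime]
          have h3 : Nat.Coprime (N * π) 2 := by
            rw [Nat.coprime_comm, Nat.Prime.coprime_iff_not_dvd Nat.prime_two, ← hp2]
            exact hpNπ
          exact Nat.Coprime.pow_right 2 h3
        · unfold Int.ModEq at h2
          omega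
      · obtain ⟨x, hx⟩ : ∃ x : ZMod p, ¬ IsSquare x := by
          have : ringChar (ZMod p) ≠ 2 := by
            rw [ZMod.ringChar_zmod_n]
            exact hp2
          exact FiniteField.exists_nonsquare this
        have hx0 : x ≠ 0 := by
          rintro rfl
          exact hx ⟨0, by simp⟩
        refine ⟨p, (x.val : ℤ), ?_, hp.ne_zero, ?_, fun a' h2 => Or.inr ⟨hp2, ?_⟩⟩
        · rw [isCoprime_comm, hpP.coprime_iff_not_dvd]
          intro h3
          apply hx0
          have h4 : ((x.val : ℤ) : ZMod p) = 0 := (ZMod.intCast_zmod_eq_zero_iff_dvd _ _).2 h3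
          push_cast at h4
          rwa [ZMod.natCast_zmod_val] at h4
        · rw [Nat.isCoprime_iff_coprime, Nat.coprime_comm, Nat.Prime.coprime_iff_not_dvd hp]
          exact hpNπ
        · have h3 : ((a' : ℤ) : ZMod p) = ((x.val : ℤ) : ZMod p) :=
            (ZMod.intCast_eq_intCast_iff _ _ _).2 h2
          push_cast at h3
          rw [ZMod.natCast_zmod_val] at h3
          rw [h3]
          exact hx
    obtain ⟨u, v, huv⟩ := hcopM
    push_cast at huv
    -- the second prime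
    have hcop3 : IsCoprime (a + (N * π) * (u * (r - a))) ((N * π * M : ℕ) : ℤ) := by
      push_cast
      refine IsCoprime.mul_right (IsCoprime.add_mul_left_left hcop2 _) ?_
      have h3 : a + (N * π) * (u * (r - a)) = r + M * (-(v * (r - a))) := by
        linear_combination (r - a) * huv
      rw [h3]
      exact IsCoprime.add_mul_left_left hMr _
    obtain ⟨a', ha'l, ha', ha'mod⟩ := Nat.forall_exists_prime_gt_and_zmodEq (max 2 (max p π))
      (q := N * π * M) (mul_ne_zero (mul_ne_zero hN hπ.ne_zero) hM0) hcop3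
    obtain ⟨z, hz⟩ := ha'mod.symm.dvd
    push_cast at hz
    have hl1 := le_max_left 2 (max p π)
    have hl2 := (le_max_left p π).trans (le_max_right 2 (max p π))
    have hl3 := (le_max_right p π).trans (le_max_right 2 (max p π))
    have h4 : (a' : ℤ) = a + (u * (r - a) + M * z) * (N * π) := by linear_combination hz
    have h5 : E Ψ a (N * π) = E Ψ a' (N * π) := by
      rw [← E_up hΨ (u * (r - a) + M * z) (a := a) (c := N * π) (Or.inl ha0), ← h4]
    rw [h5]
    refine zero_prime hp hΨ hU hN hnil hβ ha' (by omega) ?_ (by omega) (hM a' ?_) ?_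
    · obtain ⟨k, hk⟩ := ha
      exact ⟨k + (u * (r - a) + M * z) * π, by linear_combination h4 + hk⟩
    · rw [Int.modEq_iff_dvd]
      exact ⟨v * (r - a) - N * π * z, by linear_combination (-1 : ℤ) * h4 - (r - a) * huv⟩
    · intro h6
      have h7 : a' ∣ π := by exact_mod_cast h6
      have := Nat.le_of_dvd hπ.pos h7
      omega
  by_cases ha0 : a = 0
  · subst ha0
    have hc0 : c ≠ 0 := by
      rintro rfl
      exact not_isCoprime_zero_zero hac
    have h1 := E_up hΨ 1 (a := 0) (c := c) (Or.inr hc0)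
    rw [← h1]
    have hc1 : (N : ℤ) ∣ 1 := by
      have := (dvd_neg (α := ℤ)).2 ha
      simpa using this
    refine key (by simpa using hc0) ?_ hc ?_
    · rw [zero_add, one_mul]
      have h2 : IsUnit c := isCoprime_zero_left.1 hac
      exact isCoprime_self.2 h2
    · exact hc1.trans (one_dvd _)
  · exact key ha0 hac hc ha

end

end Pool.Agent.H503.MG
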