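import Pool.Agent.H503.MG.Lat
import Pool.Agent.H503.MU.Main

/-!
# The integral symbol for the `Γ₁(N)`-periods
-/

set_option autoImplicit false
set_option linter.unusedSectionVars false

open Complex UpperHalfPlane MatrixGroups CongruenceSubgroup Filter Topology ModularForm

namespace Pool.Agent.H503.MG

open Pool.Agent.H503.TA Pool.Agent.H503.MU

variable {N : ℕ} [NeZero N]
variable (f : CuspForm (Gamma0 N : Subgroup (GL (Fin 2) ℝ)) 2)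

section
variable {s : ℂ} {Ω : ℂ} (hΩ0 : Ω ≠ 0)
  (hΩ : ∀ w : ℂ, (∃ c, IsPer1 f c ∧ w = c + s * (starRingEnd ℂ) c) ↔ ∃ k : ℤ, w = k * Ω)

include hΩ in
/-- the term of a Hecke operator -/
lemma Phi_term1 {δ : SL(2, ℤ)} {g X Y : ℤ} (hg : g ≠ 0) (hgN : (N : ℤ) ∣ g - 1) (hXY : IsCoprime X Y)
    (hX : (N : ℤ) ∣ g * X - δ 0 0) (hY : (N : ℤ) ∣ g * Y - δ 1 0) :
    ∃ k : ℤ, PhiC f s ((g : ℚ) * X, (g : ℚ) * Y) = PhiC f s ((δ 0 0 : ℤ), (δ 1 0 : ℤ)) + k * Ω := by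
  obtain ⟨δ', h0, h1⟩ := hXY.exists_SL2_col 0
  have hX' : (N : ℤ) ∣ δ' 0 0 - δ 0 0 := by
    rw [h0]
    have : X - δ 0 0 = (g * X - δ 0 0) - (g - 1) * X := by ring
    rw [this]
    exact dvd_sub hX (hgN.mul_right _)
  have hY' : (N : ℤ) ∣ δ' 1 0 - δ 1 0 := by
    rw [h1]
    have : Y - δ 1 0 = (g * Y - δ 1 0) - (g - 1) * Y := by ring
    rw [this]
    exact dvd_sub hY (hgN.mul_right _)
  obtain ⟨c, hc, hcc⟩ := cval_congr1 f hX' hY'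
  obtain ⟨k, hk⟩ := (hΩ _).1 ⟨c, hc, rfl⟩
  refine ⟨k, ?_⟩
  have hg' : (g : ℚ) ≠ 0 := by exact_mod_cast hg
  have e1 := PsiC_col f δ' hg'
  rw [h0, h1] at e1
  have e2 := PsiC_col f δ (one_ne_zero (α := ℚ))
  rw [one_mul, one_mul] at e2
  unfold PhiC
  rw [e1, e2, hcc, ← hk, map_add]
  ring

include hΩ in
/-- integrality up to the factor `c(q) - q - 1` -/
theorem Phi_int1 {q : ℕ} (hq : q.Prime) (hq1 : (N : ℤ) ∣ q - 1) {cq : ℤ} (hH : HeckeAt f q cq)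
    (z : ℚ × ℚ) : ∃ k : ℤ, ((cq - (q + 1) : ℤ) : ℂ) * PhiC f s z = k * Ω := by
  have hqp : Prime (q : ℤ) := Nat.prime_iff_prime_int.1 hq
  by_cases hz : z = 0
  · refine ⟨0, ?_⟩
    rw [hz]
    unfold PhiC
    have : PsiC f ((0 : ℚ × ℚ)) = 0 := PsiC_inf f 0
    rw [this]
    simp
  obtain ⟨δ, t, ht, hδ⟩ := exists_col hz
  have hzδ : PhiC f s z = PhiC f s ((δ 0 0 : ℤ), (δ 1 0 : ℤ)) := by
    unfold PhiC
    rw [hδ, PsiC_hom f _ _ _ ht]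
  have hcop : IsCoprime (δ 0 0) (δ 1 0) := ⟨δ 1 1, -δ 0 1, by linear_combination det_eq δ⟩
  -- the first term
  have h1 : ∃ k : ℤ, PhiC f s ((q : ℚ) * (δ 0 0 : ℤ), (δ 1 0 : ℤ)) =
      PhiC f s ((δ 0 0 : ℤ), (δ 1 0 : ℤ)) + k * Ω := by
    by_cases hd : (q : ℤ) ∣ δ 1 0
    · obtain ⟨y', hy'⟩ := hd
      have h2 : IsCoprime (δ 0 0) y' := by
        rw [hy'] at hcop
        exact (IsCoprime.mul_right_iff.1 hcop).2
      have := Phi_term1 f hΩ (δ := δ) (g := q) (X := δ 0 0) (Y := y') hqp.ne_zero hq1 h2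
        (by
          have : (q : ℤ) * δ 0 0 - δ 0 0 = (q - 1) * δ 0 0 := by ring
          rw [this]
          exact hq1.mul_right _) (by rw [← hy', sub_self]; exact dvd_zero _)
      obtain ⟨k, hk⟩ := this
      refine ⟨k, ?_⟩
      rw [← hk]
      congr 2
      rw [hy']
      push_cast
      ring
    · have h2 : IsCoprime ((q : ℤ) * δ 0 0) (δ 1 0) :=
        IsCoprime.mul_left (hqp.coprime_iff_not_dvd.2 hd) hcop
      have := Phi_term1 f hΩ (δ := δ) (g := 1) (X := q * δ 0 0) (Y := δ 1 0) one_ne_zero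
        (by rw [sub_self]; exact dvd_zero _) h2
        (by
          have : (1 : ℤ) * (q * δ 0 0) - δ 0 0 = (q - 1) * δ 0 0 := by ring
          rw [this]
          exact hq1.mul_right _) (by rw [one_mul, sub_self]; exact dvd_zero _)
      obtain ⟨k, hk⟩ := this
      refine ⟨k, ?_⟩
      rw [← hk]
      push_cast
      rw [one_mul, one_mul]
  -- the other terms
  have h2 : ∀ i : ℕ, ∃ k : ℤ, PhiC f s (((δ 0 0 : ℤ) : ℚ) + i * (δ 1 0 : ℤ), q * (δ 1 0 : ℤ)) =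
      PhiC f s ((δ 0 0 : ℤ), (δ 1 0 : ℤ)) + k * Ω := by
    intro i
    set X : ℤ := δ 0 0 - i * (q - 1) * δ 1 0 with hX
    have h3 : PhiC f s (((δ 0 0 : ℤ) : ℚ) + i * (δ 1 0 : ℤ), q * (δ 1 0 : ℤ)) =
        PhiC f s (X, q * (δ 1 0 : ℤ)) := by
      unfold PhiC
      have h4 := PsiC_T f (((δ 0 0 : ℤ) : ℚ) + i * (δ 1 0 : ℤ)) (q * (δ 1 0 : ℤ)) (-i)
      rw [← h4]
      have h5 : ((δ 0 0 : ℤ) : ℚ) + i * (δ 1 0 : ℤ) + ((-(i : ℤ) : ℤ) : ℚ) * (q * (δ 1 0 : ℤ)) = X := by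
        rw [hX]
        push_cast
        ring
      rw [h5]
    rw [h3]
    have hXc : IsCoprime X (δ 1 0) := by
      rw [hX, sub_eq_add_neg, ← neg_mul]
      exact hcop.add_mul_right_left _
    have hXN : (N : ℤ) ∣ X - δ 0 0 := by
      have : X - δ 0 0 = (q - 1) * (-(i * δ 1 0)) := by rw [hX]; ring
      rw [this]
      exact hq1.mul_right _
    have hYN : (N : ℤ) ∣ (q : ℤ) * δ 1 0 - δ 1 0 := by
      have : (q : ℤ) * δ 1 0 - δ 1 0 = (q - 1) * δ 1 0 := by ring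
      rw [this]
      exact hq1.mul_right _
    by_cases hd : (q : ℤ) ∣ X
    · obtain ⟨X', hX'⟩ := hd
      have h6 : IsCoprime X' (δ 1 0) := by
        rw [hX'] at hXc
        exact (IsCoprime.mul_left_iff.1 hXc).2
      obtain ⟨k, hk⟩ := Phi_term1 f hΩ (δ := δ) (g := q) (X := X') (Y := δ 1 0) hqp.ne_zero hq1 h6
        (by rw [← hX']; exact hXN) hYN
      refine ⟨k, ?_⟩
      rw [← hk, hX']
      push_cast
      rfl
    · have h6 : IsCoprime X (q * δ 1 0) :=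
        IsCoprime.mul_right (hqp.coprime_iff_not_dvd.2 hd).symm hXc
      obtain ⟨k, hk⟩ := Phi_term1 f hΩ (δ := δ) (g := 1) (X := X) (Y := q * δ 1 0) one_ne_zero
        (by rw [sub_self]; exact dvd_zero _) h6
        (by rw [one_mul]; exact hXN) (by rw [one_mul]; exact hYN)
      refine ⟨k, ?_⟩
      rw [← hk]
      push_cast
      rw [one_mul, one_mul]
  choose k2 hk2 using h2
  obtain ⟨k1, hk1⟩ := h1
  have h3 := Phi_hecke (s := s) f hq.pos hH ((δ 0 0 : ℤ) : ℚ) ((δ 1 0 : ℤ) : ℚ)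
  rw [hk1, Finset.sum_congr rfl (fun i _ => hk2 i), Finset.sum_add_distrib, Finset.sum_const,
    Finset.card_range, nsmul_eq_mul, ← Finset.sum_mul] at h3
  refine ⟨k1 + ∑ i ∈ Finset.range q, k2 i, ?_⟩
  rw [hzδ]
  push_cast
  linear_combination -h3


/-- the properties of the integral symbol -/
structure IsIntSym1 (N : ℕ) (D : ℤ) (K : ℚ × ℚ → ℤ) : Prop where
  hom : ∀ (t x y : ℚ), t ≠ 0 → K (t * x, t * y) = K (x, y)
  inf : ∀ x : ℚ, K (x, 0) = 0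
  inv : ∀ a b c d : ℤ, a * d - b * c = 1 → (N : ℤ) ∣ c → ∃ w : ℤ, ∀ x y : ℚ,
    (x, y) ≠ (0 : ℚ × ℚ) → K (a * x + b * y, c * x + d * y) = K (x, y) + w
  con : ∀ a c a' c' : ℤ, IsCoprime a c → IsCoprime a' c' → (N : ℤ) ∣ a' - a → (N : ℤ) ∣ c' - c →
    D ∣ K (a', c') - K (a, c)
  att : ∃ a c : ℤ, IsCoprime a c ∧ (N : ℤ) ∣ c ∧ (N : ℤ) ∣ a - 1 ∧ K (a, c) = D

include hΩ hΩ0 in
theorem exists_K1 {q : ℕ} (hq : q.Prime) (hq1 : (N : ℤ) ∣ q - 1) {cq : ℤ} (hH : HeckeAt f q cq) :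
    ∃ K : ℚ × ℚ → ℤ, (∀ z, ((cq - (q + 1) : ℤ) : ℂ) * PhiC f s z = K z * Ω) ∧
      IsIntSym1 N (cq - (q + 1)) K := by
  choose K hK using Phi_int1 (s := s) f hΩ hq hq1 hH
  have hcan : ∀ a b : ℤ, (a : ℂ) * Ω = b * Ω → a = b := by
    intro a b h
    exact_mod_cast mul_right_cancel₀ hΩ0 h
  have hinf : ∀ x : ℚ, K (x, 0) = 0 := by
    intro x
    apply hcan
    rw [← hK]
    unfold PhiC
    rw [PsiC_inf]
    simp
  have hinv : ∀ γ : SL(2, ℤ), ∀ c : ℂ,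
      (∀ τ : ℍ, prim f ((γ • τ : ℍ) : ℂ) = prim f (τ : ℂ) + c) → ∀ w : ℤ,
      ((cq - (q + 1) : ℤ) : ℂ) * (c + s * (starRingEnd ℂ) c) = w * Ω → ∀ x y : ℚ,
      (x, y) ≠ (0 : ℚ × ℚ) →
      K ((γ 0 0 : ℤ) * x + (γ 0 1 : ℤ) * y, (γ 1 0 : ℤ) * x + (γ 1 1 : ℤ) * y) =
        K (x, y) + w := by
    intro γ c hc w hw x y hxy
    apply hcan
    rw [← hK]
    rw [Int.cast_add, add_mul, ← hK, ← hw]
    unfold PhiC
    rw [PsiC_inv f hc hxy, map_add]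
    ring
  refine ⟨K, hK, ⟨?_, hinf, ?_, ?_, ?_⟩⟩
  · intro t x y ht
    apply hcan
    rw [← hK, ← hK]
    unfold PhiC
    rw [PsiC_hom f _ _ _ ht]
  · intro a b c d hdet hc
    let γ : SL(2, ℤ) := ⟨!![a, b; c, d], by rw [Matrix.det_fin_two_of]; exact hdet⟩
    have hγ : γ ∈ Gamma0 N := by
      rw [Gamma0_mem, ZMod.intCast_zmod_eq_zero_iff_dvd]
      exact hc
    obtain ⟨c0, hc0⟩ := prim_smul f hγ
    have h1 := hK ((a : ℚ), (c : ℚ))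
    have h2 : PsiC f ((a : ℚ), (c : ℚ)) = c0 := by
      have h3 := PsiC_inv f hc0 (x := 1) (y := 0) (by simp)
      rw [PsiC_inf, zero_add] at h3
      rw [← h3]
      have e1 : ((γ 0 0 : ℤ) : ℚ) = a := rfl
      have e2 : ((γ 1 0 : ℤ) : ℚ) = c := rfl
      rw [e1, e2]
      congr 2 <;> ring
    refine ⟨K ((a : ℚ), (c : ℚ)), fun x y hxy => hinv γ c0 hc0 _ ?_ x y hxy⟩
    rw [← h1]
    unfold PhiC
    rw [h2]
  · intro a c a' c' h h' ha hc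
    obtain ⟨δ, h0, h1⟩ := h.exists_SL2_col 0
    obtain ⟨k, hk⟩ := Phi_term1 f hΩ (δ := δ) (g := 1) (X := a') (Y := c') one_ne_zero
      (by rw [sub_self]; exact dvd_zero _) h' (by rw [one_mul, h0]; exact ha)
      (by rw [one_mul, h1]; exact hc)
    rw [h0, h1] at hk
    push_cast at hk
    rw [one_mul, one_mul] at hk
    refine ⟨k, hcan _ _ ?_⟩
    push_cast
    rw [sub_mul, ← hK, ← hK, hk]
    push_cast
    ring
  · obtain ⟨c0, ⟨γ, hγ, hc0⟩, hw⟩ := (hΩ _).2 ⟨1, rfl⟩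
    have h1 := hinv γ c0 hc0 (cq - (q + 1)) (by
      rw [← hw]
      push_cast
      ring) 1 0 (by simp)
    rw [Gamma1_mem] at hγ
    refine ⟨γ 0 0, γ 1 0, ⟨γ 1 1, -γ 0 1, by linear_combination det_eq γ⟩, ?_, ?_, ?_⟩
    · exact (ZMod.intCast_zmod_eq_zero_iff_dvd _ N).1 hγ.2.2
    · rw [← ZMod.intCast_zmod_eq_zero_iff_dvd]
      push_cast
      rw [hγ.1, sub_self]
    · rw [hinf, zero_add] at h1
      rw [← h1]
      congr 2 <;> ring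

end

end Pool.Agent.H503.MG
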