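import Pool.Agent.H503.MG.Sym

/-!
# Invariance under unipotent matrices with denominators
-/

set_option autoImplicit false
set_option linter.unusedSectionVars false

namespace Pool.Agent.H503.MG

variable {R : Type*} [CommRing R]

section
variable {N p U : ℕ} (hp : p.Prime) {Ψ : ℚ × ℚ → R} (hΨ : IsT N p U Ψ)
variable (hU : ∃ K : ℕ, U = p ^ (K + 1))

include hp hΨ hU in
/-- the move of the base point -/
lemma V_move {μ : ℤ} (hμ : μ ≠ 0) {a c1 m t s : ℤ} (h : IsCoprime a (N * μ ^ 2 * c1))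
    (h' : IsCoprime a (N * μ ^ 2 * (c1 + a * t)))
    (ha : ¬ (p : ℤ) ∣ a) (j : ℕ) :
    E Ψ (a + m * U ^ j * (N * μ * c1)) (N * μ ^ 2 * c1) =
      E Ψ (a + s * (N * μ ^ 2 * (c1 + a * t)) + m * U ^ j * (N * μ * (c1 + a * t)))
        (N * μ ^ 2 * (c1 + a * t)) := by
  have ha0 : a ≠ 0 := by
    rintro rfl
    exact ha (dvd_zero _)
  rw [V_scale hp hΨ hU h ha, ← E_conj hΨ (t := U ^ j * t) hμ ha0]
  have h1 := V_scale hp hΨ hU (m := m) h' ha j
  have h2 : (U : ℤ) ^ j * c1 + a * (U ^ j * t) = U ^ j * (c1 + a * t) := by ring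
  rw [h2, ← h1]
  have h3 : a + m * U ^ j * (N * μ * (c1 + a * t)) ≠ 0 ∨ N * μ ^ 2 * (c1 + a * t) ≠ 0 := by
    by_contra hcon
    push Not at hcon
    obtain ⟨h4, h5⟩ := hcon
    rw [h5] at h'
    rcases mul_eq_zero.1 h5 with h6 | h6
    · rcases mul_eq_zero.1 h6 with h7 | h7
      · rw [h7] at h4
        exact ha0 (by simpa using h4)
      · exact absurd (pow_eq_zero_iff (two_ne_zero)|>.1 h7) hμ
    · rw [h6] at h4
      exact ha0 (by simpa using h4)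
  rw [← E_up hΨ s h3]
  congr 1
  ring

include hp hΨ hU in
/-- the basic invariance -/
theorem key (hN : N ≠ 0) {μ : ℕ} (hμ : μ.Prime) (hμp : μ ≠ p)
    (hμU : ¬ (μ : ℤ) ∣ (U : ℤ) ^ (2 * N) - 1) {a c1 : ℤ}
    (h : IsCoprime a (N * μ ^ 2 * c1)) (ha : ¬ (p : ℤ) ∣ a) :
    ∃ v : ℤ, ¬ (μ : ℤ) ∣ v ∧ ¬ (μ : ℤ) ∣ v - 1 ∧ ∀ m : ℤ,
      E Ψ (a + m * v * (N * μ * c1)) (N * μ ^ 2 * c1) =
        E Ψ (a + m * (N * μ * c1)) (N * μ ^ 2 * c1) := by
  have : Fact μ.Prime := ⟨hμ⟩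
  have hμ0 : (μ : ℤ) ≠ 0 := by exact_mod_cast hμ.ne_zero
  have hμP : Prime (μ : ℤ) := Nat.prime_iff_prime_int.1 hμ
  have ha0 : a ≠ 0 := by
    rintro rfl
    exact ha (dvd_zero _)
  have hμU0 : ¬ (μ : ℤ) ∣ U := by
    obtain ⟨K, rfl⟩ := hU
    intro h1
    have h2 : μ ∣ p ^ (K + 1) := by exact_mod_cast h1
    exact hμp ((Nat.prime_dvd_prime_iff_eq hμ hp).1 (hμ.dvd_of_dvd_pow h2))
  have hU0 : ((U : ℕ) : ZMod μ) ≠ 0 := by
    intro h1
    rw [ZMod.natCast_eq_zero_iff] at h1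
    exact hμU0 (by exact_mod_cast h1)
  -- the order
  set n : ℕ := orderOf ((U : ℕ) : ZMod μ) with hn
  have hpow : ∀ e : ℕ, (μ : ℤ) ∣ (U : ℤ) ^ e - 1 → n ∣ e := by
    intro e h1
    rw [hn, orderOf_dvd_iff_pow_eq_one]
    have h2 : (((U : ℤ) ^ e - 1 : ℤ) : ZMod μ) = 0 := (ZMod.intCast_zmod_eq_zero_iff_dvd _ _).2 h1
    push_cast at h2
    exact sub_eq_zero.1 h2
  have hn2 : ¬ n ∣ 2 * N := by
    intro h1
    apply hμU
    rw [hn, orderOf_dvd_iff_pow_eq_one] at h1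
    rw [← ZMod.intCast_zmod_eq_zero_iff_dvd]
    push_cast
    rw [h1, sub_self]
  obtain ⟨l, k, hl, hlk, hlk2⟩ : ∃ l k : ℕ, l.Prime ∧ l ^ k ∣ n ∧ ¬ l ^ k ∣ 2 * N := by
    rw [Nat.dvd_iff_prime_pow_dvd_dvd] at hn2
    push Not at hn2
    obtain ⟨l, k, h1, h2, h3⟩ := hn2
    exact ⟨l, k, h1, h2, h3⟩
  have hlμ : l ≠ μ := by
    rintro rfl
    have hk0 : k ≠ 0 := by
      rintro rfl
      exact hlk2 (by simp)
    have h1 : l ∣ n := (dvd_pow_self l hk0).trans hlk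
    have h2 : n ∣ l - 1 := ZMod.orderOf_dvd_card_sub_one hU0
    have h3 := Nat.le_of_dvd (by have := hl.two_le; omega) (h1.trans h2)
    have := hl.two_le
    omega
  -- the first prime
  have hcop1 : IsCoprime c1 ((a.natAbs : ℕ) : ℤ) := by
    have h1 : IsCoprime a c1 := IsCoprime.of_isCoprime_of_dvd_right h (dvd_mul_left _ _)
    rw [Int.natCast_natAbs]
    rcases abs_choice a with h2 | h2 <;> rw [h2]
    · exact h1.symm
    · exact h1.symm.neg_right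
  obtain ⟨π, hπl, hπ, hπmod⟩ := Nat.forall_exists_prime_gt_and_zmodEq (max l p)
    (q := a.natAbs) (Int.natAbs_ne_zero.2 ha0) hcop1
  obtain ⟨t, ht⟩ : ∃ t : ℤ, (π : ℤ) = c1 + a * t := by
    have h1 := hπmod.symm.dvd
    rw [Int.natCast_natAbs, abs_dvd] at h1
    obtain ⟨t, ht⟩ := h1
    exact ⟨t, by linear_combination ht⟩
  have hlπ : l ≠ π := by
    have := le_max_left l p
    omega
  have hcop2 : IsCoprime a (N * μ ^ 2 * π) := by
    have h1 : IsCoprime a ((N : ℤ) * μ ^ 2) :=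
      IsCoprime.of_isCoprime_of_dvd_right h (dvd_mul_right _ _)
    refine h1.mul_right ?_
    have h2 : IsCoprime a c1 := IsCoprime.of_isCoprime_of_dvd_right h (dvd_mul_left _ _)
    rw [ht]
    exact IsCoprime.add_mul_left_right h2 t
  obtain ⟨a', s, ha', ha'p, hs, hlka⟩ := exists_prime_a hN hμ hl hlμ hlk2 hπ hlπ hcop2 p
  have hpa' : ¬ (p : ℤ) ∣ a' := by
    intro h1
    have h2 : p ∣ a' := by exact_mod_cast h1
    have h3 := (Nat.prime_dvd_prime_iff_eq hp ha').1 h2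
    omega
  have hcop3 : IsCoprime (a' : ℤ) (N * μ ^ 2 * π) := by
    rw [hs]
    exact IsCoprime.add_mul_right_left hcop2 _
  -- the exponent
  obtain ⟨e, he⟩ : ∃ e, a' = e + 1 := ⟨a' - 1, by have := ha'.two_le; omega⟩
  obtain ⟨t', ht'⟩ : ∃ t' : ℤ, (U : ℤ) ^ e = 1 + a' * t' := by
    have : Fact a'.Prime := ⟨ha'⟩
    have h1 : ((U : ℕ) : ZMod a') ≠ 0 := by
      intro h1
      rw [ZMod.natCast_eq_zero_iff] at h1
      obtain ⟨K, rfl⟩ := hU
      have h2 := (Nat.prime_dvd_prime_iff_eq ha' hp).1 (ha'.dvd_of_dvd_pow h1)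
      omega
    have h2 := ZMod.pow_card_sub_one_eq_one h1
    have h3 : (((U : ℤ) ^ e - 1 : ℤ) : ZMod a') = 0 := by
      have h4 : a' - 1 = e := by omega
      rw [h4] at h2
      push_cast
      rw [h2, sub_self]
    rw [ZMod.intCast_zmod_eq_zero_iff_dvd] at h3
    obtain ⟨t', ht'⟩ := h3
    exact ⟨t', by linear_combination ht'⟩
  refine ⟨(U : ℤ) ^ e, fun h1 => hμU0 (hμP.dvd_of_dvd_pow h1), fun h1 => ?_, fun m => ?_⟩
  · apply hlka
    have h2 := hlk.trans (hpow e h1)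
    have h3 : ((l ^ k : ℕ) : ℤ) ∣ (e : ℤ) := by exact_mod_cast h2
    rw [he]
    push_cast at h3 ⊢
    rwa [add_sub_cancel_right]
  · have h1 : ∀ j : ℕ, E Ψ (a + m * U ^ j * (N * μ * c1)) (N * μ ^ 2 * c1) =
        E Ψ (a' + m * U ^ j * (N * μ * π)) (N * μ ^ 2 * π) := by
      intro j
      rw [V_move hp hΨ hU (s := s) (t := t) hμ0 h (by rw [← ht]; exact hcop2) ha j, ← ht, ← hs]
    rw [h1 e]
    have h2 := h1 0
    rw [pow_zero, mul_one] at h2
    rw [h2, V_scale hp hΨ hU hcop3 hpa' e]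
    have h3 : (U : ℤ) ^ e * π = π + a' * (t' * π) := by
      rw [ht']
      ring
    have ha'0 : (a' : ℤ) ≠ 0 := by exact_mod_cast ha'.ne_zero
    rw [h3, E_conj hΨ hμ0 ha'0]

include hp hΨ hU in
/-- **invariance under upper triangular matrices with denominator `μ`** -/
theorem inv_up (hN : N ≠ 0) {μ : ℕ} (hμ : μ.Prime) (hμp : μ ≠ p)
    (hμU : ¬ (μ : ℤ) ∣ (U : ℤ) ^ (2 * N) - 1) {a c2 : ℤ}
    (h : IsCoprime a (N * μ ^ 3 * c2)) (m : ℤ) :
    E Ψ (a + m * (N * μ ^ 2 * c2)) (N * μ ^ 3 * c2) = E Ψ a (N * μ ^ 3 * c2) := by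
  have hμP : Prime (μ : ℤ) := Nat.prime_iff_prime_int.1 hμ
  have hpP : Prime (p : ℤ) := Nat.prime_iff_prime_int.1 hp
  set X : ℤ → R := fun s => E Ψ (a + s * (N * μ ^ 2 * c2)) (N * μ ^ 3 * c2) with hX
  have hne : ∀ s : ℤ, a + s * (N * μ ^ 2 * c2) ≠ 0 ∨ N * μ ^ 3 * c2 ≠ 0 := by
    intro s
    by_contra hcon
    push Not at hcon
    obtain ⟨h1, h2⟩ := hcon
    have h3 : (N * μ ^ 2 * c2 : ℤ) = 0 := by
      have : (N * μ ^ 2 * c2 : ℤ) * μ = 0 := by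
        rw [← h2]
        ring
      exact (mul_eq_zero.1 this).resolve_right hμP.ne_zero
    rw [h3, mul_zero, add_zero] at h1
    rw [h1, h2] at h
    exact not_isCoprime_zero_zero h
  have hper : ∀ s t : ℤ, X (s + μ * t) = X s := by
    intro s t
    simp only [hX]
    rw [← E_up hΨ t (hne s)]
    congr 1
    ring
  have hcop : ∀ s : ℤ, IsCoprime (a + s * (N * μ ^ 2 * c2)) (N * μ ^ 3 * c2) := by
    intro s
    have h1 : IsCoprime (a + s * (N * μ ^ 2 * c2)) (N * μ ^ 2 * c2) :=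
      IsCoprime.add_mul_right_left (IsCoprime.of_isCoprime_of_dvd_right h ⟨μ, by ring⟩) _
    have h2 : IsCoprime (a + s * (N * μ ^ 2 * c2)) (μ : ℤ) :=
      IsCoprime.of_isCoprime_of_dvd_right h1 ⟨N * μ * c2, by ring⟩
    have h3 : (N * μ ^ 3 * c2 : ℤ) = N * μ ^ 2 * c2 * μ := by ring
    rw [h3]
    exact h1.mul_right h2
  have hkey : ∀ s : ℤ, ∃ v : ℤ, ¬ (μ : ℤ) ∣ v ∧ ¬ (μ : ℤ) ∣ v - 1 ∧ ∀ m : ℤ,
      X (s + m * v) = X (s + m) := by
    intro s
    obtain ⟨s', hs', hps⟩ : ∃ s' : ℤ, (∃ t, s' = s + μ * t) ∧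
        ¬ (p : ℤ) ∣ a + s' * (N * μ ^ 2 * c2) := by
      by_cases hps : (p : ℤ) ∣ a + s * (N * μ ^ 2 * c2)
      · refine ⟨s + μ, ⟨1, by ring⟩, fun h1 => ?_⟩
        have h2 : (p : ℤ) ∣ N * μ ^ 3 * c2 := by
          have h3 := dvd_sub h1 hps
          have h4 : a + (s + μ) * (N * μ ^ 2 * c2) - (a + s * (N * μ ^ 2 * c2)) =
              N * μ ^ 3 * c2 := by ring
          rwa [h4] at h3
        exact hpP.not_isUnit ((hcop s).isUnit_of_dvd' hps h2)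
      · exact ⟨s, ⟨0, by ring⟩, hps⟩
    obtain ⟨t, ht⟩ := hs'
    obtain ⟨v, hv1, hv2, hv3⟩ := key hp hΨ hU hN hμ hμp hμU (a := a + s' * (N * μ ^ 2 * c2))
      (c1 := μ * c2) (by
        have h1 := hcop s'
        have h2 : (N * μ ^ 3 * c2 : ℤ) = N * μ ^ 2 * (μ * c2) := by ring
        rwa [h2] at h1) hps
    refine ⟨v, hv1, hv2, fun m => ?_⟩
    have h1 := hv3 m
    rw [← hper (s + m * v) t, ← hper (s + m) t]
    simp only [hX]
    have h2 : (N * μ ^ 2 * (μ * c2) : ℤ) = N * μ ^ 3 * c2 := by ring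
    rw [h2] at h1
    have h3 : a + s' * (N * μ ^ 2 * c2) + m * v * (N * μ * (μ * c2)) =
        a + (s + m * v + μ * t) * (N * μ ^ 2 * c2) := by
      rw [ht]
      ring
    have h4 : a + s' * (N * μ ^ 2 * c2) + m * (N * μ * (μ * c2)) =
        a + (s + m + μ * t) * (N * μ ^ 2 * c2) := by
      rw [ht]
      ring
    rw [h3, h4] at h1
    exact h1
  obtain ⟨v0, h01, h02, h03⟩ := hkey 0
  obtain ⟨v1, h11, h12, h13⟩ := hkey 1
  -- invariance under a translation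
  have hv : ¬ (μ : ℤ) ∣ v0 * v1 := fun h1 => (hμP.dvd_or_dvd h1).elim h01 h11
  have hx : ∀ x : ℤ, X (v0 * v1 * x + v0 * (1 - v1)) = X (v0 * v1 * x + (1 - v1)) := by
    intro x
    have e1 := h03 (v1 * x + (1 - v1))
    have e2 := h13 (x - 1)
    have e3 := h13 (v0 * x - 1)
    have e4 := h03 x
    have f1 : v0 * v1 * x + v0 * (1 - v1) = 0 + (v1 * x + (1 - v1)) * v0 := by ring
    have f2 : 0 + (v1 * x + (1 - v1)) = 1 + (x - 1) * v1 := by ring
    have f3 : 1 + (x - 1) = 0 + x := by ring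
    have f4 : v0 * v1 * x + (1 - v1) = 1 + (v0 * x - 1) * v1 := by ring
    have f5 : 1 + (v0 * x - 1) = 0 + x * v0 := by ring
    rw [f1, e1, f2, e2, f3, f4, e3, f5, e4]
  have hy : ∀ y : ℤ, X (y + (1 - v0) * (1 - v1)) = X y := by
    intro y
    obtain ⟨u, w, huw⟩ := hμP.coprime_iff_not_dvd.2 hv
    -- `u μ + w (v0 v1) = 1`
    have h1 := hx (w * (y - v0 * (1 - v1)))
    have h2 : v0 * v1 * (w * (y - v0 * (1 - v1))) = (y - v0 * (1 - v1)) +
        μ * (-(u * (y - v0 * (1 - v1)))) := by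
      linear_combination (y - v0 * (1 - v1)) * huw
    rw [h2] at h1
    have h3 : y - v0 * (1 - v1) + μ * (-(u * (y - v0 * (1 - v1)))) + v0 * (1 - v1) =
        y + μ * (-(u * (y - v0 * (1 - v1)))) := by ring
    have h4 : y - v0 * (1 - v1) + μ * (-(u * (y - v0 * (1 - v1)))) + (1 - v1) =
        y + (1 - v0) * (1 - v1) + μ * (-(u * (y - v0 * (1 - v1)))) := by ring
    rw [h3, h4, hper, hper] at h1
    exact h1.symm
  have hk : ∀ (k : ℕ) (y : ℤ), X (y + k * ((1 - v0) * (1 - v1))) = X y := by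
    intro k
    induction k with
    | zero =>
      intro y
      simp
    | succ k ih =>
      intro y
      have h1 := hy (y + k * ((1 - v0) * (1 - v1)))
      rw [ih] at h1
      rw [← h1]
      congr 1
      push_cast
      ring
  have hw : ¬ (μ : ℤ) ∣ (1 - v0) * (1 - v1) := by
    intro h1
    rcases hμP.dvd_or_dvd h1 with h2 | h2
    · exact h02 (by rw [← neg_sub]; exact (dvd_neg).2 h2)
    · exact h12 (by rw [← neg_sub]; exact (dvd_neg).2 h2)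
  obtain ⟨u, w, huw⟩ := hμP.coprime_iff_not_dvd.2 hw
  -- the multiple
  obtain ⟨k, t, hkt⟩ : ∃ (k : ℕ) (t : ℤ), (k : ℤ) = w * m + μ * t := by
    have hμ1 : (0 : ℤ) < μ := by exact_mod_cast hμ.pos
    refine ⟨((w * m) % μ).toNat, -((w * m) / μ), ?_⟩
    rw [Int.toNat_of_nonneg (Int.emod_nonneg _ hμ1.ne')]
    have := Int.emod_add_mul_ediv (w * m) μ
    linear_combination this
  have h1 := hk k 0
  have h2 : (0 : ℤ) + k * ((1 - v0) * (1 - v1)) = m + μ * (t * ((1 - v0) * (1 - v1)) - u * m) := by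
    rw [hkt]
    linear_combination m * huw
  rw [h2, hper] at h1
  have h3 : X 0 = E Ψ a (N * μ ^ 3 * c2) := by
    simp only [hX]
    rw [zero_mul, add_zero]
  rw [← h3]
  exact h1

end

end Pool.Agent.H503.MG
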