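import Pool.Agent.H503.MG.NC
import Pool.Agent.H503.MU.Out

/-!
# The integral functions on the units attached to `f` and the `Γ₁(N)`-periods
-/

set_option autoImplicit false
set_option linter.unusedSectionVars false

open Complex UpperHalfPlane MatrixGroups CongruenceSubgroup Filter Topology ModularForm

namespace Pool.Agent.H503.MG

open Pool.Agent.H503.TA Pool.Agent.H503.MU Pool.Agent.H503.MB

variable {p N : ℕ} [NeZero N]
variable (f : CuspForm (Gamma0 N : Subgroup (GL (Fin 2) ℝ)) 2)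

/-- the values at the cusps `a / p^n`, `p ∤ a`, differ by periods -/
lemma Phi_cusp1 (hp : p.Prime) (hpN : ¬ p ∣ N) {s : ℂ} {Ω : ℂ}
    (hΩ : ∀ w : ℂ, (∃ c, IsPer1 f c ∧ w = c + s * (starRingEnd ℂ) c) ↔ ∃ k : ℤ, w = k * Ω)
    {a b : ℤ} (ha : ¬ (p : ℤ) ∣ a) (hb : ¬ (p : ℤ) ∣ b) (n : ℕ) :
    ∃ k : ℤ, PhiC f s ((b : ℚ), (p : ℚ) ^ n) - PhiC f s ((a : ℚ), (p : ℚ) ^ n) = k * Ω := by
  have hpp : Prime (p : ℤ) := Nat.prime_iff_prime_int.1 hp
  obtain ⟨j, hj⟩ := exists_shift (N := N) hp hpN n a b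
  have hca : IsCoprime a ((p : ℤ) ^ n) := ((hpp.coprime_iff_not_dvd.2 ha).symm).pow_right
  have hcb : IsCoprime (b + j * (p : ℤ) ^ n) ((p : ℤ) ^ n) := by
    have : IsCoprime b ((p : ℤ) ^ n) := ((hpp.coprime_iff_not_dvd.2 hb).symm).pow_right
    exact this.add_mul_right_left j
  obtain ⟨δ, h0, h1⟩ := hca.exists_SL2_col 0
  obtain ⟨k, hk⟩ := Phi_term1 f hΩ (δ := δ) (g := 1) (X := b + j * (p : ℤ) ^ n)
    (Y := (p : ℤ) ^ n) one_ne_zero (by rw [sub_self]; exact dvd_zero _) hcb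
    (by rw [one_mul, h0]; exact hj) (by rw [one_mul, h1, sub_self]; exact dvd_zero _)
  rw [h0, h1] at hk
  refine ⟨k, ?_⟩
  have h2 : PhiC f s ((b : ℚ), (p : ℚ) ^ n) =
      PhiC f s ((b : ℚ) + j * (p : ℚ) ^ n, (p : ℚ) ^ n) := by
    unfold PhiC
    rw [PsiC_T]
  rw [h2]
  push_cast at hk
  rw [one_mul, one_mul] at hk
  linear_combination hk

lemma not_dvd_val {m : ℕ} (hp : p.Prime) [NeZero (p ^ m)] (hm : 1 ≤ m) (a : (ZMod (p ^ m))ˣ) :
    ¬ (p : ℤ) ∣ (((a : ZMod (p ^ m)).val : ℕ) : ℤ) := by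
  intro h
  have h1 : p ∣ (a : ZMod (p ^ m)).val := by exact_mod_cast h
  have h2 : ((a : ZMod (p ^ m)).val).Coprime (p ^ m) := by
    rw [← ZMod.isUnit_iff_coprime, ZMod.natCast_zmod_val]
    exact a.isUnit
  have h3 := Nat.dvd_gcd h1 (dvd_pow_self p (by omega : m ≠ 0))
  rw [h2] at h3
  exact hp.one_lt.ne' (Nat.dvd_one.1 h3)

/-- the symbol at a unit -/
noncomputable def Fu {N : ℕ} (f : CuspForm (Gamma0 N : Subgroup (GL (Fin 2) ℝ)) 2) (s : ℂ)
    {M : ℕ} (u : (ZMod M)ˣ) : ℂ := PhiC f s (((u : ZMod M).val : ℚ), (M : ℚ))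

lemma PsiC_neg_unit (hreal : ∀ n, (coef f n).im = 0) {M : ℕ} [NeZero M] (u : (ZMod M)ˣ) :
    PsiC f ((((-u : (ZMod M)ˣ) : ZMod M).val : ℚ), (M : ℚ)) =
      (starRingEnd ℂ) (PsiC f (((u : ZMod M).val : ℚ), (M : ℚ))) := by
  rw [← PsiC_conj f hreal, ← Int.cast_natCast (R := ℚ) (u : ZMod M).val,
    ← Int.cast_neg, ← PsiC_zmod f (M := M) (-(((u : ZMod M).val : ℕ) : ℤ))]
  congr 3
  push_cast
  rw [ZMod.natCast_zmod_val]

lemma Fu_neg (hreal : ∀ n, (coef f n).im = 0) {s : ℂ} (hs : s = 1 ∨ s = -1) {M : ℕ} [NeZero M]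
    (u : (ZMod M)ˣ) : Fu f s (-u) = s * Fu f s u := by
  have hss : s * s = 1 := by rcases hs with rfl | rfl <;> norm_num
  unfold Fu PhiC
  rw [PsiC_neg_unit f hreal, Complex.conj_conj]
  linear_combination (-(starRingEnd ℂ) (PsiC f (((u : ZMod M).val : ℚ), (M : ℚ)))) * hss

/-- the general construction -/
theorem exists_k_sigma {M : ℕ} [NeZero M] (hM : 2 < M) (hreal : ∀ n, (coef f n).im = 0) {s : ℂ}
    (hs : s = 1 ∨ s = -1) {Ω : ℂ} (hΩ0 : Ω ≠ 0) (σ : (ZMod M)ˣ → ℂ) (F1 : ℂ)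
    (ha : ∀ u, ∃ k : ℤ, Fu f s u - σ u * F1 = k * Ω) (hb : ∀ u, σ (-u) = s * σ u) :
    ∃ k : (ZMod M)ˣ → ℤ, (∀ u, Fu f s u - σ u * F1 = k u * Ω) ∧
      (∀ u, (k (-u) : ℂ) = s * k u) ∧
      ∀ χ : DirichletCharacter ℂ M, χ (-1) = s →
        ∑ u : (ZMod M)ˣ, χ⁻¹ (u : ZMod M) * σ u = 0 → SchiB f χ = Ω * Lh k χ := by
  have hss : s * s = 1 := by rcases hs with rfl | rfl <;> norm_num
  choose k hk using ha
  have hk2 : ∀ u, (k (-u) : ℂ) = s * k u := by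
    intro u
    apply mul_right_cancel₀ hΩ0
    have h1 := hk (-u)
    rw [Fu_neg f hreal hs, hb] at h1
    linear_combination s * hk u - h1
  refine ⟨k, hk, hk2, fun χ hχ hσ => ?_⟩
  have hinv : χ⁻¹ (-1) = s := chi_inv_neg hs hχ
  set P : (ZMod M)ˣ → ℂ := fun u => PsiC f (((u : ZMod M).val : ℚ), (M : ℚ)) with hP
  have hS : SchiB f χ = ∑ u : (ZMod M)ˣ, χ⁻¹ (u : ZMod M) * P u := rfl
  have h2 : ∑ u : (ZMod M)ˣ, χ⁻¹ (u : ZMod M) * (starRingEnd ℂ) (P u) = s * SchiB f χ := by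
    rw [hS, ← Equiv.sum_comp (Equiv.neg (ZMod M)ˣ), Finset.mul_sum]
    refine Finset.sum_congr rfl fun u _ => ?_
    have h1 : P (-u) = (starRingEnd ℂ) (P u) := PsiC_neg_unit f hreal u
    rw [Equiv.neg_apply, h1, Complex.conj_conj, Units.val_neg,
      ← neg_one_mul (u : ZMod M), map_mul, hinv]
    ring
  have h3 := two_Lh hM hs hk2 hχ
  have h4 : ∑ u : (ZMod M)ˣ, χ⁻¹ (u : ZMod M) * (Fu f s u - σ u * F1) =
      Ω * ∑ u : (ZMod M)ˣ, χ⁻¹ (u : ZMod M) * k u := by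
    rw [Finset.mul_sum]
    refine Finset.sum_congr rfl fun u _ => ?_
    rw [hk]
    ring
  have h6 : ∑ u : (ZMod M)ˣ, χ⁻¹ (u : ZMod M) * (Fu f s u - σ u * F1) =
      (∑ u : (ZMod M)ˣ, χ⁻¹ (u : ZMod M) * P u +
        s * ∑ u : (ZMod M)ˣ, χ⁻¹ (u : ZMod M) * (starRingEnd ℂ) (P u)) -
      F1 * ∑ u : (ZMod M)ˣ, χ⁻¹ (u : ZMod M) * σ u := by
    rw [Finset.mul_sum _ _ s, ← Finset.sum_add_distrib, Finset.mul_sum,
      ← Finset.sum_sub_distrib]
    refine Finset.sum_congr rfl fun u _ => ?_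
    have h7 : Fu f s u = P u + s * (starRingEnd ℂ) (P u) := rfl
    rw [h7]
    ring
  rw [h6, hσ, h2, ← hS, h3] at h4
  linear_combination (1 / 2 : ℂ) * h4 - (1 / 2 : ℂ) * SchiB f χ * hss

/-- a primitive character is nontrivial at the generator of the wild part -/
lemma primitive_gW_ne {e w : ℕ} (h : GoodW p e w) (t : ℕ)
    {χ : DirichletCharacter ℂ (p ^ (t + 1 + e))} (hχ : χ.IsPrimitive) :
    χ (gW h (t + 1) : ZMod (p ^ (t + 1 + e))) ≠ 1 := by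
  have hM0 : NeZero (p ^ (t + 1 + e)) := ⟨pow_ne_zero _ h.prime.ne_zero⟩
  have hM0' : NeZero (p ^ (t + e)) := ⟨pow_ne_zero _ h.prime.ne_zero⟩
  intro hone
  have hd : p ^ (t + e) ∣ p ^ (t + 1 + e) := pow_dvd_pow p (by omega)
  have hM1 : 1 < p ^ (t + 1 + e) := Nat.one_lt_pow (by omega) h.prime.one_lt
  have hft : χ.FactorsThrough (p ^ (t + e)) := by
    rw [DirichletCharacter.factorsThrough_iff_ker_unitsMap hd]
    intro u hu
    rw [MonoidHom.mem_ker] at hu ⊢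
    have hcast : ∀ x : ZMod (p ^ (t + 1 + e)), (x.cast : ZMod (p ^ (t + e))) =
      ZMod.castHom hd (ZMod (p ^ (t + e))) x := fun x => rfl
    have h1 : ZMod.castHom hd (ZMod (p ^ (t + e))) (u : ZMod (p ^ (t + 1 + e))) = 1 := by
      have h2 := congrArg (fun u : (ZMod (p ^ (t + e)))ˣ => (u : ZMod (p ^ (t + e)))) hu
      simp only [ZMod.unitsMap_val, Units.val_one] at h2
      rw [← hcast]
      exact h2
    have h3 : ((p : ℤ) ^ (t + e)) ∣ (((u : ZMod (p ^ (t + 1 + e))).val : ℕ) : ℤ) -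
        ((((1 : (ZMod (p ^ (t + 1 + e)))ˣ) : ZMod (p ^ (t + 1 + e))).val : ℕ) : ℤ) := by
      have h4 : (((((u : ZMod (p ^ (t + 1 + e))).val : ℕ) : ℤ) -
          ((((1 : (ZMod (p ^ (t + 1 + e)))ˣ) : ZMod (p ^ (t + 1 + e))).val : ℕ) : ℤ) : ℤ) :
          ZMod (p ^ (t + e))) = 0 := by
        have h5 : ∀ x : ZMod (p ^ (t + 1 + e)), ((x.val : ℕ) : ZMod (p ^ (t + e))) =
            ZMod.castHom hd (ZMod (p ^ (t + e))) x := by
          intro x
          rw [← map_natCast (ZMod.castHom hd (ZMod (p ^ (t + e)))) x.val, ZMod.natCast_zmod_val]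
        rw [Int.cast_sub, Int.cast_natCast, Int.cast_natCast, h5, h1, Units.val_one, h5, map_one,
          sub_self]
      rw [ZMod.intCast_zmod_eq_zero_iff_dvd] at h4
      push_cast at h4
      push_cast
      exact h4
    obtain ⟨j, hj⟩ := wild_kernel h t h3
    rw [one_mul] at hj
    apply Units.ext
    rw [MulChar.coe_toUnitHom, hj, Units.val_pow_eq_pow_val, Units.val_pow_eq_pow_val, map_pow,
      map_pow, hone, one_pow, one_pow, Units.val_one]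
  have h5 : χ.conductor ∣ p ^ (t + e) := χ.conductor_dvd_of_mem_conductorSet hft
  rw [hχ] at h5
  have h6 := (Nat.pow_dvd_pow_iff_le_right h.prime.one_lt).1 h5
  omega

/-- the integral functions -/
def IsKf {N : ℕ} (f : CuspForm (Gamma0 N : Subgroup (GL (Fin 2) ℝ)) 2) (s Ω : ℂ) (p m : ℕ)
    [NeZero (p ^ m)] (k : (ZMod (p ^ m))ˣ → ℤ) : Prop :=
  (∀ u v : (ZMod (p ^ m))ˣ, (p : ℤ) ^ (m - 1) ∣
      (((v : ZMod (p ^ m)).val : ℕ) : ℤ) - (((u : ZMod (p ^ m)).val : ℕ) : ℤ) →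
    Fu f s v - Fu f s u = (k v - k u : ℤ) * Ω) ∧
  (∀ u, (k (-u) : ℂ) = s * k u) ∧
  ∀ χ : DirichletCharacter ℂ (p ^ m), χ.IsPrimitive → χ (-1) = s → SchiB f χ = Ω * Lh k χ

/-- **the integral functions exist** -/
theorem exists_kf {e w : ℕ} (h : GoodW p e w) (hpN : ¬ p ∣ N) (t : ℕ)
    [NeZero (p ^ (t + 1 + e))] (hreal : ∀ n, (coef f n).im = 0) {s : ℂ}
    (hs : s = 1 ∨ s = -1) {Ω : ℂ} (hΩ0 : Ω ≠ 0)
    (hΩ : ∀ w : ℂ, (∃ c, IsPer1 f c ∧ w = c + s * (starRingEnd ℂ) c) ↔ ∃ k : ℤ, w = k * Ω) :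
    ∃ k : (ZMod (p ^ (t + 1 + e)))ˣ → ℤ, IsKf f s Ω p (t + 1 + e) k := by
  have hp := h.prime
  have he0 := h.e0
  have hss : s * s = 1 := by rcases hs with rfl | rfl <;> norm_num
  have hM : 2 < p ^ (t + 1 + e) :=
    lt_of_lt_of_le h.two (Nat.pow_le_pow_right h.prime.pos (Nat.le_add_left e _))
  have hd : p ^ e ∣ p ^ (t + 1 + e) := pow_dvd_pow p (by omega)
  have hr0 : NeZero (p ^ e) := ⟨pow_ne_zero _ hp.ne_zero⟩
  have hdiff : ∀ u v : (ZMod (p ^ (t + 1 + e)))ˣ, ∃ k : ℤ, Fu f s v - Fu f s u = k * Ω := by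
    intro u v
    obtain ⟨k, hk⟩ := Phi_cusp1 f hp hpN hΩ (not_dvd_val hp (by omega) u)
      (not_dvd_val hp (by omega) v) (t + 1 + e)
    refine ⟨k, ?_⟩
    rw [← hk]
    unfold Fu
    push_cast
    rfl
  set π : ZMod (p ^ (t + 1 + e)) →+* ZMod (p ^ e) := ZMod.castHom hd (ZMod (p ^ e)) with hπ
  set σ : (ZMod (p ^ (t + 1 + e)))ˣ → ℂ := fun u =>
    if 2 * (π (u : ZMod (p ^ (t + 1 + e)))).val < p ^ e then 1 else s with hσ
  have hσneg : ∀ u, σ (-u) = s * σ u := by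
    intro u
    rw [hσ]
    simp only [Units.val_neg, map_neg]
    set x : ZMod (p ^ e) := π (u : ZMod (p ^ (t + 1 + e))) with hx
    have hxu : IsUnit x := u.isUnit.map π
    have hcop : x.val.Coprime (p ^ e) := by
      rw [← ZMod.isUnit_iff_coprime, ZMod.natCast_zmod_val]
      exact hxu
    have hx0 : x.val ≠ 0 := by
      intro h0
      rw [h0, Nat.coprime_zero_left] at hcop
      have := h.two
      omega
    have hx0' : x ≠ 0 := fun h0 => hx0 (by rw [h0, ZMod.val_zero])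
    have hlt : x.val < p ^ e := ZMod.val_lt x
    have h2x : 2 * x.val ≠ p ^ e := by
      intro h2
      have h3 : x.val ∣ p ^ e := ⟨2, by linarith⟩
      have h4 : x.val = 1 := Nat.Coprime.eq_one_of_dvd hcop h3
      have := h.two
      omega
    have hnx : NeZero x := ⟨hx0'⟩
    have hneg : (-x).val = p ^ e - x.val := ZMod.val_neg_of_ne_zero x
    by_cases h1 : 2 * x.val < p ^ e
    · rw [if_pos h1, if_neg (by rw [hneg]; omega), mul_one]
    · rw [if_neg h1, if_pos (by rw [hneg]; omega), hss]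
  have ha : ∀ u : (ZMod (p ^ (t + 1 + e)))ˣ, ∃ k : ℤ, Fu f s u - σ u *
      Fu f s (1 : (ZMod (p ^ (t + 1 + e)))ˣ) = k * Ω := by
    intro u
    obtain ⟨k, hk⟩ := hdiff 1 u
    rw [hσ]
    simp only
    rcases hs with rfl | rfl
    · refine ⟨k, ?_⟩
      rw [ite_self]
      linear_combination hk
    · split_ifs with h
      · refine ⟨k, ?_⟩
        linear_combination hk
      · obtain ⟨k', hk'⟩ := hdiff (-1) 1
        rw [Fu_neg f hreal (Or.inr rfl)] at hk'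
        refine ⟨k + k', ?_⟩
        push_cast
        linear_combination hk + hk'
  obtain ⟨k, hk1, hk2, hk3⟩ := exists_k_sigma f hM hreal hs hΩ0 σ
    (Fu f s (1 : (ZMod (p ^ (t + 1 + e)))ˣ)) ha hσneg
  refine ⟨k, fun u v huv => ?_, hk2, fun χ hχ hχs => hk3 χ hχs ?_⟩
  · have h5 : π (v : ZMod (p ^ (t + 1 + e))) = π (u : ZMod (p ^ (t + 1 + e))) := by
      have h6 : ∀ x : ZMod (p ^ (t + 1 + e)), π x = ((x.val : ℕ) : ZMod (p ^ e)) := by
        intro x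
        rw [← map_natCast π x.val, ZMod.natCast_zmod_val]
      rw [h6, h6, ← sub_eq_zero]
      have h7 : ((((v : ZMod (p ^ (t + 1 + e))).val : ℤ) -
          ((u : ZMod (p ^ (t + 1 + e))).val : ℤ) : ℤ) : ZMod (p ^ e)) = 0 := by
        rw [ZMod.intCast_zmod_eq_zero_iff_dvd]
        push_cast
        refine dvd_trans (pow_dvd_pow (p : ℤ) ?_) huv
        omega
      push_cast at h7
      exact h7
    have h8 : σ v = σ u := by
      rw [hσ]
      simp only [h5]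
    have h9 := hk1 v
    rw [h8] at h9
    push_cast
    linear_combination h9 - hk1 u
  · have h5 := primitive_gW_ne h t hχ
    set u5 := gW h (t + 1) with hu5
    have h10 : ∑ u : (ZMod (p ^ (t + 1 + e)))ˣ, χ⁻¹ (u : ZMod (p ^ (t + 1 + e))) * σ u =
        χ⁻¹ (u5 : ZMod (p ^ (t + 1 + e))) *
          ∑ u : (ZMod (p ^ (t + 1 + e)))ˣ, χ⁻¹ (u : ZMod (p ^ (t + 1 + e))) * σ u := by
      conv_lhs => rw [← Equiv.sum_comp (Equiv.mulLeft u5)]
      rw [Finset.mul_sum]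
      refine Finset.sum_congr rfl fun u _ => ?_
      rw [Equiv.coe_mulLeft, Units.val_mul, map_mul]
      have h11 : σ (u5 * u) = σ u := by
        rw [hσ]
        simp only [Units.val_mul, map_mul]
        have h12 : π (u5 : ZMod (p ^ (t + 1 + e))) = 1 := by
          rw [hu5, gW_val, map_add, map_pow, map_one, map_natCast, ← Nat.cast_pow,
            ZMod.natCast_self, add_zero]
        rw [h12, one_mul]
      rw [h11]
      ring
    have h11 : χ⁻¹ (u5 : ZMod (p ^ (t + 1 + e))) ≠ 1 := by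
      rw [MulChar.inv_apply_eq_inv, Ring.inverse_eq_inv']
      intro h12
      exact h5 (inv_eq_one.1 h12)
    have h13 : (χ⁻¹ (u5 : ZMod (p ^ (t + 1 + e))) - 1) *
        ∑ u : (ZMod (p ^ (t + 1 + e)))ˣ, χ⁻¹ (u : ZMod (p ^ (t + 1 + e))) * σ u = 0 := by
      linear_combination -h10
    exact (mul_eq_zero.1 h13).resolve_left (sub_ne_zero.2 h11)

end Pool.Agent.H503.MG
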