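import Pool.Agent.H503.MU.IntA
import Pool.Agent.H503.TA.Lat

/-!
# The periods for `Γ₁(N)` and the integral symbol
-/

set_option autoImplicit false
set_option linter.unusedSectionVars false

open Complex UpperHalfPlane MatrixGroups CongruenceSubgroup Filter Topology ModularForm

namespace Pool.Agent.H503.MG

open Pool.Agent.H503.TA Pool.Agent.H503.MU

variable {N : ℕ} [NeZero N]
variable (f : CuspForm (Gamma0 N : Subgroup (GL (Fin 2) ℝ)) 2)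

/-- the periods for `Γ₁(N)` -/
def IsPer1 {N : ℕ} (f : CuspForm (Gamma0 N : Subgroup (GL (Fin 2) ℝ)) 2) (c : ℂ) : Prop :=
  ∃ γ ∈ Gamma1 N, ∀ τ : ℍ, prim f ((γ • τ : ℍ) : ℂ) = prim f (τ : ℂ) + c

lemma IsPer1.isPer {c : ℂ} (hc : IsPer1 f c) : IsPer f c := by
  obtain ⟨γ, hγ, h⟩ := hc
  exact ⟨γ, Gamma1_in_Gamma0 N hγ, h⟩

lemma isPer1_zero : IsPer1 f 0 := ⟨1, Subgroup.one_mem _, fun τ => by rw [one_smul, add_zero]⟩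

lemma IsPer1.add {c d : ℂ} (hc : IsPer1 f c) (hd : IsPer1 f d) : IsPer1 f (c + d) := by
  obtain ⟨γ, hγ, h1⟩ := hc
  obtain ⟨δ, hδ, h2⟩ := hd
  refine ⟨γ * δ, Subgroup.mul_mem _ hγ hδ, fun τ => ?_⟩
  rw [mul_smul, h1, h2]
  ring

lemma IsPer1.neg {c : ℂ} (hc : IsPer1 f c) : IsPer1 f (-c) := by
  obtain ⟨γ, hγ, h1⟩ := hc
  refine ⟨γ⁻¹, Subgroup.inv_mem _ hγ, fun τ => ?_⟩
  have h2 := h1 (γ⁻¹ • τ)
  rw [smul_inv_smul] at h2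
  rw [h2]
  ring

/-- powers -/
lemma per_pow {γ : SL(2, ℤ)} {c : ℂ} (hc : ∀ τ : ℍ, prim f ((γ • τ : ℍ) : ℂ) = prim f (τ : ℂ) + c)
    (n : ℕ) (τ : ℍ) : prim f ((γ ^ n • τ : ℍ) : ℂ) = prim f (τ : ℂ) + n * c := by
  induction n generalizing τ with
  | zero => simp
  | succ n ih =>
    rw [pow_succ', mul_smul, hc, ih]
    push_cast
    ring

/-- the generator for `Γ₁(N)` -/
theorem exists_generator1 {s : ℂ} {Ω : ℂ} (hΩ0 : Ω ≠ 0)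
    (hΩ : ∀ w : ℂ, (∃ c, IsPer f c ∧ w = c + s * (starRingEnd ℂ) c) ↔ ∃ k : ℤ, w = k * Ω) :
    ∃ Ω1 : ℂ, Ω1 ≠ 0 ∧
      ∀ w : ℂ, (∃ c, IsPer1 f c ∧ w = c + s * (starRingEnd ℂ) c) ↔ ∃ k : ℤ, w = k * Ω1 := by
  let T : AddSubgroup ℤ :=
    { carrier := {t | ∃ c, IsPer1 f c ∧ (t : ℂ) * Ω = c + s * (starRingEnd ℂ) c}
      zero_mem' := ⟨0, isPer1_zero f, by simp⟩
      add_mem' := by
        rintro a b ⟨c, hc, h1⟩ ⟨d, hd, h2⟩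
        refine ⟨c + d, hc.add f hd, ?_⟩
        push_cast
        rw [add_mul, h1, h2, map_add]
        ring
      neg_mem' := by
        rintro a ⟨c, hc, h1⟩
        refine ⟨-c, hc.neg f, ?_⟩
        push_cast
        rw [neg_mul, h1, map_neg]
        ring }
  obtain ⟨t0, ht0⟩ := Int.subgroup_cyclic T
  have hTmem : ∀ t : ℤ, (∃ c, IsPer1 f c ∧ (t : ℂ) * Ω = c + s * (starRingEnd ℂ) c) ↔
      ∃ k : ℤ, k * t0 = t := by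
    intro t
    have h1 := AddSubgroup.mem_closure_singleton (x := t0) (y := t)
    simp only [smul_eq_mul] at h1
    rw [← h1, ← ht0]
    exact Iff.rfl
  have ht00 : t0 ≠ 0 := by
    rintro rfl
    obtain ⟨c, ⟨γ, hγ, hc⟩, hw⟩ := (hΩ Ω).2 ⟨1, by simp⟩
    obtain ⟨n, hn0, hn⟩ : ∃ n : ℕ, 0 < n ∧ γ ^ n ∈ Gamma1 N := by
      have hfin : (Gamma1 N).index ≠ 0 := Subgroup.FiniteIndex.index_ne_zero
      obtain ⟨n, h1, _, h3⟩ := Subgroup.exists_pow_mem_of_index_ne_zero hfin γ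
      exact ⟨n, h1, h3⟩
    have h1 : IsPer1 f (n * c) := ⟨γ ^ n, hn, fun τ => per_pow f hc n τ⟩
    obtain ⟨k, hk⟩ := (hTmem n).1 ⟨n * c, h1, by
      rw [map_mul, Complex.conj_natCast]
      push_cast
      linear_combination (n : ℂ) * hw⟩
    rw [mul_zero] at hk
    omega
  refine ⟨(t0 : ℂ) * Ω, mul_ne_zero (by exact_mod_cast ht00) hΩ0, fun w => ⟨?_, ?_⟩⟩
  · rintro ⟨c, hc, rfl⟩
    obtain ⟨t, ht⟩ := (hΩ _).1 ⟨c, hc.isPer, rfl⟩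
    obtain ⟨k, hk⟩ := (hTmem t).1 ⟨c, hc, ht.symm⟩
    refine ⟨k, ?_⟩
    rw [ht, ← hk]
    push_cast
    ring
  · rintro ⟨k, rfl⟩
    obtain ⟨c, hc, h1⟩ := (hTmem (k * t0)).2 ⟨k, rfl⟩
    refine ⟨c, hc, ?_⟩
    rw [← h1]
    push_cast
    ring

/-- congruent columns -/
lemma cval_congr1 {δ δ' : SL(2, ℤ)} (h0 : (N : ℤ) ∣ δ' 0 0 - δ 0 0)
    (h1 : (N : ℤ) ∣ δ' 1 0 - δ 1 0) :
    ∃ c, IsPer1 f c ∧ cval f δ' = cval f δ + c := by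
  have hmul : ∀ (a b : SL(2, ℤ)) (i j : Fin 2), (a * b) i j = a i 0 * b 0 j + a i 1 * b 1 j := by
    intro a b i j
    rw [Matrix.SpecialLinearGroup.coe_mul, Matrix.mul_apply, Fin.sum_univ_two]
  have hinv : δ⁻¹ 0 0 = δ 1 1 ∧ δ⁻¹ 1 0 = -δ 1 0 ∧ δ⁻¹ 0 1 = -δ 0 1 ∧ δ⁻¹ 1 1 = δ 0 0 := by
    rw [Matrix.SpecialLinearGroup.SL2_inv_expl]
    simp
  have hd := det_eq δ
  have hd' := det_eq δ'
  obtain ⟨u, hu⟩ := h0
  obtain ⟨v, hv⟩ := h1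
  set j : ℤ := -(δ 1 1 * δ' 0 1 - δ 0 1 * δ' 1 1) with hj
  set γ : SL(2, ℤ) := δ' * ModularGroup.T ^ j * δ⁻¹ with hγ
  have hT : ∀ i k : Fin 2, (ModularGroup.T ^ j) i k = (!![1, j; 0, 1] : Matrix (Fin 2) (Fin 2) ℤ) i k := by
    intro i k
    rw [ModularGroup.coe_T_zpow]
  have hγ10 : (N : ℤ) ∣ γ 1 0 := by
    refine ⟨v * (δ 1 1 + δ' 1 1) + δ 1 1 * δ' 1 1 * (δ 1 0 * u - v * δ 0 0), ?_⟩
    rw [hγ, hmul, hmul, hmul, hinv.1, hinv.2.1, hT, hT, hT, hT]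
    simp only [Matrix.of_apply, Matrix.cons_val', Matrix.cons_val_zero, Matrix.cons_val_one,
      Matrix.cons_val_fin_one, mul_one, mul_zero, add_zero]
    rw [hj]
    linear_combination (δ 1 1 + δ' 1 1 - δ 1 1 * δ' 1 1 * δ 0 0) * hv +
      (δ 1 1 * δ' 1 1 * δ 1 0) * hu + (-δ 1 0 * δ 1 1) * hd' + (δ' 1 0 * δ' 1 1) * hd
  have hγ00 : (N : ℤ) ∣ γ 0 0 - 1 := by
    refine ⟨u * δ 1 1 - u * j * δ 1 0 + δ 0 1 * δ 1 0 * (u * δ' 1 1 - v * δ' 0 1), ?_⟩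
    rw [hγ, hmul, hmul, hmul, hinv.1, hinv.2.1, hT, hT, hT, hT]
    simp only [Matrix.of_apply, Matrix.cons_val', Matrix.cons_val_zero, Matrix.cons_val_one,
      Matrix.cons_val_fin_one, mul_one, mul_zero, add_zero]
    rw [hj]
    linear_combination (δ 1 1 + (δ 1 1 * δ' 0 1 - δ 0 1 * δ' 1 1) * δ 1 0 +
      δ 0 1 * δ 1 0 * δ' 1 1) * hu - (δ 0 1 * δ 1 0 * δ' 0 1) * hv +
      (δ' 0 1 * δ 1 0 + 1) * hd - (δ 0 1 * δ 1 0) * hd'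
  have hγ11 : (N : ℤ) ∣ γ 1 1 - 1 := by
    have h1 := det_eq γ
    obtain ⟨r, hr⟩ := hγ10
    obtain ⟨t, ht⟩ := hγ00
    refine ⟨γ 0 1 * r - t * γ 1 1, ?_⟩
    linear_combination h1 + γ 0 1 * hr - γ 1 1 * ht
  have hγN : γ ∈ Gamma1 N := by
    rw [Gamma1_mem]
    have e1 : ∀ z : ℤ, (N : ℤ) ∣ z - 1 → ((z : ℤ) : ZMod N) = 1 := by
      intro z hz
      have := (ZMod.intCast_zmod_eq_zero_iff_dvd (z - 1) N).2 hz
      push_cast at this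
      exact sub_eq_zero.1 this
    exact ⟨e1 _ hγ00, e1 _ hγ11, (ZMod.intCast_zmod_eq_zero_iff_dvd _ N).2 hγ10⟩
  obtain ⟨c, hc⟩ := prim_smul f (Gamma1_in_Gamma0 N hγN)
  refine ⟨c, ⟨γ, hγN, hc⟩, ?_⟩
  rw [← cval_mul f hc, hγ, inv_mul_cancel_right, cval_T]

end Pool.Agent.H503.MG
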