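import Pool.Agent.H503.MG.Inv

/-!
# Multiplicativity by squares
-/

set_option autoImplicit false
set_option linter.unusedSectionVars false

namespace Pool.Agent.H503.MG

variable {R : Type*} [CommRing R]

/-- the transformed symbol -/
def Dual (N : ℕ) (Ψ : ℚ × ℚ → R) (z : ℚ × ℚ) : R := Ψ (-z.2, N * z.1) - Ψ (0, 1)

section
variable {N p U : ℕ} (hp : p.Prime) {Ψ : ℚ × ℚ → R} (hΨ : IsT N p U Ψ)
variable (hU : ∃ K : ℕ, U = p ^ (K + 1))

include hΨ in
/-- the second column -/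
lemma E_col {a b c d : ℤ} (hdet : a * d - b * c = 1) (hc : (N : ℤ) ∣ c) :
    E Ψ b d = E Ψ 0 1 + E Ψ a c := by
  have h := E_mul hΨ hdet hc (x := 0) (y := 1) (by simp)
  rw [← h]
  congr 1 <;> ring

include hp hΨ hU in
/-- the transformed symbol has the same properties -/
theorem isT_dual (hN : N ≠ 0) : IsT N p U (Dual N Ψ) := by
  have hNq : (N : ℚ) ≠ 0 := by exact_mod_cast hN
  have hNz : (N : ℤ) ≠ 0 := by exact_mod_cast hN
  refine ⟨?_, ?_, ?_, ?_⟩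
  · intro t x y ht
    unfold Dual
    simp only
    rw [← hΨ.hom t (-y) (N * x) ht]
    congr 3
    · ring
    · ring
  · intro x hx
    unfold Dual
    simp only [neg_zero]
    have h1 := hΨ.hom (N * x) 0 1 (mul_ne_zero hNq hx)
    rw [mul_zero, mul_one] at h1
    rw [h1, sub_self]
  · intro a b c d hdet hc
    obtain ⟨c1, rfl⟩ := hc
    obtain ⟨w, hw⟩ := hΨ.inv d (-c1) (-(N * b)) a (by linear_combination hdet)
      ⟨-b, by ring⟩
    refine ⟨w, fun x y hxy => ?_⟩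
    have hne : (-y, (N : ℚ) * x) ≠ (0 : ℚ × ℚ) := by
      intro h
      rw [Prod.mk_eq_zero] at h
      apply hxy
      rw [Prod.mk_eq_zero]
      exact ⟨(mul_eq_zero.1 h.2).resolve_left hNq, neg_eq_zero.1 h.1⟩
    have h1 := hw (-y) (N * x) hne
    unfold Dual
    simp only
    have h2 : ((-(((N * c1 : ℤ) : ℚ) * x + d * y), (N : ℚ) * (a * x + b * y)) : ℚ × ℚ) =
        ((d : ℚ) * -y + ((-c1 : ℤ) : ℚ) * (N * x), ((-(N * b) : ℤ) : ℚ) * -y + a * (N * x)) := by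
      push_cast
      ext <;> simp only <;> ring
    rw [h2, h1]
    ring
  · intro a c hac hc ha
    obtain ⟨c1, rfl⟩ := hc
    have h1 : IsCoprime a ((U : ℤ) * (N * c1)) := by
      have := (cop_pow hp hU ha 1).mul_right hac
      rwa [pow_one] at this
    obtain ⟨d, b, hbd⟩ := h1
    -- `d a + b (U N c1) = 1`
    have hd : ¬ (p : ℤ) ∣ d := by
      intro hpd
      obtain ⟨K, rfl⟩ := hU
      have h2 : (p : ℤ) ∣ 1 := by
        rw [← hbd]
        refine dvd_add (hpd.mul_right _) (Dvd.dvd.mul_left (Dvd.dvd.mul_right ?_ _) _)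
        push_cast
        exact dvd_pow_self _ (Nat.succ_ne_zero K)
      exact (Nat.prime_iff_prime_int.1 hp).not_isUnit (isUnit_of_dvd_one h2)
    have h2 : E Ψ (-(U * c1)) a = E Ψ 0 1 + E Ψ d (N * b) :=
      E_col hΨ (a := d) (b := -(U * c1)) (c := N * b) (d := a)
        (by linear_combination hbd) (dvd_mul_right _ _)
    have h3 : E Ψ (-c1) a = E Ψ 0 1 + E Ψ d (U * (N * b)) :=
      E_col hΨ (a := d) (b := -c1) (c := U * (N * b)) (d := a)
        (by linear_combination hbd) ⟨U * b, by ring⟩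
    have h4 : E Ψ d (U * (N * b)) = E Ψ d (N * b) := by
      have hcop : IsCoprime d (N * b) := ⟨a, U * c1, by linear_combination hbd⟩
      have h5 := hΨ.scale d (N * b) hcop (dvd_mul_right _ _) hd
      unfold E
      exact h5
    have h5 : E Ψ (-(U * c1)) a = E Ψ (-c1) a := by rw [h2, h3, h4]
    unfold Dual
    simp only
    have h6 : Ψ (-(((U * (N * c1) : ℤ) : ℚ)), (N : ℚ) * a) = E Ψ (-(U * c1)) a := by
      unfold E
      rw [← hΨ.hom N (((-(U * c1) : ℤ) : ℚ)) (a : ℚ) hNq]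
      congr 2
      push_cast
      ring
    have h7 : Ψ (-(((N * c1 : ℤ) : ℚ)), (N : ℚ) * a) = E Ψ (-c1) a := by
      unfold E
      rw [← hΨ.hom N (((-c1 : ℤ) : ℚ)) (a : ℚ) hNq]
      congr 2
      push_cast
      ring
    rw [h6, h7, h5]

include hp hΨ hU in
/-- invariance under lower triangular matrices with denominators -/
theorem inv_lo (hN : N ≠ 0) {μ : ℕ} (hμ : μ.Prime) (hμp : μ ≠ p)
    (hμU : ¬ (μ : ℤ) ∣ (U : ℤ) ^ (2 * N) - 1) {d b1 : ℤ}
    (h : IsCoprime d (N * μ ^ 3 * b1)) (m : ℤ) :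
    E Ψ (μ ^ 3 * b1) (d + m * (N * μ ^ 2 * b1)) = E Ψ (μ ^ 3 * b1) d := by
  have hNq : (N : ℚ) ≠ 0 := by exact_mod_cast hN
  have hcop : IsCoprime d (N * μ ^ 3 * (-b1)) := by
    rw [mul_neg]
    exact h.neg_right
  have h1 := inv_up hp (isT_dual hp hΨ hU hN) hU hN hμ hμp hμU (a := d) (c2 := -b1) hcop (-m)
  unfold E Dual at h1
  simp only [sub_left_inj] at h1
  unfold E
  rw [← hΨ.hom N _ _ hNq, ← hΨ.hom N ((μ ^ 3 * b1 : ℤ) : ℚ) (d : ℚ) hNq]
  convert h1 using 2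
  · push_cast
    ext <;> simp only <;> ring
  · push_cast
    ext <;> simp only <;> ring

include hp hΨ hU in
/-- invariance under the diagonal matrix of `μ` -/
theorem inv_dg (hN : N ≠ 0) {μ : ℕ} (hμ : μ.Prime) (hμp : μ ≠ p) (hμN : (N : ℤ) ∣ μ - 1)
    (hμU : ¬ (μ : ℤ) ∣ (U : ℤ) ^ (2 * N) - 1) {a c2 : ℤ}
    (h : IsCoprime a (N * μ * c2)) (ha : (μ : ℤ) ∣ a - 1) :
    E Ψ a (μ ^ 2 * (N * μ * c2)) = E Ψ a (N * μ * c2) := by
  have hμP : Prime (μ : ℤ) := Nat.prime_iff_prime_int.1 hμ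
  set C : ℤ := N * μ * c2 with hC
  have hμa : IsCoprime a (μ : ℤ) := IsCoprime.of_isCoprime_of_dvd_right h ⟨N * c2, by rw [hC]; ring⟩
  have hcop : IsCoprime a ((μ : ℤ) ^ 3 * C) := hμa.pow_right.mul_right h
  obtain ⟨d, b, hbd⟩ := hcop
  -- `d a + b (μ³ C) = 1`, the matrix is `(a, -μ b; μ² C, d)`
  obtain ⟨a1, ha1⟩ := ha
  have hdμ : (μ : ℤ) ∣ d - 1 := by
    have h1 : d - 1 = μ * (-(d * a1) - b * μ ^ 2 * C) := by
      linear_combination hbd - d * ha1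
    exact ⟨_, h1⟩
  obtain ⟨d1, hd1⟩ := hdμ
  obtain ⟨m, hm⟩ := hμN
  set b1 : ℤ := -b with hb1
  have hdet : a * d - b1 * μ ^ 3 * C = 1 := by
    rw [hb1]
    linear_combination hbd
  -- the first matrix
  have e1 : E Ψ (a + (-1) * (N * μ ^ 2 * c2)) (N * μ ^ 3 * c2) = E Ψ a (N * μ ^ 3 * c2) := by
    refine inv_up hp hΨ hU hN hμ hμp hμU ?_ (-1)
    have h1 : (N * μ ^ 3 * c2 : ℤ) = μ ^ 2 * C := by rw [hC]; ring
    rw [h1]
    exact hμa.pow_right.mul_right h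
  have f1 : a + (-1) * (N * μ ^ 2 * c2) = a - μ * C := by rw [hC]; ring
  have f2 : (N * μ ^ 3 * c2 : ℤ) = μ ^ 2 * C := by rw [hC]; ring
  rw [f1, f2] at e1
  -- the second matrix
  set y : ℤ := (μ : ℤ) - 1 with hy
  have hNC : (N : ℤ) ∣ C := ⟨μ * c2, by rw [hC]; ring⟩
  have hyN : (N : ℤ) ∣ y := ⟨m, hm⟩
  set δ : ℤ := a1 - d1 with hδ
  have hδ' : a - d = μ * δ := by
    rw [hδ]
    linear_combination ha1 - hd1
  set C2 : ℤ := y * a + μ * C - y * (y * (μ * b1) + y * δ + d + C) with hC2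
  have hNC2 : (N : ℤ) ∣ C2 := by
    rw [hC2]
    exact dvd_sub (dvd_add (hyN.mul_right _) (hNC.mul_left _)) (hyN.mul_right _)
  have hdet2 : (a - y * (μ * (μ * b1))) * (d + y * (μ * (μ * b1))) - μ ^ 2 * (μ * b1) * C2 = 1 := by
    rw [hC2]
    have hy' : (μ : ℤ) = y + 1 := by rw [hy]; ring
    have ha' : a = d + μ * δ := by linear_combination hδ'
    rw [ha'] at hdet ⊢
    rw [hy'] at hdet ⊢
    linear_combination hdet
  have e2 : E Ψ (μ ^ 2 * (μ * b1)) (d + y * (μ * (μ * b1))) =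
      E Ψ 0 1 + E Ψ (a - y * (μ * (μ * b1))) C2 := E_col hΨ hdet2 hNC2
  have hdet3 : a * d - μ ^ 2 * (μ * b1) * C = 1 := by linear_combination hdet
  have e3 : E Ψ (μ ^ 2 * (μ * b1)) d = E Ψ 0 1 + E Ψ a C := E_col hΨ hdet3 hNC
  -- the lower triangular matrix
  have e4 : E Ψ (μ ^ 3 * b1) (d + m * (N * μ ^ 2 * b1)) = E Ψ (μ ^ 3 * b1) d := by
    refine inv_lo hp hΨ hU hN hμ hμp hμU ?_ m
    have hd1' : IsCoprime d (N * μ ^ 3 * b1 * (μ * c2)) := ⟨a, -1, by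
      rw [hC] at hdet
      linear_combination hdet⟩
    exact IsCoprime.of_isCoprime_of_dvd_right hd1' (dvd_mul_right _ _)
  have f3 : d + m * (N * μ ^ 2 * b1) = d + y * (μ * (μ * b1)) := by
    linear_combination (-(μ : ℤ) ^ 2 * b1) * hm
  have f4 : (μ : ℤ) ^ 3 * b1 = μ ^ 2 * (μ * b1) := by ring
  rw [f3, f4] at e4
  -- conjugation
  have hg : (μ : ℤ) * 1 - 1 * y = 1 := by rw [hy]; ring
  have hne1 : a - μ * C ≠ 0 ∨ μ ^ 2 * C ≠ 0 := by
    by_contra hcon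
    push Not at hcon
    obtain ⟨h1, h2⟩ := hcon
    have h3 : C = 0 := (mul_eq_zero.1 h2).resolve_left (pow_ne_zero _ hμP.ne_zero)
    rw [h3] at h1 hdet
    have h4 : a = 0 := by simpa using h1
    rw [h4] at hdet
    simp at hdet
  have e5 := E_mul hΨ (a := μ) (b := 1) (c := y) (d := 1) (by linear_combination hg) hyN hne1
  have e6 := E_mul hΨ (x := μ) (y := y) hdet2 hNC2 (Or.inl hμP.ne_zero)
  have f5 : (μ : ℤ) * (a - μ * C) + 1 * (μ ^ 2 * C) =
      (a - y * (μ * (μ * b1))) * μ + μ ^ 2 * (μ * b1) * y := by ring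
  have f6 : y * (a - μ * C) + 1 * (μ ^ 2 * C) = C2 * μ + (d + y * (μ * (μ * b1))) * y := by
    rw [hC2]
    have hy' : (μ : ℤ) = y + 1 := by rw [hy]; ring
    have ha' : a = d + μ * δ := by linear_combination hδ'
    rw [ha', hy']
    ring
  rw [f5, f6, e6] at e5
  have e7 : E Ψ (a - y * (μ * (μ * b1))) C2 = E Ψ (a - μ * C) (μ ^ 2 * C) := by
    linear_combination e5
  rw [← e1, ← e7]
  linear_combination e4 - e2 + e3

end

end Pool.Agent.H503.MG
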