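import Pool.Agent.H503.MG.Ord

/-!
# Symbols at good ordinary primes: the periods for `Γ₁(N)` vanish
-/

set_option autoImplicit false
set_option linter.unusedSectionVars false

namespace Pool.Agent.H503.MG

open Pool.Agent.H503.MB

variable {R : Type*} [CommRing R]

section
variable {p N : ℕ} (hp : p.Prime) {Ψ : ℚ × ℚ → R} {α β : R} (hΨ : IsOrd p N Ψ α β)

include hΨ hp in
/-- the stabilised symbol vanishes at the cusps with denominator divisible by `p N` -/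
theorem ord_zero (hpN : ¬ p ∣ N) {J0 : ℕ} (hnil : (p : R) ^ J0 = 0) {a b c d : ℤ}
    (hdet : a * d - b * c = 1) (hc : (p : ℤ) * N ∣ c) : P p Ψ β ((a : ℚ), (c : ℚ)) = 0 := by
  have hpp : Prime (p : ℤ) := Nat.prime_iff_prime_int.1 hp
  have hp0 : (p : ℚ) ≠ 0 := by exact_mod_cast hp.ne_zero
  by_cases hc0 : c = 0
  · rw [hc0]
    push_cast
    exact P_inf hΨ _
  have hpc : (p : ℤ) ∣ c := (dvd_mul_right _ _).trans hc
  have hNc : (N : ℤ) ∣ c := (dvd_mul_left _ _).trans hc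
  have hpd : ¬ (p : ℤ) ∣ d := by
    intro h1
    apply hpp.not_isUnit
    apply isUnit_of_dvd_one
    rw [← hdet]
    exact dvd_sub (h1.mul_left _) (hpc.mul_left _)
  have hpa : ¬ (p : ℤ) ∣ a := by
    intro h1
    apply hpp.not_isUnit
    apply isUnit_of_dvd_one
    rw [← hdet]
    exact dvd_sub (h1.mul_right _) (hpc.mul_left _)
  -- the prime to `p` part of `c`
  obtain ⟨e, c', hc', he⟩ : ∃ (e : ℕ) (c' : ℤ), ¬ (p : ℤ) ∣ c' ∧ c = (p : ℤ) ^ e * c' := by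
    have := (Int.finiteMultiplicity_iff.2 ⟨(by
      rw [Int.natAbs_natCast]
      exact hp.one_lt.ne'), hc0⟩ : FiniteMultiplicity (p : ℤ) c).exists_eq_pow_mul_and_not_dvd
    obtain ⟨c', h1, h2⟩ := this
    exact ⟨_, c', h2, h1⟩
  have hcd : ¬ (p : ℤ) ∣ c' * d := fun h => (hpp.dvd_or_dvd h).elim hc' hpd
  -- the exponent
  set M : ℕ := (c' * d).natAbs with hM
  have hpM : Nat.Coprime p M := by
    rw [Nat.Prime.coprime_iff_not_dvd hp, hM, ← Int.natCast_dvd]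
    exact hcd
  set k0 : ℕ := M.totient with hk0
  have hM0 : 0 < M := by
    rw [hM, Int.natAbs_pos]
    intro h
    rw [h] at hcd
    exact hcd (dvd_zero _)
  have hk0pos : 0 < k0 := Nat.totient_pos.2 hM0
  have hpow : (c' * d) ∣ (p : ℤ) ^ k0 - 1 := by
    have h1 := Nat.ModEq.pow_totient hpM
    have h2 : ((M : ℕ) : ℤ) ∣ (p : ℤ) ^ k0 - 1 := by
      have h3 := (Nat.modEq_iff_dvd.1 h1.symm)
      push_cast at h3
      exact h3
    have h4 : (c' * d) ∣ ((M : ℕ) : ℤ) := by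
      rw [hM]
      exact Int.dvd_natAbs.2 dvd_rfl
    exact h4.trans h2
  obtain ⟨m2, hm2⟩ := hpow
  have hpm2 : ¬ (p : ℤ) ∣ m2 := by
    intro h
    have h1 : (p : ℤ) ∣ (p : ℤ) ^ k0 - 1 := by
      rw [hm2]
      exact h.mul_left _
    have h2 : (p : ℤ) ∣ (p : ℤ) ^ k0 := dvd_pow_self _ hk0pos.ne'
    have h3 := dvd_sub h2 h1
    rw [sub_sub_cancel] at h3
    exact hpp.not_isUnit (isUnit_of_dvd_one h3)
  -- the numbers `(p^(k0 j) - 1) / (c' d)`
  have hmj : ∀ j : ℕ, ∃ m : ℤ, (p : ℤ) ^ (k0 * j) - 1 = c' * d * m := by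
    intro j
    have h1 : (p : ℤ) ^ k0 - 1 ∣ (p : ℤ) ^ (k0 * j) - 1 := by
      rw [pow_mul]
      exact sub_one_dvd_pow_sub_one _ _
    rw [hm2] at h1
    exact (dvd_mul_right _ _).trans h1
  choose m hm using hmj
  have hfixm : ∀ j, Fix p N Ψ β a c ((m j : ℚ) / (p : ℚ) ^ e) := fun j =>
    Fix_gen hp hΨ hpN hdet hNc he (hm j)
  have hcd0 : c' * d ≠ 0 := fun h => hcd (h ▸ dvd_zero _)
  have hdiff : ∀ j, m (j + 1) - m j = (p : ℤ) ^ (k0 * j) * m2 := by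
    intro j
    apply mul_left_cancel₀ hcd0
    have h1 : (p : ℤ) ^ (k0 * (j + 1)) = (p : ℤ) ^ (k0 * j) * (p : ℤ) ^ k0 := by
      rw [← pow_add]
      congr 1
    linear_combination (hm (j + 1)).symm.symm * (-1) + (hm j) + h1 + (p : ℤ) ^ (k0 * j) * hm2
  have hfix2 : ∀ (n : ℕ) (s : ℤ), Fix p N Ψ β a c ((p : ℚ) ^ n * m2 * s) := by
    intro n s
    set j := (n + e) / k0 with hj
    set r := (n + e) % k0 with hr
    have hjr : n + e = k0 * j + r := (Nat.div_add_mod _ _).symm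
    have h1 := Fix_add hp hΨ (hfixm (j + 1)) (Fix_neg hp hΨ (hfixm j))
    have h2 := Fix_mul hp hΨ h1 ((p : ℤ) ^ r * s)
    have h3 : (((p : ℤ) ^ r * s : ℤ) : ℚ) * ((m (j + 1) : ℚ) / (p : ℚ) ^ e + -((m j : ℚ) / (p : ℚ) ^ e)) =
        (p : ℚ) ^ n * m2 * s := by
      have h4 : (m (j + 1) : ℚ) - m j = (p : ℚ) ^ (k0 * j) * m2 := by
        exact_mod_cast congrArg (fun n : ℤ => (n : ℚ)) (hdiff j)
      have h5 : (p : ℚ) ^ n * (p : ℚ) ^ e = (p : ℚ) ^ (k0 * j) * (p : ℚ) ^ r := by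
        rw [← pow_add, ← pow_add, hjr]
      push_cast
      field_simp
      linear_combination ((p : ℚ) ^ r * s) * h4 - ((m2 : ℚ) * s) * h5
    rw [← h3]
    exact h2
  -- the recursion
  have hcq : (c : ℚ) ≠ 0 := by exact_mod_cast hc0
  have hstep : ∀ n : ℕ, α * Q p Ψ β ((a : ℚ), (p : ℚ) ^ n * c) =
      p * Q p Ψ β ((a : ℚ), (p : ℚ) ^ (n + 1) * c) := by
    intro n
    have hne : ((a : ℚ), (p : ℚ) ^ n * c) ≠ (0 : ℚ × ℚ) := by
      intro h
      rw [Prod.mk_eq_zero] at h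
      exact mul_ne_zero (pow_ne_zero _ hp0) hcq h.2
    rw [← Q_U hp hΨ hne]
    have hterm : ∀ i ∈ Finset.range p, Q p Ψ β ((a : ℚ) + i * ((p : ℚ) ^ n * c), p * ((p : ℚ) ^ n * c)) =
        Q p Ψ β ((a : ℚ), (p : ℚ) ^ (n + 1) * c) := by
      intro i _
      obtain ⟨t, s, hts⟩ : ∃ t s : ℤ, (i : ℤ) = p * t + m2 * s := by
        obtain ⟨u, v, huv⟩ := hpp.coprime_iff_not_dvd.2 hpm2
        exact ⟨u * i, v * i, by linear_combination (-(i : ℤ)) * huv⟩
      have htsq : (i : ℚ) = p * t + m2 * s := by exact_mod_cast congrArg (fun n : ℤ => (n : ℚ)) hts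
      have h1 := (hfix2 n s).2 1 0 0 ((p : ℤ) ^ (n + 1)) (n + 1) (by ring) (dvd_zero _)
      push_cast at h1
      simp only [one_mul, zero_mul, add_zero, zero_add] at h1
      rw [← h1]
      have hne2 : ((a : ℚ) + (p : ℚ) ^ n * m2 * s * c, (p : ℚ) ^ (n + 1) * c) ≠ (0 : ℚ × ℚ) := by
        intro h
        rw [Prod.mk_eq_zero] at h
        exact mul_ne_zero (pow_ne_zero _ hp0) hcq h.2
      have h2 := Q_T hp hΨ t hne2
      rw [← h2]
      congr 1
      rw [htsq]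
      ext
      · simp only
        ring
      · simp only
        ring
    rw [Finset.sum_congr rfl hterm, Finset.sum_const, Finset.card_range, nsmul_eq_mul]
  have hiter : ∀ n : ℕ, Q p Ψ β ((a : ℚ), (c : ℚ)) =
      (β * p) ^ n * Q p Ψ β ((a : ℚ), (p : ℚ) ^ n * c) := by
    intro n
    induction n with
    | zero => simp
    | succ n ih =>
      rw [ih, pow_succ]
      have h1 := hstep n
      have h2 := hΨ.unit
      linear_combination (β * p) ^ n * (β * h1 - Q p Ψ β ((a : ℚ), (p : ℚ) ^ n * c) * h2)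
  have h1 := hiter J0
  rw [mul_pow, hnil, mul_zero, zero_mul] at h1
  unfold Q at h1
  have h2 : ¬ Pint p (((a : ℚ), (c : ℚ)) : ℚ × ℚ) := by
    have := not_Pint hp (a := a) (c := c) (t := 1) one_ne_zero hpa hpc
    simpa using this
  rw [J_zero h2, mul_zero, add_zero] at h1
  exact h1

include hΨ hp in
/-- the scaling relation on the orbit of infinity -/
theorem ord_beta (hpN : ¬ p ∣ N) {J0 : ℕ} (hnil : (p : R) ^ J0 = 0) {a c : ℤ}
    (hac : IsCoprime a c) (hc : (N : ℤ) ∣ c) (ha : ¬ (p : ℤ) ∣ a) :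
    E Ψ a (p * c) = β * E Ψ a c := by
  have hpp : Prime (p : ℤ) := Nat.prime_iff_prime_int.1 hp
  have hp0 : (p : ℚ) ≠ 0 := by exact_mod_cast hp.ne_zero
  have h1 : IsCoprime a (p * c) := (hpp.coprime_iff_not_dvd.2 ha).symm.mul_right hac
  obtain ⟨d, b, hbd⟩ := h1
  have h2 := ord_zero hp hΨ hpN hnil (a := a) (b := -b) (c := p * c) (d := d)
    (by linear_combination hbd) (mul_dvd_mul_left _ hc)
  unfold P at h2
  simp only at h2
  have h3 : Ψ ((p : ℚ) * a, ((p * c : ℤ) : ℚ)) = Ψ ((a : ℚ), (c : ℚ)) := by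
    rw [← hΨ.hom p (a : ℚ) (c : ℚ) hp0]
    push_cast
    rfl
  rw [h3] at h2
  unfold E
  exact sub_eq_zero.1 h2

include hΨ hp in
/-- **the periods for `Γ₁(N)` vanish** -/
theorem ord_final (hN : N ≠ 0) (hpN : ¬ p ∣ N) {J0 : ℕ} (hnil : (p : R) ^ J0 = 0)
    {K : ℕ} (hK : β ^ (K + 1) = 1) {a c : ℤ}
    (hac : IsCoprime a c) (hc : (N : ℤ) ∣ c) (ha : (N : ℤ) ∣ a - 1) :
    Ψ ((a : ℚ), (c : ℚ)) = 0 := by
  have hpp : Prime (p : ℤ) := Nat.prime_iff_prime_int.1 hp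
  have hβ : ∀ a c : ℤ, IsCoprime a c → (N : ℤ) ∣ c → ¬ (p : ℤ) ∣ a →
      E Ψ a (p * c) = β * E Ψ a c := fun a c h1 h2 h3 => ord_beta hp hΨ hpN hnil h1 h2 h3
  have hβk : ∀ (k : ℕ) (a c : ℤ), IsCoprime a c → (N : ℤ) ∣ c → ¬ (p : ℤ) ∣ a →
      E Ψ a (p ^ k * c) = β ^ k * E Ψ a c := by
    intro k
    induction k with
    | zero => intro a c _ _ _; rw [pow_zero, pow_zero, one_mul, one_mul]
    | succ k ih =>
      intro a c h1 h2 h3
      have h4 : IsCoprime a ((p : ℤ) ^ k * c) :=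
        (hpp.coprime_iff_not_dvd.2 h3).symm.pow_right.mul_right h1
      have h5 := hβ a (p ^ k * c) h4 (h2.mul_left _) h3
      have h6 : (p : ℤ) ^ (k + 1) * c = p * (p ^ k * c) := by ring
      rw [h6, h5, ih a c h1 h2 h3, pow_succ]
      ring
  have hT : IsT N p (p ^ (K + 1)) Ψ := by
    refine ⟨hΨ.hom, fun x _ => hΨ.inf x, hΨ.inv, fun a c h1 h2 h3 => ?_⟩
    have h4 := hβk (K + 1) a c h1 h2 h3
    rw [hK, one_mul] at h4
    unfold E at h4
    rw [← h4]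
    push_cast
    rfl
  exact zero_of_T hp hT ⟨K, rfl⟩ hN hpN hnil hβ hac hc ha

end

end Pool.Agent.H503.MG
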