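import Pool.Agent.H503.MG.Int
import Pool.Agent.H503.MG.OrdF
import Pool.Agent.H503.MB.NC

/-!
# The values at the cusps `a / p^n` modulo `p D` at a good ordinary prime
-/

set_option autoImplicit false
set_option linter.unusedSectionVars false

open Pool.Agent.H503.MU Pool.Agent.H503.MB

namespace Pool.Agent.H503.MG

/-- the unit root -/
lemma exists_beta {p : ℕ} (hp : p.Prime) {cp : ℤ} (hcp : ¬ (p : ℤ) ∣ cp) (v : ℕ) :
    ∃ α β : ZMod (p ^ (v + 1)), α * β = 1 ∧ α + p * β = cp := by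
  have hpp : Prime (p : ℤ) := Nat.prime_iff_prime_int.1 hp
  have hu : IsUnit ((cp : ℤ) : ZMod (p ^ (v + 1))) := by
    rw [ZMod.coe_int_isUnit_iff_isCoprime]
    push_cast
    exact (hpp.coprime_iff_not_dvd.2 hcp).pow_left
  obtain ⟨u, hu⟩ := hu.exists_left_inv
  have key : ∀ n : ℕ, ∃ b r : ZMod (p ^ (v + 1)), cp * b = 1 + p * b ^ 2 + (p : ZMod (p ^ (v + 1))) ^ n * r := by
    intro n
    induction n with
    | zero => exact ⟨0, -1, by ring⟩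
    | succ n ih =>
      obtain ⟨b, r, hb⟩ := ih
      refine ⟨b - u * (p ^ n * r), 2 * b * (u * r) - u ^ 2 * p ^ n * r ^ 2, ?_⟩
      linear_combination hb - (p : ZMod (p ^ (v + 1))) ^ n * r * hu
  obtain ⟨b, r, hb⟩ := key (v + 1)
  have h0 : ((p : ℕ) : ZMod (p ^ (v + 1))) ^ (v + 1) = 0 := by
    rw [← Nat.cast_pow]
    exact ZMod.natCast_self _
  rw [h0, zero_mul, add_zero] at hb
  exact ⟨cp - p * b, b, by linear_combination hb, by ring⟩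

variable {p N : ℕ} {D : ℤ} {K : ℚ × ℚ → ℤ} (hK : IsIntSym1 N D K) (hp : p.Prime) (hpN : ¬ p ∣ N)

include hK in
lemma K_T1 (x y : ℚ) (n : ℤ) : K (x + n * y, y) = K (x, y) := by
  by_cases hz : ((x, y) : ℚ × ℚ) = 0
  · rw [Prod.mk_eq_zero] at hz
    rw [hz.1, hz.2, mul_zero, add_zero]
  · obtain ⟨w, hw⟩ := hK.inv 1 n 0 1 (by ring) (dvd_zero _)
    have h1 := hw 1 0 (by simp)
    have h2 := hw x y hz
    push_cast at h1 h2
    rw [one_mul, mul_zero, add_zero, zero_mul, one_mul, add_zero, hK.inf, zero_add] at h1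
    rw [one_mul, zero_mul, zero_add, one_mul, ← h1, add_zero] at h2
    exact h2

include hK in
lemma K_congr1 {a a' : ℤ} {n : ℕ} (h : (p : ℤ) ^ n ∣ a' - a) :
    K ((a' : ℚ), (p : ℚ) ^ n) = K ((a : ℚ), (p : ℚ) ^ n) := by
  obtain ⟨t, ht⟩ := h
  have h1 := K_T1 hK (a : ℚ) ((p : ℚ) ^ n) t
  rw [← h1]
  congr 2
  have : (a' : ℚ) - a = (p : ℚ) ^ n * t := by exact_mod_cast congrArg (fun n : ℤ => (n : ℚ)) ht
  linear_combination this

/-- adjusting a numerator modulo `N` -/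
lemma exists_shift (hp : p.Prime) (hpN : ¬ p ∣ N) (n : ℕ) (a b : ℤ) :
    ∃ j : ℤ, (N : ℤ) ∣ (b + j * (p : ℤ) ^ n) - a := by
  have hpp : Prime (p : ℤ) := Nat.prime_iff_prime_int.1 hp
  have hcop : IsCoprime ((p : ℤ) ^ n) (N : ℤ) := by
    refine IsCoprime.pow_left (hpp.coprime_iff_not_dvd.2 ?_)
    intro h
    exact hpN (by exact_mod_cast h)
  obtain ⟨x, y, hxy⟩ := hcop
  refine ⟨(a - b) * x, -((a - b) * y), ?_⟩
  linear_combination (a - b) * hxy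

include hK hp hpN in
/-- the cusps `a / p^n`, `p ∤ a` -/
lemma K_cusp1 {a b : ℤ} (ha : ¬ (p : ℤ) ∣ a) (hb : ¬ (p : ℤ) ∣ b) (n : ℕ) :
    D ∣ K ((b : ℚ), (p : ℚ) ^ n) - K ((a : ℚ), (p : ℚ) ^ n) := by
  have hpp : Prime (p : ℤ) := Nat.prime_iff_prime_int.1 hp
  obtain ⟨j, hj⟩ := exists_shift (N := N) hp hpN n a b
  have h1 := K_T1 hK (b : ℚ) ((p : ℚ) ^ n) j
  rw [← h1]
  have hca : IsCoprime a ((p : ℤ) ^ n) := ((hpp.coprime_iff_not_dvd.2 ha).symm).pow_right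
  have hcb : IsCoprime (b + j * (p : ℤ) ^ n) ((p : ℤ) ^ n) := by
    have : IsCoprime b ((p : ℤ) ^ n) := ((hpp.coprime_iff_not_dvd.2 hb).symm).pow_right
    exact this.add_mul_right_left j
  have h2 := hK.con a ((p : ℤ) ^ n) (b + j * (p : ℤ) ^ n) ((p : ℤ) ^ n) hca hcb hj (by
    rw [sub_self]
    exact dvd_zero _)
  push_cast at h2
  exact h2

/-- the stabilised symbol modulo `p^(v+1)` -/
def Pm {p v : ℕ} (K : ℚ × ℚ → ℤ) (β : ZMod (p ^ (v + 1))) (z : ℚ × ℚ) : ZMod (p ^ (v + 1)) :=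
  ((K z : ℤ) : ZMod (p ^ (v + 1))) - β * ((K (p * z.1, z.2) : ℤ) : ZMod (p ^ (v + 1)))

include hK hp in
lemma Pm_U {v : ℕ} {cp : ℤ} (hT : KHecke K p cp) {α β : ZMod (p ^ (v + 1))} (hαβ : α * β = 1)
    (hcp : α + p * β = cp) (x y : ℚ) :
    ∑ i ∈ Finset.range p, Pm K β (x + i * y, p * y) = α * Pm K β (x, y) := by
  have hp0 : (p : ℚ) ≠ 0 := by exact_mod_cast hp.ne_zero
  have h1 : ∀ i ∈ Finset.range p, ((K (p * (x + i * y), p * y) : ℤ) : ZMod (p ^ (v + 1))) =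
      ((K (x, y) : ℤ) : ZMod (p ^ (v + 1))) := by
    intro i _
    rw [hK.hom p _ _ hp0]
    congr 1
    have := K_T1 hK x y i
    rw [← this]
    push_cast
    rfl
  have h2 := congrArg (fun n : ℤ => (n : ZMod (p ^ (v + 1)))) (hT x y)
  push_cast at h2
  unfold Pm
  simp only
  rw [Finset.sum_sub_distrib, ← Finset.mul_sum,
    Finset.sum_congr rfl h1, Finset.sum_const,
    Finset.card_range, nsmul_eq_mul]
  linear_combination h2 + ((K (p * x, y) : ℤ) : ZMod (p ^ (v + 1))) * hαβ -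
    ((K (x, y) : ℤ) : ZMod (p ^ (v + 1))) * hcp

include hK hp in
lemma Pm_pow {v : ℕ} {β : ZMod (p ^ (v + 1))} (a : ℤ) (n : ℕ) :
    Pm K β ((a : ℚ), (p : ℚ) ^ (n + 1)) = ((K ((a : ℚ), (p : ℚ) ^ (n + 1)) : ℤ) : ZMod (p ^ (v + 1))) -
      β * ((K ((a : ℚ), (p : ℚ) ^ n) : ℤ) : ZMod (p ^ (v + 1))) := by
  have hp0 : (p : ℚ) ≠ 0 := by exact_mod_cast hp.ne_zero
  unfold Pm
  simp only
  rw [pow_succ' (p : ℚ) n, hK.hom p _ _ hp0]

/-- `p` times the multiples of `p^v` vanish -/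
lemma mul_dvd_zero {v : ℕ} {x : ℤ} (h : (p : ℤ) ^ v ∣ x) :
    ((p : ℕ) : ZMod (p ^ (v + 1))) * ((x : ℤ) : ZMod (p ^ (v + 1))) = 0 := by
  have h1 : ((((p : ℤ) * x : ℤ)) : ZMod (p ^ (v + 1))) = 0 := by
    rw [ZMod.intCast_zmod_eq_zero_iff_dvd]
    push_cast
    rw [pow_succ']
    exact mul_dvd_mul_left _ h
  push_cast at h1
  exact h1

include hK hp hpN in
/-- the values of the stabilised symbol do not depend on the numerator modulo `p^v` -/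
lemma Pm_indep {v : ℕ} (hv : (p : ℤ) ^ v ∣ D) {β : ZMod (p ^ (v + 1))} {a b : ℤ}
    (ha : ¬ (p : ℤ) ∣ a) (hb : ¬ (p : ℤ) ∣ b) (n : ℕ) :
    (p : ZMod (p ^ (v + 1))) * Pm K β ((b : ℚ), (p : ℚ) ^ (n + 1)) =
      p * Pm K β ((a : ℚ), (p : ℚ) ^ (n + 1)) := by
  rw [Pm_pow hK hp, Pm_pow hK hp]
  have h1 := mul_dvd_zero (hv.trans (K_cusp1 hK hp hpN ha hb (n + 1)))
  have h2 := mul_dvd_zero (hv.trans (K_cusp1 hK hp hpN ha hb n))
  push_cast at h1 h2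
  linear_combination h1 - β * h2

include hK hp hpN in
/-- the values of the stabilised symbol vanish modulo `p^v` -/
lemma Pm_zero {v : ℕ} (hv : (p : ℤ) ^ v ∣ D) {cp : ℤ} (hT : KHecke K p cp)
    {α β : ZMod (p ^ (v + 1))} (hαβ : α * β = 1) (hcp : α + p * β = cp) {a : ℤ}
    (ha : ¬ (p : ℤ) ∣ a) (n : ℕ) :
    (p : ZMod (p ^ (v + 1))) * Pm K β ((a : ℚ), (p : ℚ) ^ (n + 1)) = 0 := by
  have step : ∀ n : ℕ, (p : ZMod (p ^ (v + 1))) * Pm K β ((a : ℚ), (p : ℚ) ^ (n + 1)) =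
      p * (β * (p * Pm K β ((a : ℚ), (p : ℚ) ^ (n + 1 + 1)))) := by
    intro n
    have h1 := Pm_U hK hp hT hαβ hcp (a : ℚ) ((p : ℚ) ^ (n + 1))
    have h2 : (p : ZMod (p ^ (v + 1))) * ∑ i ∈ Finset.range p,
        Pm K β ((a : ℚ) + i * (p : ℚ) ^ (n + 1), p * (p : ℚ) ^ (n + 1)) =
        p * (p * Pm K β ((a : ℚ), (p : ℚ) ^ (n + 1 + 1))) := by
      rw [Finset.mul_sum, Finset.sum_congr rfl (g := fun _ => (p : ZMod (p ^ (v + 1))) *
        Pm K β ((a : ℚ), (p : ℚ) ^ (n + 1 + 1)))]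
      · rw [Finset.sum_const, Finset.card_range, nsmul_eq_mul]
      · intro i _
        have h5 : (p : ℤ) ∣ i * (p : ℤ) ^ (n + 1) := ⟨i * (p : ℤ) ^ n, by ring⟩
        have h4 := Pm_indep hK hp hpN hv (β := β) ha
          (b := a + i * (p : ℤ) ^ (n + 1)) (fun h => ha ((dvd_add_left h5).1 h)) (n + 1)
        push_cast at h4
        rw [pow_succ' (p : ℚ) (n + 1)] at h4 ⊢
        exact h4
    rw [h1] at h2
    linear_combination β * h2 - p * Pm K β ((a : ℚ), (p : ℚ) ^ (n + 1)) * hαβ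
  have hiter : ∀ k n : ℕ, (p : ZMod (p ^ (v + 1))) * Pm K β ((a : ℚ), (p : ℚ) ^ (n + 1)) =
      p ^ (k + 1) * (β ^ k * Pm K β ((a : ℚ), (p : ℚ) ^ (n + k + 1))) := by
    intro k
    induction k with
    | zero =>
      intro n
      rw [zero_add, pow_one, pow_zero, one_mul, add_zero]
    | succ k ih =>
      intro n
      rw [step n, ih (n + 1)]
      have : n + 1 + k + 1 = n + (k + 1) + 1 := by ring
      rw [this]
      ring
  have h0 : ((p : ℕ) : ZMod (p ^ (v + 1))) ^ (v + 1) = 0 := by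
    rw [← Nat.cast_pow]
    exact ZMod.natCast_self _
  rw [hiter v n, h0, zero_mul]

include hK hp hpN in
/-- one step -/
lemma Pm_of_const {v : ℕ} (hv : (p : ℤ) ^ v ∣ D) {cp : ℤ} (hT : KHecke K p cp)
    {α β : ZMod (p ^ (v + 1))} (hαβ : α * β = 1) (hcp : α + p * β = cp) {n : ℕ}
    (hc : ConstD p D K (n + 1)) {a : ℤ} (ha : ¬ (p : ℤ) ∣ a) :
    Pm K β ((a : ℚ), (p : ℚ) ^ (n + 1)) = 0 := by
  have h1 := Pm_U hK hp hT hαβ hcp (a : ℚ) ((p : ℚ) ^ (n + 1))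
  have h2 : ∑ i ∈ Finset.range p,
      Pm K β ((a : ℚ) + i * (p : ℚ) ^ (n + 1), p * (p : ℚ) ^ (n + 1)) =
      p * Pm K β ((a : ℚ), (p : ℚ) ^ (n + 1 + 1)) := by
    rw [Finset.sum_congr rfl (g := fun _ => Pm K β ((a : ℚ), (p : ℚ) ^ (n + 1 + 1)))]
    · rw [Finset.sum_const, Finset.card_range, nsmul_eq_mul]
    · intro i _
      have h5 : (p : ℤ) ∣ i * (p : ℤ) ^ (n + 1) := ⟨i * (p : ℤ) ^ n, by ring⟩
      have h6 : ¬ (p : ℤ) ∣ a + i * (p : ℤ) ^ (n + 1) := fun h => ha ((dvd_add_left h5).1 h)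
      have h4 := hc a (a + i * (p : ℤ) ^ (n + 1)) ha h6 ⟨i, by ring⟩
      have h7 : (p : ℤ) ^ (v + 1) ∣ K (((a + i * (p : ℤ) ^ (n + 1) : ℤ) : ℚ), (p : ℚ) ^ (n + 1 + 1)) -
          K ((a : ℚ), (p : ℚ) ^ (n + 1 + 1)) := by
        refine dvd_trans ?_ h4
        rw [pow_succ']
        exact mul_dvd_mul_left _ hv
      have h8 : ((K (((a + i * (p : ℤ) ^ (n + 1) : ℤ) : ℚ), (p : ℚ) ^ (n + 1 + 1)) : ℤ) :
          ZMod (p ^ (v + 1))) = ((K ((a : ℚ), (p : ℚ) ^ (n + 1 + 1)) : ℤ) : ZMod (p ^ (v + 1))) := by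
        rw [← sub_eq_zero, ← Int.cast_sub, ZMod.intCast_zmod_eq_zero_iff_dvd]
        push_cast at h7 ⊢
        exact h7
      have h9 : K (((a + i * (p : ℤ) ^ (n + 1) : ℤ) : ℚ), (p : ℚ) ^ (n + 1)) =
          K ((a : ℚ), (p : ℚ) ^ (n + 1)) := K_congr1 hK ⟨i, by ring⟩
      have h10 : Pm K β (((a + i * (p : ℤ) ^ (n + 1) : ℤ) : ℚ), (p : ℚ) ^ (n + 1 + 1)) =
          Pm K β ((a : ℚ), (p : ℚ) ^ (n + 1 + 1)) := by
        rw [Pm_pow hK hp, Pm_pow hK hp, h8, h9]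
      push_cast at h10
      rw [pow_succ' (p : ℚ) (n + 1)] at h10 ⊢
      exact h10
  rw [h2, Pm_zero hK hp hpN hv hT hαβ hcp ha] at h1
  linear_combination (-β) * h1 - Pm K β ((a : ℚ), (p : ℚ) ^ (n + 1)) * hαβ

include hK hp in
/-- the values at the lower levels -/
lemma Pm_down {v : ℕ} {cp : ℤ} (hT : KHecke K p cp)
    {α β : ZMod (p ^ (v + 1))} (hαβ : α * β = 1) (hcp : α + p * β = cp) {n : ℕ}
    (h : ∀ a : ℤ, ¬ (p : ℤ) ∣ a → Pm K β ((a : ℚ), (p : ℚ) ^ (n + 1 + 1)) = 0)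
    {a : ℤ} (ha : ¬ (p : ℤ) ∣ a) : Pm K β ((a : ℚ), (p : ℚ) ^ (n + 1)) = 0 := by
  have h1 := Pm_U hK hp hT hαβ hcp (a : ℚ) ((p : ℚ) ^ (n + 1))
  rw [Finset.sum_eq_zero] at h1
  · linear_combination (-β) * h1 - Pm K β ((a : ℚ), (p : ℚ) ^ (n + 1)) * hαβ
  · intro i _
    have h5 : (p : ℤ) ∣ i * (p : ℤ) ^ (n + 1) := ⟨i * (p : ℤ) ^ n, by ring⟩
    have h4 := h (a + i * (p : ℤ) ^ (n + 1)) (fun h => ha ((dvd_add_left h5).1 h))
    push_cast at h4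
    rw [pow_succ' (p : ℚ) (n + 1)] at h4
    exact h4

include hK hp hpN in
/-- **the main theorem on symbols** -/
theorem not_constD1 (hN : N ≠ 0) (hD : D ≠ 0) {cp : ℤ} (hT : KHecke K p cp)
    (hcp : ¬ (p : ℤ) ∣ cp) : ∃ n₀, ∀ n ≥ n₀, ¬ ConstD p D K n := by
  have hpp : Prime (p : ℤ) := Nat.prime_iff_prime_int.1 hp
  by_contra hcon
  push Not at hcon
  -- the power of `p` in `D`
  have hfin : FiniteMultiplicity (p : ℤ) D := by
    rw [Int.finiteMultiplicity_iff]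
    refine ⟨?_, hD⟩
    rw [Int.natAbs_natCast]
    exact hp.one_lt.ne'
  obtain ⟨v, hv1, hv2⟩ : ∃ v, (p : ℤ) ^ v ∣ D ∧ ¬ (p : ℤ) ^ (v + 1) ∣ D := by
    refine ⟨multiplicity (p : ℤ) D, pow_multiplicity_dvd _ _, ?_⟩
    exact hfin.not_pow_dvd_of_multiplicity_lt (Nat.lt_succ_self _)
  obtain ⟨α, β, hαβ, hcpe⟩ := exists_beta hp hcp v
  have hall : ∀ (m : ℕ) (a : ℤ), ¬ (p : ℤ) ∣ a → Pm K β ((a : ℚ), (p : ℚ) ^ (m + 1)) = 0 := by
    intro m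
    obtain ⟨n, hn, hc⟩ := hcon (m + 1)
    obtain ⟨j, rfl⟩ := Nat.exists_eq_add_of_le hn
    have hc' : ConstD p D K (m + j + 1) := by
      have : m + j + 1 = m + 1 + j := by ring
      rw [this]
      exact hc
    have h1 : ∀ a : ℤ, ¬ (p : ℤ) ∣ a → Pm K β ((a : ℚ), (p : ℚ) ^ (m + j + 1)) = 0 :=
      fun a ha => Pm_of_const hK hp hpN hv1 hT hαβ hcpe hc' ha
    clear hc hn hc'
    induction j with
    | zero => exact h1
    | succ j ih =>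
      refine ih fun a ha => Pm_down hK hp hT hαβ hcpe (n := m + j) (fun a' ha' => ?_) ha
      exact h1 a' ha'
  have hord : IsOrd p N (fun z => ((K z : ℤ) : ZMod (p ^ (v + 1)))) α β := by
    refine ⟨?_, ?_, ?_, hαβ, ?_, ?_⟩
    · intro t x y ht
      rw [hK.hom t x y ht]
    · intro x
      rw [hK.inf, Int.cast_zero]
    · intro a b c d hdet hc
      obtain ⟨w, hw⟩ := hK.inv a b c d hdet hc
      refine ⟨((w : ℤ) : ZMod _), fun x y hxy => ?_⟩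
      rw [hw x y hxy]
      push_cast
      rfl
    · intro x y _
      have h2 := congrArg (fun n : ℤ => (n : ZMod (p ^ (v + 1)))) (hT x y)
      push_cast at h2
      rw [hcpe, ← h2]
      ring
    · intro a n ha
      have h1 := hall n a ha
      rw [Pm_pow hK hp] at h1
      exact sub_eq_zero.1 h1
  obtain ⟨a, c, hac, hc, ha, hval⟩ := hK.att
  have hnil : ((p : ℕ) : ZMod (p ^ (v + 1))) ^ (v + 1) = 0 := by
    rw [← Nat.cast_pow]
    exact ZMod.natCast_self _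
  have hM0 : NeZero (p ^ (v + 1)) := ⟨pow_ne_zero _ hp.ne_zero⟩
  obtain ⟨k, hk⟩ : ∃ k : ℕ, β ^ (k + 1) = 1 := by
    let b : (ZMod (p ^ (v + 1)))ˣ := ⟨β, α, by rw [mul_comm]; exact hαβ, hαβ⟩
    have h1 : b ^ Fintype.card (ZMod (p ^ (v + 1)))ˣ = 1 := pow_card_eq_one
    obtain ⟨k, hk⟩ : ∃ k, Fintype.card (ZMod (p ^ (v + 1)))ˣ = k + 1 :=
      ⟨Fintype.card (ZMod (p ^ (v + 1)))ˣ - 1, by
        have := Fintype.card_pos (α := (ZMod (p ^ (v + 1)))ˣ)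
        omega⟩
    rw [hk] at h1
    refine ⟨k, ?_⟩
    have h2 := congrArg (fun u : (ZMod (p ^ (v + 1)))ˣ => (u : ZMod (p ^ (v + 1)))) h1
    simpa [b] using h2
  have h1 := ord_final hp hord hN hpN hnil hk hac hc ha
  rw [hval, ZMod.intCast_zmod_eq_zero_iff_dvd] at h1
  push_cast at h1
  exact hv2 h1

end Pool.Agent.H503.MG
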