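import Pool.Agent.H503.MB.Alg
import Pool.Agent.H503.MG.Fin

/-!
# Symbols at good ordinary primes, values in a ring in which `p` is nilpotent
-/

set_option autoImplicit false
set_option linter.unusedSectionVars false

namespace Pool.Agent.H503.MG

open Pool.Agent.H503.MB

variable {R : Type*} [CommRing R]

/-- the symbols -/
structure IsOrd (p N : ℕ) (Ψ : ℚ × ℚ → R) (α β : R) : Prop where
  hom : ∀ t x y : ℚ, t ≠ 0 → Ψ (t * x, t * y) = Ψ (x, y)
  inf : ∀ x : ℚ, Ψ (x, 0) = 0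
  inv : ∀ a b c d : ℤ, a * d - b * c = 1 → (N : ℤ) ∣ c → ∃ w : R, ∀ x y : ℚ,
    (x, y) ≠ (0 : ℚ × ℚ) → Ψ (a * x + b * y, c * x + d * y) = Ψ (x, y) + w
  unit : α * β = 1
  T : ∀ x y : ℚ, (x, y) ≠ (0 : ℚ × ℚ) → ∑ i ∈ Finset.range p, Ψ (x + i * y, p * y) +
    Ψ (p * x, y) = (α + p * β) * Ψ (x, y)
  van : ∀ (a : ℤ) (n : ℕ), ¬ (p : ℤ) ∣ a →
    Ψ ((a : ℚ), (p : ℚ) ^ (n + 1)) = β * Ψ ((a : ℚ), (p : ℚ) ^ n)

/-- the stabilised symbol -/
def P (p : ℕ) (Ψ : ℚ × ℚ → R) (β : R) (z : ℚ × ℚ) : R := Ψ z - β * Ψ (p * z.1, z.2)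

section
variable {p N : ℕ} (hp : p.Prime) {Ψ : ℚ × ℚ → R} {α β : R} (hΨ : IsOrd p N Ψ α β)

include hΨ in
lemma Psi_T (n : ℤ) {x y : ℚ} (hz : (x, y) ≠ (0 : ℚ × ℚ)) : Ψ (x + n * y, y) = Ψ (x, y) := by
  obtain ⟨w, hw⟩ := hΨ.inv 1 n 0 1 (by ring) (dvd_zero _)
  have h1 := hw 1 0 (by simp)
  have h2 := hw x y hz
  push_cast at h1 h2
  rw [one_mul, mul_zero, add_zero, zero_mul, one_mul, add_zero, hΨ.inf, zero_add] at h1
  rw [one_mul, zero_mul, zero_add, one_mul, ← h1, add_zero] at h2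
  exact h2

include hΨ in
lemma Psi_int (a : ℤ) : Ψ ((a : ℚ), 1) = Ψ (0, 1) := by
  have h := Psi_T hΨ a (x := 0) (y := 1) (by simp)
  rw [← h]
  congr 2
  ring

include hΨ in
lemma Psi_pow (k : ℕ) {a : ℤ} (ha : ¬ (p : ℤ) ∣ a) :
    Ψ ((a : ℚ), (p : ℚ) ^ k) = β ^ k * Ψ (0, 1) := by
  induction k with
  | zero => rw [pow_zero, pow_zero, one_mul, Psi_int hΨ]
  | succ k ih =>
    rw [hΨ.van a k ha, ih]
    ring

include hΨ hp in
/-- the relation for the value at `0` -/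
lemma eps_sq : (1 - β) * ((1 - β) * Ψ (0, 1)) = 0 := by
  have h1 := hΨ.T 0 1 (by simp)
  have h2 : ∀ i ∈ Finset.range p, i ≠ 0 → Ψ (0 + (i : ℚ) * 1, p * 1) = β * Ψ (0, 1) := by
    intro i hi hi0
    rw [Finset.mem_range] at hi
    have h3 : ¬ (p : ℤ) ∣ (i : ℤ) := by
      intro h
      have h3 : p ∣ i := by exact_mod_cast h
      exact hi0 (Nat.eq_zero_of_dvd_of_lt h3 hi)
    have h4 := Psi_pow hΨ 1 h3
    rw [pow_one, pow_one] at h4
    rw [← h4]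
    push_cast
    congr 2 <;> ring
  have hp0 : (p : ℚ) ≠ 0 := by exact_mod_cast hp.ne_zero
  have h5 : Ψ (0 + ((0 : ℕ) : ℚ) * 1, p * 1) = Ψ (0, 1) := by
    have := hΨ.hom (p : ℚ) 0 1 hp0
    rw [mul_zero] at this
    rw [← this]
    push_cast
    congr 2
    ring
  have h6 : ∑ i ∈ Finset.range p, Ψ (0 + (i : ℚ) * 1, p * 1) = Ψ (0, 1) +
      (p - 1) * (β * Ψ (0, 1)) := by
    obtain ⟨q, rfl⟩ : ∃ q, p = q + 1 := ⟨p - 1, by have := hp.pos; omega⟩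
    rw [Finset.sum_range_succ', h5, Finset.sum_congr rfl fun i hi => h2 (i + 1) (by
      rw [Finset.mem_range] at hi ⊢
      omega) (Nat.succ_ne_zero i), Finset.sum_const, Finset.card_range, nsmul_eq_mul]
    push_cast
    ring
  rw [h6, mul_zero] at h1
  have h7 := hΨ.unit
  linear_combination (-β) * h1 - Ψ (0, 1) * h7

include hΨ in
lemma P_hom (t x y : ℚ) (ht : t ≠ 0) : P p Ψ β (t * x, t * y) = P p Ψ β (x, y) := by
  unfold P
  simp only
  rw [hΨ.hom t x y ht, ← hΨ.hom t (p * x) y ht]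
  congr 4
  ring

include hΨ in
lemma P_inf (x : ℚ) : P p Ψ β (x, 0) = 0 := by
  unfold P
  simp only
  rw [hΨ.inf, hΨ.inf, mul_zero, sub_zero]

include hΨ hp in
lemma P_T (n : ℤ) {x y : ℚ} (hz : (x, y) ≠ (0 : ℚ × ℚ)) : P p Ψ β (x + n * y, y) = P p Ψ β (x, y) := by
  have hp0 : (p : ℚ) ≠ 0 := by exact_mod_cast hp.ne_zero
  have hz' : ((p : ℚ) * x, y) ≠ (0 : ℚ × ℚ) := by
    intro h
    rw [Prod.mk_eq_zero] at h
    apply hz
    rw [Prod.mk_eq_zero]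
    exact ⟨(mul_eq_zero.1 h.1).resolve_left hp0, h.2⟩
  unfold P
  simp only
  have h1 := Psi_T hΨ (p * n) hz'
  rw [Psi_T hΨ n hz, ← h1]
  congr 4
  push_cast
  ring

include hΨ hp in
lemma P_U {x y : ℚ} (hz : (x, y) ≠ (0 : ℚ × ℚ)) :
    ∑ i ∈ Finset.range p, P p Ψ β (x + i * y, p * y) = α * P p Ψ β (x, y) := by
  have hp0 : (p : ℚ) ≠ 0 := by exact_mod_cast hp.ne_zero
  have h1 : ∀ i ∈ Finset.range p, Ψ (p * (x + i * y), p * y) = Ψ (x, y) := by
    intro i _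
    rw [hΨ.hom p _ _ hp0]
    have := Psi_T hΨ i hz
    rw [← this]
    push_cast
    rfl
  unfold P
  simp only
  rw [Finset.sum_sub_distrib, ← Finset.mul_sum, Finset.sum_congr rfl h1, Finset.sum_const,
    Finset.card_range, nsmul_eq_mul]
  have h2 := hΨ.T x y hz
  have h3 := hΨ.unit
  linear_combination h2 + Ψ (p * x, y) * h3

include hΨ hp in
lemma P_inv {a b c d : ℤ} (h : a * d - b * c = 1) (hc : (p : ℤ) * N ∣ c) : ∃ w : R, ∀ x y : ℚ,
    (x, y) ≠ (0 : ℚ × ℚ) → P p Ψ β (a * x + b * y, c * x + d * y) = P p Ψ β (x, y) + w := by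
  have hp0 : (p : ℚ) ≠ 0 := by exact_mod_cast hp.ne_zero
  obtain ⟨c', rfl⟩ := hc
  obtain ⟨w, hw⟩ := hΨ.inv a b (p * N * c') d h ⟨p * c', by ring⟩
  obtain ⟨w', hw'⟩ := hΨ.inv a (p * b) (N * c') d (by linear_combination h) (dvd_mul_right _ _)
  refine ⟨w - β * w', fun x y hz => ?_⟩
  have hz' : ((p : ℚ) * x, y) ≠ (0 : ℚ × ℚ) := by
    intro h
    rw [Prod.mk_eq_zero] at h
    apply hz
    rw [Prod.mk_eq_zero]
    exact ⟨(mul_eq_zero.1 h.1).resolve_left hp0, h.2⟩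
  unfold P
  simp only
  rw [hw x y hz]
  have h1 := hw' (p * x) y hz'
  have h2 : (((p : ℚ) * (a * x + b * y), ((p * N * c' : ℤ) : ℚ) * x + d * y) : ℚ × ℚ) =
      (a * (p * x) + ((p * b : ℤ) : ℚ) * y, ((N * c' : ℤ) : ℚ) * (p * x) + d * y) := by
    push_cast
    ext <;> simp only <;> ring
  rw [h2, h1]
  ring

include hΨ hp in
/-- the values at `x / p^k` -/
lemma P_base (k : ℕ) : ∀ x : ℤ, P p Ψ β ((x : ℚ), (p : ℚ) ^ k) =
    (1 - β) * Ψ (0, 1) * J R p ((x : ℚ), (p : ℚ) ^ k) := by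
  have hp0 : (p : ℚ) ≠ 0 := by exact_mod_cast hp.ne_zero
  induction k with
  | zero =>
    intro x
    have h2 : Pint p (((x : ℚ), (p : ℚ) ^ 0) : ℚ × ℚ) := by
      refine ⟨x, 1, 1, one_ne_zero, by simp, ?_⟩
      exact fun h => (Nat.prime_iff_prime_int.1 hp).not_isUnit (isUnit_of_dvd_one h)
    rw [J_one h2]
    unfold P
    simp only
    rw [pow_zero, Psi_int hΨ]
    have := Psi_int hΨ (p * x)
    push_cast at this
    rw [this]
    ring
  | succ k ih =>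
    intro x
    by_cases hx : (p : ℤ) ∣ x
    · obtain ⟨x', rfl⟩ := hx
      have h0 : ((((p * x' : ℤ) : ℚ), (p : ℚ) ^ (k + 1)) : ℚ × ℚ) = (p * (x' : ℚ), p * (p : ℚ) ^ k) := by
        push_cast
        ext <;> simp only
        ring
      rw [h0, P_hom hΨ _ _ _ hp0, J_hom _ _ _ hp0]
      exact ih x'
    · have h2 : ¬ Pint p (((x : ℚ), (p : ℚ) ^ (k + 1)) : ℚ × ℚ) := by
        have := not_Pint hp (a := x) (c := (p : ℤ) ^ (k + 1)) (t := 1) one_ne_zero hx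
          (dvd_pow_self _ (Nat.succ_ne_zero k))
        push_cast at this
        simpa using this
      rw [J_zero h2, mul_zero]
      unfold P
      simp only
      have h3 : (((p : ℚ) * x, (p : ℚ) ^ (k + 1)) : ℚ × ℚ) = (p * (x : ℚ), p * (p : ℚ) ^ k) := by
        ext <;> simp only
        ring
      rw [h3, hΨ.hom _ _ _ hp0, hΨ.van x k hx, sub_self]

include hΨ hp in
lemma beta_e : β * ((1 - β) * Ψ (0, 1)) = (1 - β) * Ψ (0, 1) := by
  linear_combination (-1 : R) * eps_sq hp hΨ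

include hΨ hp in
lemma alpha_e : α * ((1 - β) * Ψ (0, 1)) = (1 - β) * Ψ (0, 1) := by
  linear_combination (-α) * beta_e hp hΨ + (1 - β) * Ψ (0, 1) * hΨ.unit

include hΨ hp in
/-- the auxiliary recursion -/
lemma S_rec {a u c v : ℤ} (hpc : ¬ (p : ℤ) ∣ c) (huv : v * (p * a) + u * c = 1) (k : ℕ) :
    ∀ X : ℤ, Ψ ((X : ℚ), (p : ℚ) ^ k) - β * Ψ ((X : ℚ), (p : ℚ) ^ (k + 1)) =
      (1 - β) * Ψ (0, 1) * (1 + J R p (((a * X - u * p ^ k : ℤ) : ℚ),
        ((c * X + p * v * p ^ k : ℤ) : ℚ))) := by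
  have hp0 : (p : ℚ) ≠ 0 := by exact_mod_cast hp.ne_zero
  have hpp : Prime (p : ℤ) := Nat.prime_iff_prime_int.1 hp
  have hbk : ∀ k : ℕ, β ^ k * ((1 - β) * Ψ (0, 1)) = (1 - β) * Ψ (0, 1) := by
    intro k
    induction k with
    | zero => rw [pow_zero, one_mul]
    | succ k ih => rw [pow_succ, mul_assoc, beta_e hp hΨ, ih]
  have hnd : ∀ (k : ℕ) (X : ℤ), ¬ (p : ℤ) ∣ X → Ψ ((X : ℚ), (p : ℚ) ^ k) - β *
      Ψ ((X : ℚ), (p : ℚ) ^ (k + 1)) = (1 - β) * Ψ (0, 1) * (1 + J R p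
      (((a * X - u * p ^ k : ℤ) : ℚ), ((c * X + p * v * p ^ k : ℤ) : ℚ))) := by
    intro k X hX
    have h1 : Pint p ((((a * X - u * p ^ k : ℤ) : ℚ), ((c * X + p * v * p ^ k : ℤ) : ℚ)) : ℚ × ℚ) := by
      refine ⟨a * X - u * p ^ k, c * X + p * v * p ^ k, 1, one_ne_zero, by rw [one_mul, one_mul], ?_⟩
      intro h
      have h2 : (p : ℤ) ∣ c * X := (Int.dvd_add_left (⟨v * p ^ k, by ring⟩)).1 h
      exact (hpp.dvd_or_dvd h2).elim hpc hX
    rw [J_one h1, Psi_pow hΨ _ hX, Psi_pow hΨ _ hX]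
    linear_combination (1 + β) * hbk k + beta_e hp hΨ
  induction k with
  | zero =>
    intro X
    by_cases hX : (p : ℤ) ∣ X
    · obtain ⟨X', rfl⟩ := hX
      have hu : ¬ (p : ℤ) ∣ u := by
        intro h
        apply hpp.not_isUnit
        apply isUnit_of_dvd_one
        rw [← huv]
        exact dvd_add ((dvd_mul_right _ _).mul_left _) (h.mul_right _)
      have h1 : ¬ Pint p ((((a * (p * X') - u * p ^ 0 : ℤ) : ℚ),
          ((c * (p * X') + p * v * p ^ 0 : ℤ) : ℚ)) : ℚ × ℚ) := by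
        have := not_Pint hp (a := a * (p * X') - u * p ^ 0) (c := c * (p * X') + p * v * p ^ 0)
          (t := 1) one_ne_zero (by
            intro h
            rw [pow_zero, mul_one] at h
            exact hu ((dvd_sub_right ⟨a * X', by ring⟩).1 h)) ⟨c * X' + v, by ring⟩
        rwa [one_mul, one_mul] at this
      rw [J_zero h1, add_zero, mul_one]
      have h2 : ((((p * X' : ℤ) : ℚ), (p : ℚ) ^ (0 + 1)) : ℚ × ℚ) =
          ((p : ℚ) * (X' : ℚ), (p : ℚ) * 1) := by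
        push_cast
        ext <;> simp
      rw [h2, hΨ.hom _ _ _ hp0, Psi_int hΨ, pow_zero, Psi_int hΨ]
      ring
    · exact hnd 0 X hX
  | succ k ih =>
    intro X
    by_cases hX : (p : ℤ) ∣ X
    · obtain ⟨X', rfl⟩ := hX
      have h1 := ih X'
      have h2 : ∀ j : ℕ, Ψ (((p * X' : ℤ) : ℚ), (p : ℚ) ^ (j + 1)) = Ψ ((X' : ℚ), (p : ℚ) ^ j) := by
        intro j
        rw [← hΨ.hom (p : ℚ) (X' : ℚ) ((p : ℚ) ^ j) hp0]
        congr 2
        · push_cast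
          ring
        · ring
      rw [h2, h2, h1, ← J_hom (p := p) (p : ℚ) (((a * X' - u * p ^ k : ℤ) : ℚ)) _ hp0]
      congr 3
      ext
      · simp only
        push_cast
        ring
      · simp only
        push_cast
        ring
    · exact hnd (k + 1) X hX

include hΨ hp in
/-- adjacent cusps, primitive case -/
lemma edge0 (hpN : ¬ p ∣ N) (k : ℕ) {a b c d : ℤ} (hdet : a * d - b * c = (p : ℤ) ^ k)
    (hc : (N : ℤ) ∣ c) (hac : IsCoprime a c) :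
    P p Ψ β ((b : ℚ), (d : ℚ)) - (1 - β) * Ψ (0, 1) * J R p ((b : ℚ), (d : ℚ)) =
      P p Ψ β ((a : ℚ), (c : ℚ)) + (1 - β) * Ψ (0, 1) * J R p ((a : ℚ), (c : ℚ)) := by
  have hpp : Prime (p : ℤ) := Nat.prime_iff_prime_int.1 hp
  have hp0 : (p : ℚ) ≠ 0 := by exact_mod_cast hp.ne_zero
  have hN : ¬ (p : ℤ) ∣ (N : ℤ) := by exact_mod_cast hpN
  have hNp : IsCoprime (p : ℤ) (N : ℤ) := hpp.coprime_iff_not_dvd.2 hN
  have hdq : ((a : ℚ) * d - b * c) = (p : ℚ) ^ k := by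
    exact_mod_cast congrArg (fun n : ℤ => (n : ℚ)) hdet
  by_cases hpc : (p : ℤ) ∣ c
  · have hpN' : (p : ℤ) * N ∣ c := hNp.mul_dvd hpc hc
    have hpa : ¬ (p : ℤ) ∣ a := fun h => hpp.not_isUnit (hac.isUnit_of_dvd' h hpc)
    obtain ⟨v, u, huv⟩ := hac
    -- `v a + u c = 1`
    have h1 : a * v - (-u) * c = 1 := by linear_combination huv
    obtain ⟨w, hw⟩ := P_inv hp hΨ h1 hpN'
    have huvq : ((v : ℚ) * a + u * c) = 1 := by
      exact_mod_cast congrArg (fun n : ℤ => (n : ℚ)) huv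
    have hz : (((v * b + u * d : ℤ) : ℚ), (p : ℚ) ^ k) ≠ (0 : ℚ × ℚ) := by
      intro h
      rw [Prod.mk_eq_zero] at h
      exact pow_ne_zero k hp0 h.2
    have e1 := hw 1 0 (by simp)
    have e2 := hw ((v * b + u * d : ℤ) : ℚ) ((p : ℚ) ^ k) hz
    have e5 := J_inv (R := R) hp h1 ((dvd_mul_right _ _).trans hpN') hz
    rw [P_base hp hΨ k] at e2
    rw [P_inf hΨ 1] at e1
    have e3 : (((a : ℚ) * ((v * b + u * d : ℤ) : ℚ) + ((-u : ℤ) : ℚ) * (p : ℚ) ^ k,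
        (c : ℚ) * ((v * b + u * d : ℤ) : ℚ) + (v : ℚ) * (p : ℚ) ^ k) : ℚ × ℚ) = ((b : ℚ), (d : ℚ)) := by
      rw [← hdq]
      push_cast
      ext
      · simp only
        linear_combination (b : ℚ) * huvq
      · simp only
        linear_combination (d : ℚ) * huvq
    have e4 : (((a : ℚ) * 1 + ((-u : ℤ) : ℚ) * 0, (c : ℚ) * 1 + (v : ℚ) * 0) : ℚ × ℚ) =
        ((a : ℚ), (c : ℚ)) := by
      ext <;> simp
    rw [e3] at e2 e5
    rw [e4] at e1
    have h2 : ¬ Pint p (((a : ℚ), (c : ℚ)) : ℚ × ℚ) := by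
      have := not_Pint hp (a := a) (c := c) (t := 1) one_ne_zero hpa hpc
      simpa using this
    rw [J_zero h2, e1, e2, e5]
    ring
  · have hpac : IsCoprime ((p : ℤ) * a) c :=
      IsCoprime.mul_left (hpp.coprime_iff_not_dvd.2 hpc) hac
    obtain ⟨v, u, huv⟩ := hpac
    -- `v p a + u c = 1`
    obtain ⟨w, hw⟩ := hΨ.inv a (-u) c (p * v) (by linear_combination huv) hc
    obtain ⟨w', hw'⟩ := hΨ.inv (p * a) (-u) c v (by linear_combination huv) hc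
    set X : ℤ := p * v * b + u * d with hX
    have hz : ∀ j : ℕ, ((X : ℚ), (p : ℚ) ^ j) ≠ (0 : ℚ × ℚ) := by
      intro j h
      rw [Prod.mk_eq_zero] at h
      exact pow_ne_zero j hp0 h.2
    have e1 := hw 1 0 (by simp)
    have e2 := hw X ((p : ℚ) ^ k) (hz k)
    have e3 := hw' 1 0 (by simp)
    have e4 := hw' X ((p : ℚ) ^ (k + 1)) (hz (k + 1))
    rw [hΨ.inf, zero_add] at e1 e3
    have hb : a * X - u * p ^ k = b := by
      rw [hX, ← hdet]
      linear_combination b * huv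
    have hd : c * X + p * v * p ^ k = d := by
      rw [hX, ← hdet]
      linear_combination d * huv
    have hbq : (a : ℚ) * X - u * (p : ℚ) ^ k = b := by
      exact_mod_cast congrArg (fun n : ℤ => (n : ℚ)) hb
    have hdq' : (c : ℚ) * X + p * v * (p : ℚ) ^ k = d := by
      exact_mod_cast congrArg (fun n : ℤ => (n : ℚ)) hd
    have f1 : (((a : ℚ) * 1 + ((-u : ℤ) : ℚ) * 0, (c : ℚ) * 1 + ((p * v : ℤ) : ℚ) * 0) : ℚ × ℚ) =
        ((a : ℚ), (c : ℚ)) := by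
      ext <;> simp
    have f2 : (((a : ℚ) * X + ((-u : ℤ) : ℚ) * (p : ℚ) ^ k,
        (c : ℚ) * X + ((p * v : ℤ) : ℚ) * (p : ℚ) ^ k) : ℚ × ℚ) = ((b : ℚ), (d : ℚ)) := by
      push_cast
      ext
      · simp only
        linear_combination hbq
      · simp only
        linear_combination hdq'
    have f3 : ((((p * a : ℤ) : ℚ) * 1 + ((-u : ℤ) : ℚ) * 0, (c : ℚ) * 1 + (v : ℚ) * 0) : ℚ × ℚ) =
        ((p : ℚ) * a, (c : ℚ)) := by
      push_cast
      ext <;> simp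
    have f4 : ((((p * a : ℤ) : ℚ) * X + ((-u : ℤ) : ℚ) * (p : ℚ) ^ (k + 1),
        (c : ℚ) * X + (v : ℚ) * (p : ℚ) ^ (k + 1)) : ℚ × ℚ) = ((p : ℚ) * b, (d : ℚ)) := by
      push_cast
      ext
      · simp only
        linear_combination (p : ℚ) * hbq
      · simp only
        linear_combination hdq'
    rw [f1] at e1
    rw [f2] at e2
    rw [f3] at e3
    rw [f4] at e4
    have h1 := S_rec hp hΨ hpc huv k X
    rw [hb, hd] at h1
    have h2 : Pint p (((a : ℚ), (c : ℚ)) : ℚ × ℚ) := ⟨a, c, 1, one_ne_zero, by simp, hpc⟩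
    rw [J_one h2]
    unfold P
    simp only
    rw [e1, e2, e3, e4]
    linear_combination h1

include hΨ hp in
/-- **adjacent cusps** -/
theorem edge (hpN : ¬ p ∣ N) (k : ℕ) : ∀ a b c d : ℤ, a * d - b * c = (p : ℤ) ^ k → (N : ℤ) ∣ c →
    P p Ψ β ((b : ℚ), (d : ℚ)) - (1 - β) * Ψ (0, 1) * J R p ((b : ℚ), (d : ℚ)) =
      P p Ψ β ((a : ℚ), (c : ℚ)) + (1 - β) * Ψ (0, 1) * J R p ((a : ℚ), (c : ℚ)) := by
  have hpp : Prime (p : ℤ) := Nat.prime_iff_prime_int.1 hp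
  have hp0 : (p : ℚ) ≠ 0 := by exact_mod_cast hp.ne_zero
  have hN : ¬ (p : ℤ) ∣ (N : ℤ) := by exact_mod_cast hpN
  have hNp : IsCoprime (N : ℤ) (p : ℤ) := (hpp.coprime_iff_not_dvd.2 hN).symm
  induction k with
  | zero =>
    intro a b c d hdet hc
    refine edge0 hp hΨ hpN 0 hdet hc ⟨d, -b, ?_⟩
    rw [pow_zero] at hdet
    linear_combination hdet
  | succ k ih =>
    intro a b c d hdet hc
    by_cases h : (p : ℤ) ∣ a ∧ (p : ℤ) ∣ c
    · obtain ⟨⟨a', rfl⟩, ⟨c', rfl⟩⟩ := h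
      have h1 : a' * d - b * c' = (p : ℤ) ^ k := by
        apply mul_left_cancel₀ hpp.ne_zero
        linear_combination hdet
      have h2 := ih a' b c' d h1 (hNp.dvd_of_dvd_mul_left hc)
      rw [h2]
      have h3 := P_hom hΨ (p : ℚ) (a' : ℚ) (c' : ℚ) hp0
      have h4 := J_hom (R := R) (p := p) (p : ℚ) (a' : ℚ) (c' : ℚ) hp0
      rw [← h3, ← h4]
      push_cast
      rfl
    · refine edge0 hp hΨ hpN (k + 1) hdet hc ?_
      rw [Int.isCoprime_iff_gcd_eq_one]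
      by_contra hg
      obtain ⟨l, hl, hlg⟩ := Nat.exists_prime_and_dvd hg
      have hla : (l : ℤ) ∣ a := (Int.natCast_dvd_natCast.2 hlg).trans (Int.gcd_dvd_left ..)
      have hlc : (l : ℤ) ∣ c := (Int.natCast_dvd_natCast.2 hlg).trans (Int.gcd_dvd_right ..)
      have h1 : (l : ℤ) ∣ (p : ℤ) ^ (k + 1) := by
        rw [← hdet]
        exact dvd_sub (hla.mul_right _) (hlc.mul_left _)
      have h2 : l ∣ p ^ (k + 1) := by exact_mod_cast h1
      have h3 : l = p := (Nat.prime_dvd_prime_iff_eq hl hp).1 (hl.dvd_of_dvd_pow h2)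
      rw [h3] at hla hlc
      exact h ⟨hla, hlc⟩

/-- the corrected symbol -/
noncomputable def Q (p : ℕ) (Ψ : ℚ × ℚ → R) (β : R) (z : ℚ × ℚ) : R :=
  P p Ψ β z + (1 - β) * Ψ (0, 1) * J R p z

include hΨ in
lemma Q_hom (t x y : ℚ) (ht : t ≠ 0) : Q p Ψ β (t * x, t * y) = Q p Ψ β (x, y) := by
  unfold Q
  rw [P_hom hΨ t x y ht, J_hom t x y ht]

include hΨ hp in
lemma Q_T (n : ℤ) {x y : ℚ} (hz : (x, y) ≠ (0 : ℚ × ℚ)) : Q p Ψ β (x + n * y, y) = Q p Ψ β (x, y) := by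
  unfold Q
  rw [P_T hp hΨ n hz]
  have h := J_inv (R := R) hp (a := 1) (b := n) (c := 0) (d := 1) (by ring) (dvd_zero _) hz
  push_cast at h
  rw [one_mul, zero_mul, zero_add, one_mul] at h
  rw [h]

include hΨ hp in
lemma Q_U {x y : ℚ} (hz : (x, y) ≠ (0 : ℚ × ℚ)) :
    ∑ i ∈ Finset.range p, Q p Ψ β (x + i * y, p * y) = α * Q p Ψ β (x, y) := by
  unfold Q
  rw [Finset.sum_add_distrib, P_U hp hΨ hz, ← Finset.mul_sum, J_U hp hz]
  linear_combination (-J R p (x, y)) * alpha_e hp hΨ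

/-- the translations which fix the values of all translates at `ζ = a / c` -/
def Fix (p N : ℕ) (Ψ : ℚ × ℚ → R) (β : R) (a c : ℤ) (x : ℚ) : Prop :=
  (∃ (i : ℕ) (x0 : ℤ), (p : ℚ) ^ i * x = x0) ∧ ∀ (A B C D : ℤ) (k : ℕ),
    A * D - B * C = (p : ℤ) ^ k → (N : ℤ) ∣ C →
    Q p Ψ β (A * (a + x * c) + B * c, C * (a + x * c) + D * c) = Q p Ψ β (A * a + B * c, C * a + D * c)

include hΨ hp in
lemma Fix_add {a c : ℤ} {x y : ℚ} (hx : Fix p N Ψ β a c x) (hy : Fix p N Ψ β a c y) :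
    Fix p N Ψ β a c (x + y) := by
  have hp0 : (p : ℚ) ≠ 0 := by exact_mod_cast hp.ne_zero
  obtain ⟨⟨i, x0, hx0⟩, hx1⟩ := hx
  obtain ⟨⟨j, y0, hy0⟩, hy1⟩ := hy
  refine ⟨⟨i + j, x0 * p ^ j + y0 * p ^ i, ?_⟩, fun A B C D k hdet hC => ?_⟩
  · push_cast
    rw [← hx0, ← hy0]
    ring
  · have h1 := hy1 (p ^ i * A) (p ^ i * B + A * x0) (p ^ i * C) (p ^ i * D + C * x0) (2 * i + k) (by
      rw [pow_add, ← hdet]
      ring) (hC.mul_left _)
    have h2 := hx1 A B C D k hdet hC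
    rw [← h2, ← Q_hom hΨ ((p : ℚ) ^ i) (A * (a + x * c) + B * c) _ (pow_ne_zero _ hp0),
      ← Q_hom hΨ ((p : ℚ) ^ i) (A * (a + (x + y) * c) + B * c) _ (pow_ne_zero _ hp0)]
    push_cast at h1
    rw [← hx0] at h1
    refine Eq.trans ?_ (h1.trans ?_)
    · congr 1
      ext <;> simp only <;> ring
    · congr 1
      ext <;> simp only <;> ring

include hΨ hp in
lemma Fix_neg {a c : ℤ} {x : ℚ} (hx : Fix p N Ψ β a c x) : Fix p N Ψ β a c (-x) := by
  have hp0 : (p : ℚ) ≠ 0 := by exact_mod_cast hp.ne_zero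
  obtain ⟨⟨i, x0, hx0⟩, hx1⟩ := hx
  refine ⟨⟨i, -x0, ?_⟩, fun A B C D k hdet hC => ?_⟩
  · push_cast
    rw [← hx0]
    ring
  · have h1 := hx1 (p ^ i * A) (p ^ i * B - A * x0) (p ^ i * C) (p ^ i * D - C * x0) (2 * i + k) (by
      rw [pow_add, ← hdet]
      ring) (hC.mul_left _)
    rw [← Q_hom hΨ ((p : ℚ) ^ i) (A * a + B * c) _ (pow_ne_zero _ hp0),
      ← Q_hom hΨ ((p : ℚ) ^ i) (A * (a + -x * c) + B * c) _ (pow_ne_zero _ hp0)]
    push_cast at h1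
    rw [← hx0] at h1
    refine Eq.trans ?_ (h1.symm.trans ?_)
    · congr 1
      ext <;> simp only <;> ring
    · congr 1
      ext <;> simp only <;> ring

lemma Fix_zero {a c : ℤ} : Fix p N Ψ β a c 0 := by
  refine ⟨⟨0, 0, by simp⟩, fun A B C D k _ _ => ?_⟩
  rw [zero_mul, add_zero]

include hΨ hp in
lemma Fix_mul {a c : ℤ} {x : ℚ} (hx : Fix p N Ψ β a c x) (n : ℤ) : Fix p N Ψ β a c (n * x) := by
  have h1 : ∀ n : ℕ, Fix p N Ψ β a c (n * x) := by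
    intro n
    induction n with
    | zero =>
      rw [Nat.cast_zero, zero_mul]
      exact Fix_zero
    | succ n ih =>
      push_cast
      rw [add_mul, one_mul]
      exact Fix_add hp hΨ ih hx
  rcases Int.eq_nat_or_neg n with ⟨m, rfl | rfl⟩
  · exact_mod_cast h1 m
  · have := Fix_neg hp hΨ (h1 m)
    push_cast
    rw [neg_mul]
    exact this

include hΨ hp in
/-- the basic translations -/
lemma Fix_gen (hpN : ¬ p ∣ N) {a b c d : ℤ} (hdet : a * d - b * c = 1) (hc : (N : ℤ) ∣ c)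
    {e : ℕ} {c' m : ℤ} {j : ℕ}
    (he : c = (p : ℤ) ^ e * c') (hm : (p : ℤ) ^ j - 1 = c' * d * m) :
    Fix p N Ψ β a c ((m : ℚ) / (p : ℚ) ^ e) := by
  have hp0 : (p : ℚ) ≠ 0 := by exact_mod_cast hp.ne_zero
  refine ⟨⟨e, m, by field_simp⟩, fun A B C D k hABCD hC => ?_⟩
  have hxc : (m : ℚ) / (p : ℚ) ^ e * c = m * c' := by
    rw [he]
    push_cast
    field_simp
  have h1 := edge hp hΨ hpN (k + j) (A * (a + m * c') + B * c) (A * b + B * d)
    (C * (a + m * c') + D * c) (C * b + D * d) (by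
      rw [pow_add, ← hABCD]
      linear_combination (A * D - B * C) * (hdet - hm)) (dvd_add (hC.mul_right _) (hc.mul_left _))
  have h2 := edge hp hΨ hpN k (A * a + B * c) (A * b + B * d) (C * a + D * c) (C * b + D * d) (by
      rw [← hABCD]
      linear_combination (A * D - B * C) * hdet) (dvd_add (hC.mul_right _) (hc.mul_left _))
  rw [hxc]
  unfold Q
  push_cast at h1 h2
  rw [← h1, h2]

end

end Pool.Agent.H503.MG
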