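import Mathlib

/-!
# Symbols with a scaling property: invariance under unipotent matrices with denominators
-/

set_option autoImplicit false
set_option linter.unusedSectionVars false

namespace Pool.Agent.H503.MG

variable {R : Type*} [CommRing R]

/-- symbols for `Γ₀(N)` with the scaling property -/
structure IsT (N p U : ℕ) (Ψ : ℚ × ℚ → R) : Prop where
  hom : ∀ t x y : ℚ, t ≠ 0 → Ψ (t * x, t * y) = Ψ (x, y)
  inf : ∀ x : ℚ, x ≠ 0 → Ψ (x, 0) = 0
  inv : ∀ a b c d : ℤ, a * d - b * c = 1 → (N : ℤ) ∣ c → ∃ w : R, ∀ x y : ℚ,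
    (x, y) ≠ (0 : ℚ × ℚ) → Ψ (a * x + b * y, c * x + d * y) = Ψ (x, y) + w
  scale : ∀ a c : ℤ, IsCoprime a c → (N : ℤ) ∣ c → ¬ (p : ℤ) ∣ a →
    Ψ ((a : ℚ), ((U * c : ℤ) : ℚ)) = Ψ ((a : ℚ), (c : ℚ))

/-- the value at an integral vector -/
def E (Ψ : ℚ × ℚ → R) (a c : ℤ) : R := Ψ ((a : ℚ), (c : ℚ))

section
variable {N p U : ℕ} {Ψ : ℚ × ℚ → R} (hΨ : IsT N p U Ψ)

include hΨ in
lemma E_inf {a : ℤ} (ha : a ≠ 0) : E Ψ a 0 = 0 := by
  unfold E
  push_cast
  exact hΨ.inf _ (by exact_mod_cast ha)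

include hΨ in
lemma E_hom {t : ℤ} (ht : t ≠ 0) (a c : ℤ) : E Ψ (t * a) (t * c) = E Ψ a c := by
  unfold E
  push_cast
  exact hΨ.hom _ _ _ (by exact_mod_cast ht)

include hΨ in
lemma E_mul {a b c d x y : ℤ} (hdet : a * d - b * c = 1) (hc : (N : ℤ) ∣ c) (hxy : x ≠ 0 ∨ y ≠ 0) :
    E Ψ (a * x + b * y) (c * x + d * y) = E Ψ x y + E Ψ a c := by
  obtain ⟨w, hw⟩ := hΨ.inv a b c d hdet hc
  have hne : ((x : ℚ), (y : ℚ)) ≠ (0 : ℚ × ℚ) := by
    intro h
    rw [Prod.mk_eq_zero] at h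
    rcases hxy with h1 | h1
    · exact h1 (by exact_mod_cast h.1)
    · exact h1 (by exact_mod_cast h.2)
  have h1 := hw x y hne
  have h2 := hw 1 0 (by simp)
  rw [hΨ.inf 1 one_ne_zero, zero_add] at h2
  have h3 : (((a : ℚ) * 1 + b * 0, (c : ℚ) * 1 + d * 0) : ℚ × ℚ) = ((a : ℚ), (c : ℚ)) := by
    ext <;> simp
  rw [h3] at h2
  unfold E
  push_cast
  rw [h1, h2]

include hΨ in
/-- parabolic matrices -/
lemma E_par {a b c d x y : ℤ} (hdet : a * d - b * c = 1) (hc : (N : ℤ) ∣ c) (hxy : x ≠ 0 ∨ y ≠ 0)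
    (h1 : a * x + b * y = x) (h2 : c * x + d * y = y) : E Ψ a c = 0 := by
  have h := E_mul hΨ hdet hc hxy
  rw [h1, h2] at h
  exact left_eq_add.1 h

include hΨ in
lemma E_up (t : ℤ) {a c : ℤ} (h : a ≠ 0 ∨ c ≠ 0) : E Ψ (a + t * c) c = E Ψ a c := by
  have h1 := E_mul hΨ (a := 1) (b := t) (c := 0) (d := 1) (by ring) (dvd_zero _) h
  rw [E_inf hΨ one_ne_zero, add_zero, one_mul, zero_mul, zero_add, one_mul] at h1
  exact h1

include hΨ in
lemma E_lo (t : ℤ) {a c : ℤ} (h : a ≠ 0 ∨ c ≠ 0) : E Ψ a (c + N * a * t) = E Ψ a c := by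
  have h0 : E Ψ 1 (N * t) = 0 := E_par hΨ (a := 1) (b := 0) (c := N * t) (d := 1) (x := 0) (y := 1)
    (by ring) (dvd_mul_right _ _) (by simp) (by ring) (by ring)
  have h1 := E_mul hΨ (a := 1) (b := 0) (c := N * t) (d := 1) (by ring) (dvd_mul_right _ _) h
  rw [h0, add_zero] at h1
  rw [← h1]
  congr 1 <;> ring

include hΨ in
/-- conjugates of lower triangular matrices -/
lemma E_conj {m μ t a c1 : ℤ} (hμ : μ ≠ 0) (ha : a ≠ 0) :
    E Ψ (a + m * (N * μ * (c1 + a * t))) (N * μ ^ 2 * (c1 + a * t)) =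
      E Ψ (a + m * (N * μ * c1)) (N * μ ^ 2 * c1) := by
  have hdet : (1 + m * μ * N * t) * (1 - m * μ * N * t) - (-(m ^ 2 * N * t)) * (N * μ ^ 2 * t) = 1 := by
    ring
  have hc : (N : ℤ) ∣ N * μ ^ 2 * t := ⟨μ ^ 2 * t, by ring⟩
  have h0 : E Ψ (1 + m * μ * N * t) (N * μ ^ 2 * t) = 0 :=
    E_par hΨ (x := m) (y := μ) hdet hc (Or.inr hμ) (by ring) (by ring)
  have hne : a + m * (N * μ * c1) ≠ 0 ∨ N * μ ^ 2 * c1 ≠ 0 := by
    by_contra hcon
    push Not at hcon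
    obtain ⟨h1, h2⟩ := hcon
    apply ha
    rcases mul_eq_zero.1 h2 with h3 | h3
    · rcases mul_eq_zero.1 h3 with h4 | h4
      · rw [h4] at h1
        simpa using h1
      · exact absurd (pow_eq_zero_iff (two_ne_zero)|>.1 h4) hμ
    · rw [h3] at h1
      simpa using h1
  have h1 := E_mul hΨ hdet hc hne
  rw [h0, add_zero] at h1
  rw [← h1]
  congr 1 <;> ring

end

section
variable {N p U : ℕ} (hp : p.Prime) {Ψ : ℚ × ℚ → R} (hΨ : IsT N p U Ψ)
variable (hU : ∃ K : ℕ, U = p ^ (K + 1))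

include hp hU in
lemma cop_pow {a : ℤ} (ha : ¬ (p : ℤ) ∣ a) (j : ℕ) : IsCoprime a ((U : ℤ) ^ j) := by
  obtain ⟨K, rfl⟩ := hU
  push_cast
  rw [← pow_mul]
  exact ((Nat.prime_iff_prime_int.1 hp).coprime_iff_not_dvd.2 ha).symm.pow_right

include hp hΨ hU in
/-- iterated scaling -/
lemma E_scale {a c : ℤ} (h : IsCoprime a c) (hc : (N : ℤ) ∣ c) (ha : ¬ (p : ℤ) ∣ a) (j : ℕ) :
    E Ψ a ((U : ℤ) ^ j * c) = E Ψ a c := by
  induction j with
  | zero => rw [pow_zero, one_mul]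
  | succ j ih =>
    have h1 := hΨ.scale a ((U : ℤ) ^ j * c) ((cop_pow hp hU ha j).mul_right h) (hc.mul_left _) ha
    rw [← ih]
    unfold E
    rw [← h1]
    congr 2
    push_cast
    ring

include hp hΨ hU in
/-- the basic function, scaled -/
lemma V_scale {μ : ℤ} {a c1 m : ℤ} (h : IsCoprime a (N * μ ^ 2 * c1)) (ha : ¬ (p : ℤ) ∣ a) (j : ℕ) :
    E Ψ (a + m * U ^ j * (N * μ * c1)) (N * μ ^ 2 * c1) =
      E Ψ (a + m * (N * μ * (U ^ j * c1))) (N * μ ^ 2 * (U ^ j * c1)) := by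
  rcases j with _ | j
  · simp
  · have h1 : IsCoprime a (N * μ * c1) := by
      refine IsCoprime.of_isCoprime_of_dvd_right h ⟨μ, by ring⟩
    have h2 : IsCoprime (a + m * U ^ (j + 1) * (N * μ * c1)) (N * μ * c1) :=
      IsCoprime.add_mul_right_left h1 _
    have h3 : IsCoprime (a + m * U ^ (j + 1) * (N * μ * c1)) (N * μ ^ 2 * c1) := by
      have h4 : IsCoprime (a + m * U ^ (j + 1) * (N * μ * c1)) μ :=
        IsCoprime.of_isCoprime_of_dvd_right h2 ⟨N * c1, by ring⟩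
      have h5 : (N : ℤ) * μ ^ 2 * c1 = (N * μ * c1) * μ := by ring
      rw [h5]
      exact h2.mul_right h4
    have h6 : ¬ (p : ℤ) ∣ a + m * U ^ (j + 1) * (N * μ * c1) := by
      intro h7
      apply ha
      have h8 : (p : ℤ) ∣ m * U ^ (j + 1) * (N * μ * c1) := by
        obtain ⟨K, hK⟩ := hU
        rw [hK]
        refine Dvd.dvd.mul_right (Dvd.dvd.mul_left ?_ _) _
        refine dvd_pow ?_ (Nat.succ_ne_zero j)
        push_cast
        exact dvd_pow_self _ (Nat.succ_ne_zero K)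
      exact (Int.dvd_add_left h8).1 h7
    have h7 := E_scale hp hΨ hU h3 ⟨μ ^ 2 * c1, by ring⟩ h6 (j + 1)
    rw [← h7]
    congr 1 <;> ring

/-- choice of the prime -/
lemma exists_prime_a {μ : ℕ} (hN : N ≠ 0) (hμ : μ.Prime) {l k : ℕ} (hl : l.Prime) (hlμ : l ≠ μ)
    (hlk : ¬ l ^ k ∣ 2 * N) {π : ℕ} (hπ : π.Prime) (hlπ : l ≠ π) {a : ℤ}
    (ha : IsCoprime a (N * μ ^ 2 * π)) (B : ℕ) :
    ∃ (a' : ℕ) (s : ℤ), a'.Prime ∧ B < a' ∧ (a' : ℤ) = a + s * (N * μ ^ 2 * π) ∧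
      ¬ ((l : ℤ) ^ k ∣ (a' : ℤ) - 1) := by
  have hm0 : N * μ ^ 2 * π ≠ 0 := mul_ne_zero (mul_ne_zero hN (pow_ne_zero _ hμ.ne_zero)) hπ.ne_zero
  have hlp : Prime (l : ℤ) := Nat.prime_iff_prime_int.1 hl
  -- the starting value
  obtain ⟨s0, h1, h2⟩ : ∃ s0 : ℤ, IsCoprime (a + s0 * (N * μ ^ 2 * π)) (l : ℤ) ∧
      ¬ ((l : ℤ) ^ k ∣ a + s0 * (N * μ ^ 2 * π) - 1) := by
    by_cases hlN : l ∣ N
    · have hlm : (l : ℤ) ∣ N * μ ^ 2 * π := by
        have : (l : ℤ) ∣ N := by exact_mod_cast hlN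
        exact (this.mul_right _).mul_right _
      have hcop : IsCoprime a (l : ℤ) := IsCoprime.of_isCoprime_of_dvd_right ha hlm
      by_cases h3 : (l : ℤ) ^ k ∣ a - 1
      · refine ⟨1, ?_, ?_⟩
        · obtain ⟨z, hz⟩ := hlm
          rw [hz, one_mul]
          exact IsCoprime.add_mul_left_left hcop z
        · intro h4
          have h5 : (l : ℤ) ^ k ∣ N * μ ^ 2 * π := by
            have h6 := dvd_sub h4 h3
            have h7 : a + 1 * (N * μ ^ 2 * π) - 1 - (a - 1) = N * μ ^ 2 * (π : ℤ) := by ring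
            rwa [h7] at h6
          have h8 : IsCoprime ((l : ℤ) ^ k) (μ ^ 2 * π : ℤ) := by
            refine IsCoprime.pow_left (IsCoprime.mul_right (IsCoprime.pow_right ?_) ?_)
            · exact Nat.isCoprime_iff_coprime.2 ((Nat.coprime_primes hl hμ).2 hlμ)
            · exact Nat.isCoprime_iff_coprime.2 ((Nat.coprime_primes hl hπ).2 hlπ)
          have h9 : (l : ℤ) ^ k ∣ N := by
            refine h8.dvd_of_dvd_mul_right ?_
            have : (N : ℤ) * (μ ^ 2 * π) = N * μ ^ 2 * π := by ring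
            rw [this]
            exact h5
          apply hlk
          have h10 : l ^ k ∣ N := by exact_mod_cast h9
          exact h10.mul_left _
      · exact ⟨0, by simpa using hcop, by simpa using h3⟩
    · have hcop : IsCoprime ((N * μ ^ 2 * π : ℤ)) ((l : ℤ) ^ k) := by
        refine IsCoprime.pow_right ?_
        refine IsCoprime.mul_left (IsCoprime.mul_left ?_ (IsCoprime.pow_left ?_)) ?_
        · exact (Nat.isCoprime_iff_coprime.2 ((Nat.Prime.coprime_iff_not_dvd hl).2 hlN)).symm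
        · exact (Nat.isCoprime_iff_coprime.2 ((Nat.coprime_primes hl hμ).2 hlμ)).symm
        · exact (Nat.isCoprime_iff_coprime.2 ((Nat.coprime_primes hl hπ).2 hlπ)).symm
      obtain ⟨x, y, hxy⟩ := hcop
      -- `x m + y l^k = 1`
      refine ⟨-(1 + a) * x, ?_, ?_⟩
      · have h3 : a + -(1 + a) * x * (N * μ ^ 2 * π) = -1 + (l : ℤ) ^ k * ((1 + a) * y) := by
          linear_combination (-(1 + a)) * hxy
        rw [h3]
        have hk0 : k ≠ 0 := by
          rintro rfl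
          exact hlk (by simp)
        obtain ⟨k', rfl⟩ := Nat.exists_eq_succ_of_ne_zero hk0
        have h4 : (-1 : ℤ) + (l : ℤ) ^ (k'.succ) * ((1 + a) * y) =
            -1 + l * (l ^ k' * ((1 + a) * y)) := by
          rw [pow_succ]
          ring
        rw [h4]
        exact IsCoprime.add_mul_left_left (isCoprime_one_left.neg_left) _
      · intro h4
        have h3 : a + -(1 + a) * x * (N * μ ^ 2 * π) - 1 = -2 + (l : ℤ) ^ k * ((1 + a) * y) := by
          linear_combination (-(1 + a)) * hxy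
        rw [h3] at h4
        have h5 : (l : ℤ) ^ k ∣ -2 := (Int.dvd_add_left (dvd_mul_right _ _)).1 h4
        have h6 : (l : ℤ) ^ k ∣ 2 := (dvd_neg).1 h5
        have h7 : l ^ k ∣ 2 := by exact_mod_cast h6
        exact hlk (h7.mul_right _)
  -- Dirichlet
  have hcop : IsCoprime (a + s0 * (N * μ ^ 2 * π)) ((N * μ ^ 2 * π * l ^ k : ℕ) : ℤ) := by
    push_cast
    refine IsCoprime.mul_right ?_ h1.pow_right
    exact IsCoprime.add_mul_right_left ha _
  obtain ⟨a', hB, ha', hmod⟩ := Nat.forall_exists_prime_gt_and_zmodEq B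
    (q := N * μ ^ 2 * π * l ^ k) (mul_ne_zero hm0 (pow_ne_zero _ hl.ne_zero)) hcop
  obtain ⟨z, hz⟩ := hmod.symm.dvd
  refine ⟨a', s0 + z * l ^ k, ha', hB, ?_, ?_⟩
  · push_cast at hz
    linear_combination hz
  · intro h3
    apply h2
    have h4 : a + s0 * (N * μ ^ 2 * π) - 1 = (a' : ℤ) - 1 - l ^ k * (N * μ ^ 2 * π * z) := by
      push_cast at hz
      linear_combination (-1 : ℤ) * hz
    rw [h4]
    exact dvd_sub h3 (dvd_mul_right _ _)

end

end Pool.Agent.H503.MG
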